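import Pool.Agent.R496.Sm2
import Pool.Agent.H379R2.W.ClassBound

/-! Primes with the same Legendre symbols at all small primes (large sieve, dual form). -/

set_option autoImplicit false

namespace Pool.Agent.R496

open Finset Real

open Pool.Agent.H379R2.W (jacobi_sum_le jacobi_natAbs_le exists_neg_one)

lemma jac_same (y p q : ℕ) (hp : p.Prime) (hq : q.Prime)
    (h : ∀ l : ℕ, l.Prime → l ≤ y → jacobiSym (l : ℤ) p * jacobiSym (l : ℤ) q = 1) :
    ∀ m : ℕ, 1 ≤ m → (∀ l : ℕ, l.Prime → l ∣ m → l ≤ y) → jacobiSym (m : ℤ) (p * q) = 1 := by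
  have : NeZero p := ⟨hp.ne_zero⟩
  have : NeZero q := ⟨hq.ne_zero⟩
  intro m
  induction m using Nat.recOnMul with
  | zero => intro h1; omega
  | one => intro _ _; simp
  | prime l hl =>
    intro _ h2
    rw [jacobiSym.mul_right]
    exact h l hl (h2 l hl dvd_rfl)
  | mul a b iha ihb =>
    intro h1 h2
    have ha : 1 ≤ a := Nat.pos_of_ne_zero (by rintro rfl; simp at h1)
    have hb : 1 ≤ b := Nat.pos_of_ne_zero (by rintro rfl; simp at h1)
    push_cast
    rw [jacobiSym.mul_left, iha ha fun l hl hd => h2 l hl (hd.mul_right b),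
      ihb hb fun l hl hd => h2 l hl (hd.mul_left a)]
    norm_num

/-- Primes with the same symbols at all primes up to `y`. -/
lemma class_dual (P : Finset ℕ) (y N : ℕ) (Q : ℝ) (hQ : 1 ≤ Q)
    (hP : ∀ p ∈ P, p.Prime ∧ p ≠ 2 ∧ (p : ℝ) ≤ Q)
    (hsym : ∀ p ∈ P, ∀ q ∈ P, ∀ l : ℕ, l.Prime → l ≤ y →
      jacobiSym (l : ℤ) p * jacobiSym (l : ℤ) q = 1) :
    (P.card : ℝ) ^ 2 * (ysm y N).card ≤ P.card * N + (P.card : ℝ) ^ 2 * (8 * Q * (1 + 2 * log Q)) := by
  have hlogQ : 0 ≤ log Q := log_nonneg hQ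
  have h1 : (P.card : ℝ) ^ 2 * (ysm y N).card =
      ∑ m ∈ ysm y N, ((∑ p ∈ P, ∑ q ∈ P, jacobiSym (m : ℤ) (p * q) : ℤ) : ℝ) := by
    have : ∀ m ∈ ysm y N, ((∑ p ∈ P, ∑ q ∈ P, jacobiSym (m : ℤ) (p * q) : ℤ) : ℝ) =
        (P.card : ℝ) ^ 2 := by
      intro m hm
      rw [mem_ysm] at hm
      have e : ∀ p ∈ P, ∑ q ∈ P, jacobiSym (m : ℤ) (p * q) = P.card := by
        intro p hp
        have e2 : ∀ q ∈ P, jacobiSym (m : ℤ) (p * q) = 1 := fun q hq =>
          jac_same y p q (hP p hp).1 (hP q hq).1 (hsym p hp q hq) m hm.1.1 hm.2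
        rw [sum_congr rfl e2]
        simp
      rw [sum_congr rfl e]
      push_cast
      rw [sum_const, nsmul_eq_mul]
      ring
    rw [sum_congr rfl this, sum_const, nsmul_eq_mul]
    ring
  have hsq : ∀ m : ℕ, ((∑ p ∈ P, ∑ q ∈ P, jacobiSym (m : ℤ) (p * q) : ℤ) : ℝ) =
      (∑ p ∈ P, (jacobiSym (m : ℤ) p : ℝ)) ^ 2 := by
    intro m
    rw [sq, sum_mul_sum]
    push_cast
    apply sum_congr rfl
    intro p hp
    apply sum_congr rfl
    intro q hq
    have : NeZero p := ⟨(hP p hp).1.ne_zero⟩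
    have : NeZero q := ⟨(hP q hq).1.ne_zero⟩
    rw [jacobiSym.mul_right]
    push_cast
    ring
  have h2 : ∑ m ∈ ysm y N, ((∑ p ∈ P, ∑ q ∈ P, jacobiSym (m : ℤ) (p * q) : ℤ) : ℝ) ≤
      ∑ m ∈ Icc 1 N, ((∑ p ∈ P, ∑ q ∈ P, jacobiSym (m : ℤ) (p * q) : ℤ) : ℝ) := by
    apply sum_le_sum_of_subset_of_nonneg
    · intro m hm
      rw [mem_ysm] at hm
      rw [mem_Icc]
      exact hm.1
    · intro m _ _
      rw [hsq]
      positivity
  have h3 : ∑ m ∈ Icc 1 N, ((∑ p ∈ P, ∑ q ∈ P, jacobiSym (m : ℤ) (p * q) : ℤ) : ℝ) =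
      ∑ p ∈ P, ∑ q ∈ P, ((∑ m ∈ Icc 1 N, jacobiSym (m : ℤ) (p * q) : ℤ) : ℝ) := by
    push_cast
    rw [sum_comm]
    apply sum_congr rfl
    intro p _
    rw [sum_comm]
  have h4 : ∑ p ∈ P, ∑ q ∈ P, ((∑ m ∈ Icc 1 N, jacobiSym (m : ℤ) (p * q) : ℤ) : ℝ) ≤
      ∑ p ∈ P, ∑ q ∈ P, ((if p = q then (N : ℝ) else 0) + 8 * Q * (1 + 2 * log Q)) := by
    apply sum_le_sum
    intro p hp
    apply sum_le_sum
    intro q hq
    obtain ⟨hpp, hp2, hpQ⟩ := hP p hp
    obtain ⟨hqp, hq2, hqQ⟩ := hP q hq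
    split_ifs with heq
    · have e3 : ((∑ m ∈ Icc 1 N, jacobiSym (m : ℤ) (p * q) : ℤ) : ℝ) ≤ N := by
        push_cast
        have : ∀ m ∈ Icc 1 N, ((jacobiSym (m : ℤ) (p * q) : ℤ) : ℝ) ≤ 1 := by
          intro m _
          have h5 := jacobi_natAbs_le (m : ℤ) (p * q)
          have h6 := (abs_le.mp h5).2
          exact_mod_cast h6
        refine (sum_le_sum this).trans ?_
        rw [sum_const, Nat.card_Icc, nsmul_eq_mul]
        simp
      have : 0 ≤ 8 * Q * (1 + 2 * log Q) := by positivity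
      linarith
    · rw [zero_add]
      have hne := exists_neg_one hpp.squarefree hqp.squarefree (hpp.odd_of_ne_two hp2)
        (hqp.odd_of_ne_two hq2) heq
      have hpq1 : 1 ≤ p * q := Nat.mul_pos hpp.pos hqp.pos
      have h5 := jacobi_sum_le (p * q) hpq1 hne N
      refine (le_abs_self _).trans (h5.trans ?_)
      have hd : ((p * q).divisors.card : ℝ) ≤ 4 := by
        have h6 := Pool.Agent.H379R2.W.card_div_mul_le p q
        have h7 : p.divisors.card = 2 := by rw [hpp.divisors, card_pair hpp.one_lt.ne]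
        have h8 : q.divisors.card = 2 := by rw [hqp.divisors, card_pair hqp.one_lt.ne]
        rw [h7, h8] at h6
        exact_mod_cast h6
      have hpq : ((p * q : ℕ) : ℝ) ≤ Q ^ 2 := by
        push_cast
        rw [sq]
        gcongr
      have hs : √((p * q : ℕ) : ℝ) ≤ Q := by
        rw [sqrt_le_left (by linarith)]
        exact hpq
      have hl : log ((p * q : ℕ) : ℝ) ≤ 2 * log Q := by
        have := log_le_log (by exact_mod_cast hpq1) hpq
        rwa [log_pow, Nat.cast_ofNat] at this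
      have hl0 : 0 ≤ log ((p * q : ℕ) : ℝ) := log_natCast_nonneg _
      calc ((p * q).divisors.card : ℝ) * (2 * √((p * q : ℕ) : ℝ) * (1 + log ((p * q : ℕ) : ℝ))) ≤
          4 * (2 * Q * (1 + 2 * log Q)) := by gcongr
        _ = 8 * Q * (1 + 2 * log Q) := by ring
  have h5 : ∑ p ∈ P, ∑ q ∈ P, ((if p = q then (N : ℝ) else 0) + 8 * Q * (1 + 2 * log Q)) =
      P.card * N + (P.card : ℝ) ^ 2 * (8 * Q * (1 + 2 * log Q)) := by
    have e1 : ∀ p ∈ P, ∑ q ∈ P, ((if p = q then (N : ℝ) else 0) + 8 * Q * (1 + 2 * log Q)) =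
        N + P.card * (8 * Q * (1 + 2 * log Q)) := by
      intro p hp
      rw [sum_add_distrib, sum_ite_eq, if_pos hp, sum_const, nsmul_eq_mul]
    rw [sum_congr rfl e1, sum_const, nsmul_eq_mul]
    ring
  linarith

/-- If there are many smooth numbers, the class is small. -/
lemma class_small (P : Finset ℕ) (y N : ℕ) (Q : ℝ) (hQ : 1 ≤ Q)
    (hP : ∀ p ∈ P, p.Prime ∧ p ≠ 2 ∧ (p : ℝ) ≤ Q)
    (hsym : ∀ p ∈ P, ∀ q ∈ P, ∀ l : ℕ, l.Prime → l ≤ y →
      jacobiSym (l : ℤ) p * jacobiSym (l : ℤ) q = 1)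
    (hN : 16 * Q * (1 + 2 * log Q) ≤ (ysm y N).card) :
    (P.card : ℝ) * (ysm y N).card ≤ 2 * N := by
  have h1 := class_dual P y N Q hQ hP hsym
  rcases Nat.eq_zero_or_pos P.card with h0 | h0
  · rw [h0]
    simp
  · have h2 : (0 : ℝ) < P.card := by exact_mod_cast h0
    have h3 : (P.card : ℝ) ^ 2 * (8 * Q * (1 + 2 * log Q)) ≤
        (P.card : ℝ) ^ 2 * ((ysm y N).card / 2) := by
      gcongr
      linarith
    have h4 : (P.card : ℝ) * (P.card * (ysm y N).card) ≤ P.card * (2 * N) := by nlinarith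
    exact le_of_mul_le_mul_left h4 h2

end Pool.Agent.R496
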