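import Pool.Agent.R496.Cls
import Pool.Agent.H379R2.W.Strong

/-! The small prime factors of an integer that passes the strong test for all small bases. -/

set_option autoImplicit false

namespace Pool.Agent.R496

open Finset Real

open Pool.Agent.H379R2.W (Passes same_symbol symbol_one not_dvd_of_passes v2)

/-- the prime factors of `n` up to `Q` -/
noncomputable def pfac (n : ℕ) (Q : ℝ) : Finset ℕ := by
  classical exact n.primeFactors.filter (fun p : ℕ => (p : ℝ) ≤ Q)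

lemma mem_pfac {n : ℕ} {Q : ℝ} {p : ℕ} : p ∈ pfac n Q ↔ p ∈ n.primeFactors ∧ (p : ℝ) ≤ Q := by
  classical
  unfold pfac
  rw [mem_filter]

lemma jac_ne {l p : ℕ} (hp : p.Prime) (h : ¬ p ∣ l) : jacobiSym (l : ℤ) p * jacobiSym (l : ℤ) p = 1 := by
  have h1 : IsCoprime (l : ℤ) (p : ℤ) := by
    rw [Nat.isCoprime_iff_coprime, Nat.coprime_comm]
    exact (Nat.Prime.coprime_iff_not_dvd hp).mpr h
  have h2 : (l : ℤ).gcd p = 1 := Int.isCoprime_iff_gcd_eq_one.mp h1
  have h3 := jacobiSym.sq_one h2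
  rwa [sq] at h3

/-- The main inequality. -/
lemma count_le (n y N : ℕ) (Q : ℝ) (hn : 2 ≤ n) (hy : 2 ≤ y) (hQ : 1 ≤ Q)
    (hpass : ∀ b : ℕ, 1 < b → b ≤ y → Passes n b)
    (hN : 16 * Q * (1 + 2 * log Q) ≤ (ysm y N).card) :
    ((pfac n Q).card : ℝ) * (ysm y N).card ≤ 4 * N := by
  classical
  have hprime : ∀ p ∈ pfac n Q, p.Prime ∧ p ∣ n ∧ (p : ℝ) ≤ Q := by
    intro p hp
    rw [mem_pfac, Nat.mem_primeFactors] at hp
    exact ⟨hp.1.1, hp.1.2.1, hp.2⟩
  have h2 : ∀ p ∈ pfac n Q, p ≠ 2 := by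
    intro p hp h
    obtain ⟨h1, h3, _⟩ := hprime p hp
    rw [h] at h3
    exact not_dvd_of_passes hn Nat.prime_two h3 (hpass 2 (by norm_num) hy) dvd_rfl
  rcases (pfac n Q).eq_empty_or_nonempty with h0 | h0
  · rw [h0]
    simp
  obtain ⟨p0, hp0, hmin⟩ := Finset.exists_min_image (pfac n Q) v2 h0
  obtain ⟨a1, a2, a3⟩ := hprime p0 hp0
  set F1 := (pfac n Q).filter (fun p => v2 p = v2 p0) with hF1
  set F2 := (pfac n Q).filter (fun p => ¬ v2 p = v2 p0) with hF2
  have hsum : (pfac n Q).card = F1.card + F2.card :=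
    (Finset.card_filter_add_card_filter_not _).symm
  have hP1 : ∀ p ∈ F1, p.Prime ∧ p ≠ 2 ∧ (p : ℝ) ≤ Q := by
    intro p hp
    rw [hF1, mem_filter] at hp
    exact ⟨(hprime p hp.1).1, h2 p hp.1, (hprime p hp.1).2.2⟩
  have hP2 : ∀ p ∈ F2, p.Prime ∧ p ≠ 2 ∧ (p : ℝ) ≤ Q := by
    intro p hp
    rw [hF2, mem_filter] at hp
    exact ⟨(hprime p hp.1).1, h2 p hp.1, (hprime p hp.1).2.2⟩
  have h3 := class_small F1 y N Q hQ hP1 (by
    intro p hp q hq l hl hly
    rw [hF1, mem_filter] at hp hq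
    obtain ⟨b1, b2, b3⟩ := hprime p hp.1
    obtain ⟨c1, c2, c3⟩ := hprime q hq.1
    have hpl := hpass l hl.one_lt hly
    have h4 := same_symbol hpl b1 c1 (h2 p hp.1) (h2 q hq.1) b2 c2 (hp.2.trans hq.2.symm)
    rw [← h4]
    exact jac_ne b1 (not_dvd_of_passes hn b1 b2 hpl)) hN
  have h4 := class_small F2 y N Q hQ hP2 (by
    intro p hp q hq l hl hly
    rw [hF2, mem_filter] at hp hq
    obtain ⟨b1, b2, b3⟩ := hprime p hp.1
    obtain ⟨c1, c2, c3⟩ := hprime q hq.1
    have hpl := hpass l hl.one_lt hly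
    have hvp : v2 p0 < v2 p := lt_of_le_of_ne (hmin p hp.1) (Ne.symm hp.2)
    have hvq : v2 p0 < v2 q := lt_of_le_of_ne (hmin q hq.1) (Ne.symm hq.2)
    rw [symbol_one hpl b1 a1 (h2 p hp.1) (h2 p0 hp0) b2 a2 hvp,
      symbol_one hpl c1 a1 (h2 q hq.1) (h2 p0 hp0) c2 a2 hvq]
    norm_num) hN
  have h5 : ((pfac n Q).card : ℝ) = F1.card + F2.card := by exact_mod_cast hsum
  rw [h5, add_mul]
  linarith

lemma pfac_card_le (n : ℕ) (Q : ℝ) (hQ : 0 ≤ Q) : ((pfac n Q).card : ℝ) ≤ Q := by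
  have h1 : pfac n Q ⊆ Icc 1 ⌊Q⌋₊ := by
    intro p hp
    rw [mem_pfac, Nat.mem_primeFactors] at hp
    rw [mem_Icc]
    exact ⟨hp.1.1.one_lt.le, Nat.le_floor hp.2⟩
  have h2 := card_le_card h1
  rw [Nat.card_Icc, Nat.add_sub_cancel] at h2
  have h3 : ((pfac n Q).card : ℝ) ≤ (⌊Q⌋₊ : ℝ) := by exact_mod_cast h2
  exact h3.trans (Nat.floor_le hQ)

/-- The uniform bound. -/
theorem uniform : ∃ C : ℝ, 0 < C ∧ ∀ n y : ℕ, 2 ≤ n → 2 ≤ y →
    (∀ b : ℕ, 1 < b → b ≤ y → Passes n b) → ∀ u : ℝ, 1 ≤ u →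
      ((pfac n ((y : ℝ) ^ u)).card : ℝ) ≤ exp (C * (u * log (u + 1))) := by
  obtain ⟨K, hK8, hK⟩ := smooth_low
  set y0 : ℕ := ⌈(49 * K) ^ 16⌉₊ with hy0
  have hl2 : 0 < log (2 : ℝ) := log_pos (by norm_num)
  have hK0 : 0 < K := by linarith
  have hlK : 0 ≤ log K := log_nonneg (by linarith)
  have hl7 : 0 ≤ log (7 : ℝ) := log_nonneg (by norm_num)
  have hly0 : 0 ≤ log (y0 : ℝ) := log_natCast_nonneg _
  set C : ℝ := 16 + log y0 / log 2 + (2 + 7 * (log K / log 2) + 14 * (log 7 / log 2) + 14) with hC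
  have hc1 : 0 ≤ log (y0 : ℝ) / log 2 := by positivity
  have hc2 : 0 ≤ log K / log 2 := by positivity
  have hc3 : 0 ≤ log (7 : ℝ) / log 2 := by positivity
  refine ⟨C, by rw [hC]; linarith, fun n y hn hy hpass u hu => ?_⟩
  have hy2 : (2 : ℝ) ≤ y := by exact_mod_cast hy
  have hypos : (0 : ℝ) < y := by linarith
  have hw : log 2 ≤ log (u + 1) := log_le_log (by norm_num) (by linarith)
  have hw0 : 0 < log (u + 1) := by linarith
  have hW : 0 ≤ u * log (u + 1) := by positivity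
  have hu0 : 0 < u := by linarith
  -- comparison of `u c` with `u log (u + 1)`
  have hcmp : ∀ c : ℝ, 0 ≤ c → u * c ≤ c / log 2 * (u * log (u + 1)) := by
    intro c hc
    have : u * c = c / log 2 * (u * log 2) := by field_simp
    rw [this]
    gcongr
  have htriv : ((pfac n ((y : ℝ) ^ u)).card : ℝ) ≤ exp (u * log y) := by
    refine (pfac_card_le n _ (by positivity)).trans (le_of_eq ?_)
    rw [rpow_def_of_pos hypos, mul_comm]
  by_cases hyy : y < y0
  · refine htriv.trans (exp_le_exp.mpr ?_)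
    have h1 : log (y : ℝ) ≤ log y0 := log_le_log hypos (by exact_mod_cast hyy.le)
    have h2 : u * log y ≤ u * log y0 := mul_le_mul_of_nonneg_left h1 hu0.le
    have h3 := hcmp _ hly0
    have h4 : log (y0 : ℝ) / log 2 * (u * log (u + 1)) ≤ C * (u * log (u + 1)) := by
      apply mul_le_mul_of_nonneg_right _ hW
      rw [hC]; linarith
    linarith
  push Not at hyy
  set z : ℝ := (y : ℝ) ^ (1 / 16 : ℝ) with hz
  have hzy : z ^ 16 = y := by
    rw [hz, ← rpow_natCast, ← rpow_mul hypos.le]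
    norm_num
  have hz0 : 0 < z := by positivity
  by_cases huz : z ≤ u
  · refine htriv.trans (exp_le_exp.mpr ?_)
    have h1 : log (y : ℝ) ≤ 16 * log (u + 1) := by
      rw [← hzy, log_pow]
      push_cast
      have := log_le_log hz0 (show z ≤ u + 1 by linarith)
      linarith
    have h2 : u * log y ≤ u * (16 * log (u + 1)) := mul_le_mul_of_nonneg_left h1 hu0.le
    have h4 : 16 * (u * log (u + 1)) ≤ C * (u * log (u + 1)) := by
      apply mul_le_mul_of_nonneg_right _ hW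
      rw [hC]; linarith
    linarith
  push Not at huz
  have hz49 : 49 * K ≤ z := by
    by_contra hcon
    push Not at hcon
    have h1 : z ^ 16 < (49 * K) ^ 16 := pow_lt_pow_left₀ hcon hz0.le (by norm_num)
    have h2 : (49 * K) ^ 16 ≤ (y0 : ℝ) := Nat.le_ceil _
    have h3 : (y0 : ℝ) ≤ y := by exact_mod_cast hyy
    rw [hzy] at h1
    linarith
  have hz392 : (392 : ℝ) ≤ z := by linarith
  have hz1 : 1 ≤ z := by linarith
  set j : ℕ := ⌈2 * u⌉₊ + 4 with hj
  have hjl : 2 * u + 4 ≤ j := by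
    have := Nat.le_ceil (2 * u)
    rw [hj]
    push_cast
    linarith
  have hju : (j : ℝ) ≤ 7 * u := by
    have := Nat.ceil_lt_add_one (show 0 ≤ 2 * u by linarith)
    rw [hj]
    push_cast
    linarith
  have hj1 : 1 ≤ j := by omega
  have hjz : (j : ℝ) ≤ 7 * z := by linarith
  have hy256 : 256 ≤ y := by
    have h1 : (256 : ℝ) ≤ y := by
      rw [← hzy]
      calc (256 : ℝ) ≤ z := by linarith
        _ ≤ z ^ 16 := le_self_pow₀ hz1 (by norm_num)
    exact_mod_cast h1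
  have hj4 : j ^ 4 ≤ y := by
    have h1 : (j : ℝ) ^ 4 ≤ y := by
      calc (j : ℝ) ^ 4 ≤ (7 * z) ^ 4 := by gcongr
        _ = 2401 * z ^ 4 := by ring
        _ ≤ z ^ 12 * z ^ 4 := by
            gcongr
            calc (2401 : ℝ) ≤ 392 ^ 2 := by norm_num
              _ ≤ z ^ 2 := by gcongr
              _ ≤ z ^ 12 := pow_le_pow_right₀ hz1 (by norm_num)
        _ = z ^ 16 := by ring
        _ = y := hzy
    exact_mod_cast h1
  have hlow := hK y j hj1 hy256 hj4
  have hKj : K * (j : ℝ) ^ 2 ≤ z ^ 8 := by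
    calc K * (j : ℝ) ^ 2 ≤ K * (7 * z) ^ 2 := by gcongr
      _ = 49 * K * z ^ 2 := by ring
      _ ≤ z * z ^ 2 := by gcongr
      _ = z ^ 3 := by ring
      _ ≤ z ^ 8 := pow_le_pow_right₀ hz1 (by norm_num)
  set N := y ^ j with hN
  have hpsi : z ^ (8 * j) ≤ (ysm y N).card := by
    have h1 : (y : ℝ) ^ j = z ^ (8 * j) * z ^ (8 * j) := by
      rw [← hzy, ← pow_mul, ← pow_add]
      congr 1
      ring
    have h2 : (K * (j : ℝ) ^ 2) ^ j ≤ z ^ (8 * j) := by
      rw [pow_mul]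
      exact pow_le_pow_left₀ (by positivity) hKj j
    have h3 : z ^ (8 * j) * z ^ (8 * j) ≤ (ysm y N).card * z ^ (8 * j) := by
      rw [← h1]
      refine hlow.trans ?_
      gcongr
    exact le_of_mul_le_mul_right h3 (by positivity)
  -- the condition
  set Q : ℝ := (y : ℝ) ^ u with hQ
  have hQ1 : 1 ≤ Q := one_le_rpow (by linarith) hu0.le
  have hlogQ : log Q = u * log y := log_rpow hypos u
  have hcond : 16 * Q * (1 + 2 * log Q) ≤ (ysm y N).card := by
    refine le_trans ?_ hpsi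
    have h1 : Q * (y : ℝ) ^ (2 : ℝ) ≤ z ^ (8 * j) := by
      rw [hQ, ← rpow_add hypos]
      have h2 : z ^ (8 * j) = (y : ℝ) ^ ((j : ℝ) / 2) := by
        rw [hz, ← rpow_natCast, ← rpow_mul hypos.le]
        congr 1
        push_cast
        ring
      rw [h2]
      apply rpow_le_rpow_of_exponent_le (by linarith)
      linarith
    refine le_trans ?_ h1
    have h3 : log (y : ℝ) ≤ 16 * z := by
      rw [← hzy, log_pow]
      push_cast
      have := log_le_self hz0.le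
      linarith
    have hlogy : 0 ≤ log (y : ℝ) := log_nonneg (by linarith)
    have h4 : 16 * (1 + 2 * log Q) ≤ (y : ℝ) ^ (2 : ℝ) := by
      rw [hlogQ]
      have h5 : u * log y ≤ z * (16 * z) := mul_le_mul huz.le h3 hlogy hz0.le
      calc 16 * (1 + 2 * (u * log y)) ≤ 16 * (1 + 2 * (z * (16 * z))) := by linarith
        _ ≤ z * (392 * (z * z)) := by nlinarith
        _ ≤ z * (z * (z * z)) := by gcongr
        _ = z ^ 4 := by ring
        _ ≤ z ^ 32 := pow_le_pow_right₀ hz1 (by norm_num)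
        _ = (z ^ 16) ^ 2 := by ring
        _ = (y : ℝ) ^ (2 : ℝ) := by rw [hzy, rpow_two]
    calc 16 * Q * (1 + 2 * log Q) = Q * (16 * (1 + 2 * log Q)) := by ring
      _ ≤ Q * (y : ℝ) ^ (2 : ℝ) := mul_le_mul_of_nonneg_left h4 (by linarith)
  have hcount := count_le n y N Q hn hy hQ1 hpass hcond
  have hNy : (N : ℝ) = (y : ℝ) ^ j := by rw [hN]; push_cast; rfl
  have hcpos : (0 : ℝ) < (ysm y N).card := lt_of_lt_of_le (by positivity) hpsi
  have hfin : ((pfac n Q).card : ℝ) ≤ 4 * (K * (j : ℝ) ^ 2) ^ j := by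
    have h1 : ((pfac n Q).card : ℝ) * (ysm y N).card ≤
        4 * (K * (j : ℝ) ^ 2) ^ j * (ysm y N).card := by
      refine hcount.trans ?_
      rw [hNy]
      calc 4 * (y : ℝ) ^ j ≤ 4 * ((ysm y (y ^ j)).card * (K * (j : ℝ) ^ 2) ^ j) := by linarith
        _ = 4 * (K * (j : ℝ) ^ 2) ^ j * (ysm y N).card := by rw [hN]; ring
    exact le_of_mul_le_mul_right h1 hcpos
  refine hfin.trans ?_
  have hj0 : (0 : ℝ) < j := by exact_mod_cast hj1
  rw [← log_le_iff_le_exp (by positivity), log_mul (by norm_num) (by positivity), log_pow,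
    log_mul (by positivity) (by positivity), log_pow]
  push_cast
  have e1 : log (4 : ℝ) = 2 * log 2 := by
    rw [show (4 : ℝ) = 2 ^ 2 by norm_num, log_pow]
    push_cast
    ring
  have e2 : log (j : ℝ) ≤ log 7 + log (u + 1) := by
    rw [← log_mul (by norm_num) (by positivity)]
    apply log_le_log hj0
    linarith
  have e3 : 2 * log 2 ≤ 2 * (u * log (u + 1)) := by nlinarith
  have hlj : 0 ≤ log (j : ℝ) := log_nonneg (by exact_mod_cast hj1)
  have e4 : (j : ℝ) * (log K + 2 * log j) ≤ 7 * u * (log K + 2 * (log 7 + log (u + 1))) := by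
    apply mul_le_mul hju _ (by positivity) (by positivity)
    linarith
  have e5 : 7 * u * (log K + 2 * (log 7 + log (u + 1))) =
      7 * (u * log K) + 14 * (u * log 7) + 14 * (u * log (u + 1)) := by ring
  have e6 := hcmp _ hlK
  have e7 := hcmp _ hl7
  have e8 : (2 + 7 * (log K / log 2) + 14 * (log 7 / log 2) + 14) * (u * log (u + 1)) ≤
      C * (u * log (u + 1)) := by
    apply mul_le_mul_of_nonneg_right _ hW
    rw [hC]; linarith
  rw [e1]
  nlinarith

end Pool.Agent.R496
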