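import Pool.Agent.R496.Repel2

/-! Carries: the numbers of nonzero digits of the factors of `B ^ N + 1` in base `B`. -/

set_option autoImplicit false

namespace Pool.Agent.R496

open Finset

/-- digit of `a` in base `B` at place `i` -/
def dg (B a i : ℕ) : ℕ := a / B ^ i % B

lemma dg_lt {B : ℕ} (hB : 2 ≤ B) (a i : ℕ) : dg B a i < B := Nat.mod_lt _ (by omega)

lemma sum_dg (B a : ℕ) : ∀ T : ℕ, ∑ i ∈ range T, dg B a i * B ^ i = a % B ^ T := by
  intro T
  induction T with
  | zero => simp [Nat.mod_one]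
  | succ T ih =>
    rw [sum_range_succ, ih, dg, pow_succ, Nat.mod_mul, mul_comm (a / B ^ T % B)]

/-- the number of nonzero digits -/
def nz (B a : ℕ) : ℕ := ((Nat.digits B a).filter (fun d => d ≠ 0)).length

lemma nz_zero (B : ℕ) : nz B 0 = 0 := by simp [nz]

lemma nz_step {B a : ℕ} (hB : 2 ≤ B) (ha : 0 < a) :
    nz B a = (if a % B ≠ 0 then 1 else 0) + nz B (a / B) := by
  unfold nz
  rw [Nat.digits_def' (by omega) ha, List.filter_cons]
  split_ifs with h1 h2 h2
  · rw [List.length_cons]
    omega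
  · simp_all
  · simp_all
  · simp

/-- indicator of a nonzero digit -/
def ch (B a i : ℕ) : ℕ := if dg B a i ≠ 0 then 1 else 0

/-- the number of nonzero digits below place `T` -/
lemma nz_eq {B : ℕ} (hB : 2 ≤ B) : ∀ T a : ℕ, a < B ^ T → ∑ i ∈ range T, ch B a i = nz B a := by
  intro T
  induction T with
  | zero =>
    intro a ha
    have : a = 0 := by simpa using ha
    rw [this, nz_zero]
    simp
  | succ T ih =>
    intro a ha
    rcases Nat.eq_zero_or_pos a with h0 | h0
    · rw [h0, nz_zero]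
      apply sum_eq_zero
      intro i _
      simp [ch, dg]
    · rw [nz_step hB h0]
      have h1 : a / B < B ^ T := by
        rw [Nat.div_lt_iff_lt_mul (by omega), ← pow_succ]
        exact ha
      rw [← ih (a / B) h1, sum_range_succ', add_comm]
      congr 1
      · simp [ch, dg]
      · apply sum_congr rfl
        intro i _
        unfold ch dg
        rw [pow_succ', Nat.div_div_eq_div_mul]

/-- The carry argument. -/
lemma carry (B N s : ℕ) (hB : 2 ≤ B) (e r : ℕ → ℕ) (hsN : s < N)
    (hdvd : ∀ T ≤ N, B ^ T ∣ ∑ l ∈ Ico s T, e l * B ^ l)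
    (her : ∀ l, e l ≤ r l * (B - 1) ^ 2) (hes : e s ≠ 0) :
    N ≤ s + ∑ l ∈ Ico s N, r l := by
  obtain ⟨β, rfl⟩ : ∃ β, B = β + 1 := ⟨B - 1, by omega⟩
  have hβ : 1 ≤ β := by omega
  simp only [Nat.add_sub_cancel] at her
  set B := β + 1 with hBdef
  have key : ∀ T, s + 1 ≤ T → T ≤ N → ∃ c x : ℕ, (∑ l ∈ Ico s T, e l * B ^ l) = c * B ^ T ∧ 1 ≤ c ∧
      s + ∑ l ∈ Ico s T, r l = T + x ∧ c ≤ β * (x + 1) := by
    intro T hT
    induction T, hT using Nat.le_induction with
    | base =>
      intro hTN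
      obtain ⟨c, hc⟩ := hdvd (s + 1) hTN
      have h1 : Ico s (s + 1) = {s} := by simp
      rw [h1, sum_singleton] at hc
      rw [h1, sum_singleton, sum_singleton]
      have h2 : e s = c * B := by
        have : e s * B ^ s = c * B * B ^ s := by rw [hc, pow_succ]; ring
        exact Nat.eq_of_mul_eq_mul_right (by positivity) this
      have hc1 : 1 ≤ c := by
        rcases Nat.eq_zero_or_pos c with h0 | h0
        · rw [h0, zero_mul] at h2
          exact absurd h2 hes
        · exact h0
      have hr1 : 1 ≤ r s := by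
        rcases Nat.eq_zero_or_pos (r s) with h0 | h0
        · have := her s
          rw [h0, zero_mul] at this
          omega
        · exact h0
      refine ⟨c, r s - 1, by rw [hc]; ring, hc1, by omega, ?_⟩
      have h3 : r s - 1 + 1 = r s := by omega
      rw [h3]
      have h4 := her s
      rw [h2] at h4
      by_contra hcon
      push Not at hcon
      have h5 : (β * r s + 1) * B ≤ c * B := Nat.mul_le_mul_right _ hcon
      have h6 : (β * r s + 1) * B = r s * β ^ 2 + β * r s + B := by rw [hBdef]; ring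
      omega
    | succ T hT ih =>
      intro hTN
      obtain ⟨c, x, h1, h2, h3, h4⟩ := ih (by omega)
      obtain ⟨c', hc'⟩ := hdvd (T + 1) hTN
      have hI : Ico s (T + 1) = insert T (Ico s T) := by
        ext i
        simp only [mem_Ico, mem_insert]
        omega
      have hTn : T ∉ Ico s T := by simp
      rw [hI, sum_insert hTn] at hc'
      rw [hI, sum_insert hTn, sum_insert hTn]
      rw [h1] at hc'
      have h5 : e T + c = c' * B := by
        have : (e T + c) * B ^ T = c' * B * B ^ T := by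
          rw [add_mul, hc', pow_succ]; ring
        exact Nat.eq_of_mul_eq_mul_right (by positivity) this
      have hc1 : 1 ≤ c' := by
        rcases Nat.eq_zero_or_pos c' with h0 | h0
        · rw [h0, zero_mul] at h5
          omega
        · exact h0
      rcases Nat.eq_zero_or_pos (r T) with hr | hr
      · have he : e T = 0 := by
          have := her T
          rw [hr, zero_mul] at this
          omega
        rw [he, zero_add] at h5
        have hx : 1 ≤ x := by
          by_contra hcon
          have hx0 : x = 0 := by omega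
          rw [hx0] at h4
          have : B ≤ c' * B := Nat.le_mul_of_pos_left _ hc1
          omega
        obtain ⟨x', rfl⟩ : ∃ x', x = x' + 1 := ⟨x - 1, by omega⟩
        refine ⟨c', x', by rw [h1, hc']; ring, hc1, by rw [hr]; omega, ?_⟩
        by_contra hcon
        push Not at hcon
        have h6 : (β * (x' + 1) + 1) * B ≤ c' * B := Nat.mul_le_mul_right _ hcon
        have h7 : β * (x' + 1 + 1) + 1 ≤ (β * (x' + 1) + 1) * B := by
          have h8 : β * (x' + 1) ≤ β * (β * (x' + 1)) := Nat.le_mul_of_pos_left _ hβ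
          rw [hBdef]
          nlinarith
        omega
      · obtain ⟨ρ, hρ⟩ : ∃ ρ, r T = ρ + 1 := ⟨r T - 1, by omega⟩
        refine ⟨c', x + ρ, by rw [h1, hc']; ring, hc1, by rw [hρ]; omega, ?_⟩
        have h8 := her T
        rw [hρ] at h8
        by_contra hcon
        push Not at hcon
        have h6 : (β * (x + ρ + 1) + 1) * B ≤ c' * B := Nat.mul_le_mul_right _ hcon
        have h7 : (β * (x + ρ + 1) + 1) * B = (ρ + 1) * β ^ 2 + β * (x + 1) +
            (β ^ 2 * x + β * ρ + B) := by
          rw [hBdef]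
          ring
        omega
  obtain ⟨c, x, _, _, h3, _⟩ := key N hsN le_rfl
  omega

/-- coefficients of the product -/
def cf (f g : ℕ → ℕ) (l : ℕ) : ℕ := ∑ k ∈ range (l + 1), f k * g (l - k)

lemma cf_sum (B a b T : ℕ) :
    ∑ l ∈ range T, cf (dg B a) (dg B b) l * B ^ l ≡ a * b [MOD B ^ T] := by
  have h1 : ∑ l ∈ range T, cf (dg B a) (dg B b) l * B ^ l =
      ∑ m ∈ range T, dg B a m * B ^ m * (b % B ^ (T - m)) := by
    have e1 : ∀ l ∈ range T, cf (dg B a) (dg B b) l * B ^ l =
        ∑ k ∈ range (l + 1), (fun i j => dg B a i * B ^ i * (dg B b j * B ^ j)) k (l - k) := by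
      intro l _
      unfold cf
      rw [sum_mul]
      apply sum_congr rfl
      intro k hk
      rw [mem_range] at hk
      have : B ^ l = B ^ k * B ^ (l - k) := by
        rw [← pow_add]; congr 1; omega
      rw [this]
      ring
    rw [sum_congr rfl e1]
    refine (sum_range_diag_flip T (fun i j => dg B a i * B ^ i * (dg B b j * B ^ j))).trans ?_
    apply sum_congr rfl
    intro m _
    rw [← sum_dg, mul_sum]
  rw [h1]
  have h2 : ∀ m ∈ range T, dg B a m * B ^ m * (b % B ^ (T - m)) ≡ dg B a m * B ^ m * b [MOD B ^ T] := by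
    intro m hm
    rw [mem_range] at hm
    have e2 : B ^ T = B ^ m * B ^ (T - m) := by
      rw [← pow_add]; congr 1; omega
    rw [e2, mul_assoc, mul_assoc]
    apply Nat.ModEq.mul_left
    apply Nat.ModEq.mul_left'
    exact Nat.mod_modEq _ _
  have h3 : ∑ m ∈ range T, dg B a m * B ^ m * (b % B ^ (T - m)) ≡
      ∑ m ∈ range T, dg B a m * B ^ m * b [MOD B ^ T] := by
    clear h1
    have : ∀ S : Finset ℕ, S ⊆ range T → ∑ m ∈ S, dg B a m * B ^ m * (b % B ^ (T - m)) ≡
        ∑ m ∈ S, dg B a m * B ^ m * b [MOD B ^ T] := by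
      intro S
      induction S using Finset.induction_on with
      | empty => intro _; rfl
      | insert m S hm ih =>
        intro hS
        rw [sum_insert hm, sum_insert hm]
        exact (h2 m (hS (mem_insert_self _ _))).add (ih fun i hi => hS (mem_insert_of_mem hi))
    exact this _ Subset.rfl
  refine h3.trans ?_
  rw [← sum_mul, sum_dg]
  exact (Nat.mod_modEq _ _).mul_right _

/-- The number of pairs of nonzero digits. -/
lemma digits_pair (B N a b s : ℕ) (hB : 2 ≤ B) (hab : a * b = B ^ N + 1) (ha : 1 < a) (hb : 1 < b)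
    (hs1 : 1 ≤ s) (hsN : s < N) (ha1 : dg B a 0 = 1) (hb1 : dg B b 0 = 1) (hs : dg B a s ≠ 0) :
    N + 1 ≤ s + nz B a * nz B b := by
  classical
  have haN : a < B ^ N := by nlinarith
  have hbN : b < B ^ N := by nlinarith
  set e := cf (dg B a) (dg B b) with he
  set r := cf (ch B a) (ch B b) with hr
  have he_0 : e 0 = 1 := by simp [he, cf, ha1, hb1]
  have hr_0 : r 0 = 1 := by simp [hr, cf, ch, ha1, hb1]
  have her : ∀ l, e l ≤ r l * (B - 1) ^ 2 := by
    intro l
    rw [he, hr]
    unfold cf
    rw [sum_mul]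
    apply sum_le_sum
    intro k _
    have h1 := dg_lt hB a k
    have h2 := dg_lt hB b (l - k)
    unfold ch
    split_ifs with h3 h4 h4
    · rw [one_mul, one_mul, sq]
      exact Nat.mul_le_mul (by omega) (by omega)
    · push Not at h4
      rw [h4]
      simp
    · push Not at h3
      rw [h3]
      simp
    · push Not at h3
      rw [h3]
      simp
  -- the least place
  have hes : e s ≠ 0 := by
    rw [he]
    unfold cf
    intro h
    rw [sum_eq_zero_iff] at h
    have h1 := h s (by simp)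
    rw [Nat.sub_self, hb1, mul_one] at h1
    exact hs h1
  have hex : ∃ l, 1 ≤ l ∧ e l ≠ 0 := ⟨s, hs1, hes⟩
  set s' := Nat.find hex with hs'
  obtain ⟨hs'1, hs'e⟩ := Nat.find_spec hex
  rw [← hs'] at hs'1 hs'e
  have hs's : s' ≤ s := Nat.find_min' hex ⟨hs1, hes⟩
  have hbelow : ∀ l, 1 ≤ l → l < s' → e l = 0 := by
    intro l h1 h2
    by_contra h3
    exact absurd (Nat.find_min' hex ⟨h1, h3⟩) (by omega)
  have hcut : ∀ T, s' ≤ T → ∑ l ∈ range T, e l * B ^ l = 1 + ∑ l ∈ Ico s' T, e l * B ^ l := by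
    intro T hT
    rw [range_eq_Ico, ← sum_Ico_consecutive _ (Nat.zero_le s') hT]
    congr 1
    rw [← range_eq_Ico]
    rw [sum_eq_single 0]
    · simp [he_0]
    · intro l hl h0
      rw [mem_range] at hl
      rw [hbelow l (by omega) hl, zero_mul]
    · intro h
      exact absurd (mem_range.mpr (by omega)) h
  have hdvd : ∀ T ≤ N, B ^ T ∣ ∑ l ∈ Ico s' T, e l * B ^ l := by
    intro T hT
    rcases Nat.lt_or_ge T s' with h0 | h0
    · rw [Ico_eq_empty (by omega), sum_empty]
      exact dvd_zero _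
    · have h1 := cf_sum B a b T
      rw [← he, hcut T h0, hab] at h1
      have h2 : B ^ N + 1 ≡ 1 + 0 [MOD B ^ T] := by
        rw [add_comm]
        apply Nat.ModEq.add_left
        exact (Nat.modEq_zero_iff_dvd).mpr (pow_dvd_pow B hT)
      have h3 := Nat.ModEq.add_left_cancel' 1 (h1.trans h2)
      exact (Nat.modEq_zero_iff_dvd).mp h3
  have hmain := carry B N s' hB e r (by omega) hdvd her hs'e
  -- counting
  have hcount : ∑ l ∈ range N, r l ≤ nz B a * nz B b := by
    rw [hr]
    unfold cf
    have := sum_range_diag_flip N (fun i j => ch B a i * ch B b j)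
    rw [this, ← nz_eq hB N a haN, ← nz_eq hB N b hbN, sum_mul]
    apply sum_le_sum
    intro m _
    rw [← mul_sum]
    apply Nat.mul_le_mul_left
    apply sum_le_sum_of_subset
    intro k hk
    rw [mem_range] at hk ⊢
    omega
  have hsplit : 1 + ∑ l ∈ Ico s' N, r l ≤ ∑ l ∈ range N, r l := by
    rw [range_eq_Ico, ← sum_Ico_consecutive _ (Nat.zero_le s') (by omega : s' ≤ N)]
    apply Nat.add_le_add_right
    rw [← range_eq_Ico]
    calc 1 = r 0 := hr_0.symm
      _ ≤ ∑ l ∈ range s', r l := single_le_sum (f := r) (fun _ _ => Nat.zero_le _)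
          (mem_range.mpr (by omega))
  omega

/-- The factorisations of `n ^ n + 1`. -/
theorem nn_digits (k n a b : ℕ) (hk : 1 ≤ k) (hn : n = 2 ^ 2 ^ k) (hab : a * b = n ^ n + 1)
    (ha : 1 < a) (hb : 1 < b) : 3 * n + 8 ≤ 4 * (nz n a * nz n b) := by
  set h := 2 ^ k with hh
  set m := k + h with hm
  have hh2 : 2 ≤ h := by
    rw [hh]
    calc 2 = 2 ^ 1 := by norm_num
      _ ≤ 2 ^ k := Nat.pow_le_pow_right (by norm_num) hk
  have hm2 : 2 ≤ m := by omega
  have hN : 2 ^ m = h * n := by rw [hm, pow_add, ← hh, ← hn]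
  have hF : Nat.fermatNumber m = n ^ n + 1 := by
    rw [fermat_eq, hN, pow_mul, ← hn]
  have hn4 : 4 ∣ n := by
    rw [hn]
    exact pow_dvd_pow 2 hh2
  obtain ⟨n', hn'⟩ := hn4
  have hnpos : 0 < n := by rw [hn]; positivity
  obtain ⟨v, j, l, c, hj, hl, _, hj3, hl3, hv1, h2v, ha', hb', h3, h4⟩ :=
    split m a b (hab.trans hF.symm) ha hb
  have hq := quarter m v j l c hm2 hj hl hj3 hl3 h2v h3 h4
  -- `v ≥ m + 2`
  have hmod := modEq_one_of_dvd m a hm2 ⟨b, by rw [hF, hab]⟩
  have hvm : m + 2 ≤ v := by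
    have h5 : 2 ^ (m + 2) ∣ a - 1 := (Nat.modEq_iff_dvd' (by omega)).mp hmod.symm
    have h6 : a - 1 = 2 ^ v * j := by omega
    rw [h6] at h5
    by_contra hlt2
    push Not at hlt2
    obtain ⟨t, ht⟩ : ∃ t, m + 2 = v + (t + 1) := ⟨m + 2 - v - 1, by omega⟩
    rw [ht, pow_add] at h5
    have h7 := Nat.dvd_of_mul_dvd_mul_left (by positivity) h5
    rw [pow_succ] at h7
    have h8 : 2 ∣ j := (Dvd.intro_left _ rfl).trans h7
    obtain ⟨i, hi⟩ := hj
    omega
  have hq' : v < h * n' := by
    have h5 : 4 * 2 ^ (m - 2) = 2 ^ m := by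
      have : (4 : ℕ) = 2 ^ 2 := by norm_num
      rw [this, ← pow_add]; congr 1; omega
    rw [hN, hn'] at h5
    have h6 : 2 ^ (m - 2) = h * n' := by nlinarith
    rwa [h6] at hq
  have hnB : n = 2 ^ h := by rw [hn]
  set s := v / h with hs
  have hs1 : 1 ≤ s := by
    rw [hs]
    exact (Nat.one_le_div_iff (by omega)).mpr (by omega)
  have hsn : s < n' := by
    rw [hs]
    exact Nat.div_lt_of_lt_mul hq'
  have hn2 : 2 ≤ n := by omega
  -- the digits
  have hd0 : ∀ w i : ℕ, dg n (1 + 2 ^ v * w) 0 = 1 := by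
    intro w i
    unfold dg
    rw [pow_zero, Nat.div_one]
    have h5 : n ∣ 2 ^ v * w := by
      apply Dvd.dvd.mul_right
      rw [hnB]
      exact pow_dvd_pow 2 (by omega)
    obtain ⟨t, ht⟩ := h5
    rw [ht, Nat.add_mul_mod_self_left]
    exact Nat.mod_eq_of_lt (by omega)
  have hds : dg n a s ≠ 0 := by
    unfold dg
    have h5 := Nat.div_add_mod v h
    rw [← hs] at h5
    have h6 := Nat.mod_lt v (show h > 0 by omega)
    set t := v % h with ht
    have h7 : n ^ s = 2 ^ (h * s) := by rw [hnB, ← pow_mul]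
    have h8 : a = 1 + n ^ s * (2 ^ t * j) := by
      rw [ha', h7, ← mul_assoc, ← pow_add, h5]
    have h9 : 2 ≤ n ^ s := by
      calc 2 ≤ n := hn2
        _ = n ^ 1 := (pow_one n).symm
        _ ≤ n ^ s := Nat.pow_le_pow_right (by omega) hs1
    have h10 : a / n ^ s = 2 ^ t * j := by
      rw [h8, Nat.add_mul_div_left _ _ (by omega), Nat.div_eq_of_lt (by omega), zero_add]
    rw [h10]
    intro h11
    have h12 : n ∣ 2 ^ t * j := Nat.dvd_of_mod_eq_zero h11
    have h13 : 2 ^ (t + 1) ∣ 2 ^ t * j := by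
      refine Dvd.dvd.trans ?_ h12
      rw [hnB]
      exact pow_dvd_pow 2 (by omega)
    rw [pow_succ] at h13
    have h14 := Nat.dvd_of_mul_dvd_mul_left (by positivity) h13
    obtain ⟨i, hi⟩ := hj
    omega
  have hmain := digits_pair n n a b s hn2 hab ha hb hs1 (by omega) (by rw [ha']; exact hd0 j 0)
    (by rw [hb']; exact hd0 l 0) hds
  omega

end Pool.Agent.R496
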