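import Pool.Agent.R496.Quarter3

/-! Divisors `k 2 ^ n + 1` of Fermat numbers: the exponent `n` is small compared with `k`. -/

set_option autoImplicit false

namespace Pool.Agent.R496


/-- If `k 2 ^ n + 1` divides `F_m`, where `k ≥ 3` is odd and `n ≥ 1`, then
`k ^ (⌊2 ^ m / n⌋ - 1) > (5 / 6) 2 ^ n`. -/
lemma proth_div (m n k : ℕ) (hk : Odd k) (hk3 : 3 ≤ k) (hn : 1 ≤ n)
    (h : 2 ^ n * k + 1 ∣ Nat.fermatNumber m) :
    5 * 2 ^ n < 6 * k ^ (2 ^ m / n - 1) ∧ n ≤ 2 ^ m := by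
  have hF := fermat_eq m
  rw [hF] at h
  have hle := Nat.le_of_dvd (by positivity) h
  have hnN : n ≤ 2 ^ m := by
    by_contra hc
    push Not at hc
    have h1 : 2 ^ 2 ^ m < 2 ^ n := Nat.pow_lt_pow_right (by norm_num) hc
    have h2 : 2 ^ n ≤ 2 ^ n * k := Nat.le_mul_of_pos_right _ (by omega)
    omega
  refine ⟨?_, hnN⟩
  set N := 2 ^ m with hN
  have hdiv := Nat.div_add_mod N n
  have hq1 : 1 ≤ N / n := (Nat.one_le_div_iff (by omega)).mpr hnN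
  set q := N / n with hq
  set r := N % n with hr
  have hrn : r < n := Nat.mod_lt _ (by omega)
  -- the congruence
  have h1 : ((2 : ℤ) ^ n * k + 1) ∣ (k : ℤ) ^ q + (-1) ^ q * 2 ^ r := by
    have h2 : ((2 : ℤ) ^ n * k + 1) ∣ 2 ^ N + 1 := by exact_mod_cast h
    have h3 : ((2 : ℤ) ^ n * k) ^ q ≡ (-1) ^ q [ZMOD (2 ^ n * k + 1)] := by
      apply Int.ModEq.pow
      rw [Int.modEq_iff_dvd]
      exact ⟨-1, by ring⟩
    have h4 : ((2 : ℤ) ^ n * k + 1) ∣ (-1) ^ q * 2 ^ r - ((2 : ℤ) ^ n * k) ^ q * 2 ^ r := by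
      have := (Int.modEq_iff_dvd.mp (h3.mul_right (2 ^ r)))
      exact this
    have h5 : (k : ℤ) ^ q + (-1) ^ q * 2 ^ r =
        k ^ q * (2 ^ N + 1) + ((-1) ^ q * 2 ^ r - ((2 : ℤ) ^ n * k) ^ q * 2 ^ r) := by
      rw [← hdiv, pow_add, pow_mul]
      ring
    rw [h5]
    exact dvd_add (h2.mul_left _) h4
  have hk0 : (3 : ℤ) ≤ k := by exact_mod_cast hk3
  have h2r : (2 : ℤ) * 2 ^ r ≤ 2 ^ n := by
    rw [← pow_succ']
    exact pow_le_pow_right₀ (by norm_num) (by omega)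
  have h2r1 : (1 : ℤ) ≤ 2 ^ r := one_le_pow₀ (by norm_num)
  have hkq : (k : ℤ) ^ q = k * k ^ (q - 1) := by
    rw [← pow_succ']
    congr 1
    omega
  have hkq3 : (3 : ℤ) ≤ k ^ q := by
    rw [hkq]
    have : (1 : ℤ) ≤ k ^ (q - 1) := one_le_pow₀ (by linarith)
    nlinarith
  have hgoal : (5 * 2 ^ n : ℤ) < 6 * k ^ (q - 1) → 5 * 2 ^ n < 6 * k ^ (q - 1) := by
    intro h6
    exact_mod_cast h6
  apply hgoal
  have hT : (0 : ℤ) < 2 ^ n := by positivity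
  rcases Nat.even_or_odd q with he | ho
  · rw [he.neg_one_pow, one_mul] at h1
    have h6 := Int.le_of_dvd (by linarith) h1
    rw [hkq] at h6
    -- k * k^(q-1) + 2^r ≥ 2^n k + 1
    by_contra hc
    push Not at hc
    nlinarith
  · rw [ho.neg_one_pow] at h1
    have hodd : Odd (k ^ q) := hk.pow
    rcases lt_trichotomy ((k : ℤ) ^ q + -1 * 2 ^ r) 0 with h6 | h6 | h6
    · exfalso
      have h7 : ((2 : ℤ) ^ n * k + 1) ∣ -((k : ℤ) ^ q + -1 * 2 ^ r) := dvd_neg.mpr h1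
      have h8 := Int.le_of_dvd (by linarith) h7
      nlinarith
    · exfalso
      have h7 : (k : ℤ) ^ q = 2 ^ r := by linarith
      have h8 : k ^ q = 2 ^ r := by exact_mod_cast h7
      rw [h8] at hodd
      rcases Nat.eq_zero_or_pos r with hr0 | hr0
      · rw [hr0, pow_zero] at h7
        linarith
      · exact (Nat.not_even_iff_odd.mpr hodd) ((even_two).pow_of_ne_zero (by omega))
    · have h8 := Int.le_of_dvd h6 h1
      rw [hkq] at h8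
      by_contra hc
      push Not at hc
      nlinarith

/-- If `k 2 ^ n + 1` divides `F_m`, where `k ≥ 3` is odd and `n ≥ 1`, then
`2 ^ (n ^ 2) < k ^ (2 ^ m)`. -/
lemma proth_sq (m n k : ℕ) (hk : Odd k) (hk3 : 3 ≤ k) (hn : 1 ≤ n)
    (h : 2 ^ n * k + 1 ∣ Nat.fermatNumber m) : 2 ^ n ^ 2 < k ^ 2 ^ m := by
  obtain ⟨h1, h2⟩ := proth_div m n k hk hk3 hn h
  have h3 : (5 * 2 ^ n) ^ n < (6 * k ^ (2 ^ m / n - 1)) ^ n := Nat.pow_lt_pow_left h1 (by omega)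
  have hq1 : 1 ≤ 2 ^ m / n := (Nat.one_le_div_iff (by omega)).mpr h2
  have h4 : (2 ^ m / n - 1) * n ≤ 2 ^ m - n := by
    have := Nat.div_mul_le_self (2 ^ m) n
    rw [Nat.sub_mul, one_mul]
    omega
  have h5 : (6 * k ^ (2 ^ m / n - 1)) ^ n ≤ 5 ^ n * k ^ 2 ^ m := by
    calc (6 * k ^ (2 ^ m / n - 1)) ^ n = 6 ^ n * k ^ ((2 ^ m / n - 1) * n) := by
          rw [mul_pow, ← pow_mul]
      _ ≤ (5 * k) ^ n * k ^ (2 ^ m - n) := by
          apply Nat.mul_le_mul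
          · exact Nat.pow_le_pow_left (by omega) n
          · exact Nat.pow_le_pow_right (by omega) h4
      _ = 5 ^ n * (k ^ n * k ^ (2 ^ m - n)) := by rw [mul_pow]; ring
      _ = 5 ^ n * k ^ 2 ^ m := by
          rw [← pow_add]; congr 2; omega
  have h6 : 5 ^ n * 2 ^ n ^ 2 < 5 ^ n * k ^ 2 ^ m := by
    calc 5 ^ n * 2 ^ n ^ 2 = (5 * 2 ^ n) ^ n := by rw [mul_pow, ← pow_mul, sq]
      _ < _ := h3
      _ ≤ _ := h5
  exact Nat.lt_of_mul_lt_mul_left h6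

end Pool.Agent.R496
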