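import Pool.Agent.R496.Gap1

/-! The odd part of Euler's function at a Fermat number. -/

set_option autoImplicit false

namespace Pool.Agent.R496

/-- the odd part of `p - 1` -/
def kk (p : ℕ) : ℕ := ordCompl[2] (p - 1)

/-- the exponent of two in `p - 1` -/
def ee (p : ℕ) : ℕ := (p - 1).factorization 2

lemma kk_pow (n j : ℕ) (hj : Odd j) : ordCompl[2] (2 ^ n * j) = j :=
  Nat.ordCompl_pow_mul_of_not_dvd n Nat.prime_two fun h =>
    (Nat.not_even_iff_odd.mpr hj) (even_iff_two_dvd.mpr h)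

lemma ee_pow (n j : ℕ) (hj : Odd j) : (2 ^ n * j).factorization 2 = n := by
  rw [Nat.factorization_mul (by positivity) hj.pos.ne', Nat.factorization_pow]
  have h1 : j.factorization 2 = 0 := Nat.factorization_eq_zero_of_not_dvd fun h =>
    (Nat.not_even_iff_odd.mpr hj) (even_iff_two_dvd.mpr h)
  simp [Nat.prime_two.factorization_self, h1]

lemma prod_kk_le (L : List ℕ) (hL : ∀ p ∈ L, p.Prime ∧ Odd p) :
    (L.map kk).prod ≤ ordCompl[2] (Nat.totient L.prod) := by
  induction L with
  | nil => simp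
  | cons p L ih =>
    have hp := hL p (by simp)
    have ih' := ih fun q hq => hL q (by simp [hq])
    rw [List.map_cons, List.prod_cons, List.prod_cons]
    by_cases hd : p ∣ L.prod
    · rw [Nat.totient_mul_of_prime_of_dvd hp.1 hd, Nat.ordCompl_mul]
      apply Nat.mul_le_mul _ ih'
      have h1 : ordCompl[2] p = p := by
        have := kk_pow 0 p hp.2
        simpa using this
      rw [h1]
      exact (Nat.ordCompl_le _ _).trans (Nat.sub_le _ _)
    · rw [Nat.totient_mul_of_prime_of_not_dvd hp.1 hd, Nat.ordCompl_mul]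
      exact Nat.mul_le_mul le_rfl ih'

/-- The properties of the prime factors of a composite Fermat number. -/
lemma prime_data (m : ℕ) (hm : 2 ≤ m) (hF : ¬ (Nat.fermatNumber m).Prime) (p : ℕ) (hp : p.Prime)
    (hpF : p ∣ Nat.fermatNumber m) :
    p = 2 ^ ee p * kk p + 1 ∧ 3 ≤ kk p ∧ 1 ≤ ee p ∧ 4 * ee p < 2 ^ m ∧
      5 * 2 ^ ee p < 6 * kk p ^ (2 ^ m / ee p - 1) ∧ 2 ^ (m + 2) + 1 ≤ p ∧ Odd p := by
  obtain ⟨b, hb⟩ := hpF
  have hb1 : 1 < b := by
    by_contra hc
    have : b = 0 ∨ b = 1 := by omega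
    rcases this with h | h
    · rw [h, mul_zero] at hb
      exact absurd hb (Nat.fermatNumber_ne_one m |> fun _ => by
        have := Nat.three_le_fermatNumber m
        intro h0
        rw [h0] at this
        exact absurd this (by norm_num))
    · rw [h, mul_one] at hb
      rw [hb] at hF
      exact hF hp
  obtain ⟨n, j, l, c, hj, hl, _, hj3, hl3, hn1, h2n, ha, _, h3, h4⟩ :=
    split m p b hb.symm hp.one_lt hb1
  have hq := quarter m n j l c hm hj hl hj3 hl3 h2n h3 h4
  have h5 : p - 1 = 2 ^ n * j := by omega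
  have hk : kk p = j := by rw [kk, h5, kk_pow n j hj]
  have he : ee p = n := by rw [ee, h5, ee_pow n j hj]
  rw [hk, he]
  have hd : 2 ^ n * j + 1 ∣ Nat.fermatNumber m := ⟨b, by rw [hb, ha]; ring⟩
  have h6 := (proth_div m n j hj hj3 hn1 hd).1
  have hm4 : 2 ^ m = 4 * 2 ^ (m - 2) := by
    have : (4 : ℕ) = 2 ^ 2 := by norm_num
    rw [this, ← pow_add]; congr 1; omega
  have h7 : 2 ^ (m + 2) + 1 ≤ p := by
    obtain ⟨k, hk⟩ := Nat.fermat_primeFactors_one_lt m p (by omega) hp ⟨b, hb⟩
    have hk0 : 0 < k := by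
      rcases Nat.eq_zero_or_pos k with h | h
      · rw [h, zero_mul, zero_add] at hk
        exact absurd hk hp.one_lt.ne'
      · exact h
    rw [hk]
    have := Nat.le_mul_of_pos_left (2 ^ (m + 2)) hk0
    omega
  refine ⟨by omega, hj3, hn1, by omega, h6, h7, ?_⟩
  rw [ha]
  have : Even (2 ^ n * j) := ((even_two).pow_of_ne_zero (by omega)).mul_right j
  rw [add_comm]
  exact this.add_one

lemma sum_lin (L : List ℕ) (f g : ℕ → ℝ) (a b c : ℝ) :
    (L.map (fun p => a * f p + b * g p + c)).sum =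
      a * (L.map f).sum + b * (L.map g).sum + c * L.length := by
  induction L with
  | nil => simp
  | cons p L ih =>
    rw [List.map_cons, List.sum_cons, ih, List.map_cons, List.sum_cons, List.map_cons,
      List.sum_cons, List.length_cons]
    push_cast
    ring

lemma per_prime (N n κ R : ℝ) (hN : 0 < N) (hn : 0 < n) (hn4 : 4 * n ≤ N)
    (h : n ^ 2 - n / 3 ≤ κ * (N - n)) :
    (2 * R + 1) * n - N - 4 / 9 * R ^ 2 * (n / N) ≤ R ^ 2 * κ := by
  have h0 : 0 < N - n := by linarith
  have h1 : ((2 * R + 1) * n - N - 4 / 9 * R ^ 2 * (n / N)) * (N - n) ≤ R ^ 2 * κ * (N - n) := by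
    have h2 : R ^ 2 * (n ^ 2 - n / 3) ≤ R ^ 2 * (κ * (N - n)) :=
      mul_le_mul_of_nonneg_left h (by positivity)
    have h3 : ((2 * R + 1) * n - N) * (N - n) ≤ R ^ 2 * n ^ 2 := by
      nlinarith [sq_nonneg ((R + 1) * n - N)]
    have h4 : n / 3 ≤ 4 / 9 * (n / N) * (N - n) := by
      have e : 4 / 9 * (n / N) * (N - n) = 4 / 9 * n * (1 - n / N) := by
        field_simp
      rw [e]
      have h5 : n / N ≤ 1 / 4 := by
        rw [div_le_div_iff₀ hN (by norm_num)]
        linarith
      nlinarith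
    have h5 : R ^ 2 * (n / 3) ≤ R ^ 2 * (4 / 9 * (n / N) * (N - n)) :=
      mul_le_mul_of_nonneg_left h4 (by positivity)
    nlinarith
  exact le_of_mul_le_mul_right h1 h0

end Pool.Agent.R496
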