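import Pool.Agent.R496.Gap2

/-! The odd part of Euler's function at a composite Fermat number. -/

set_option autoImplicit false

namespace Pool.Agent.R496

lemma logb_six_fifths : Real.logb 2 6 - Real.logb 2 5 ≤ 1 / 3 := by
  rw [← Real.logb_div (by norm_num) (by norm_num)]
  rw [Real.logb_le_iff_le_rpow (by norm_num) (by norm_num)]
  have h1 : ((6 / 5 : ℝ)) ^ 3 ≤ 2 := by norm_num
  have h2 : (6 / 5 : ℝ) = ((6 / 5 : ℝ) ^ (3 : ℕ)) ^ (1 / 3 : ℝ) := by
    rw [← Real.rpow_natCast, ← Real.rpow_mul (by norm_num)]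
    norm_num
  rw [h2]
  exact Real.rpow_le_rpow (by norm_num) h1 (by norm_num)

lemma logb_one_add (x : ℝ) (hx : 0 ≤ x) : Real.logb 2 (1 + x) ≤ 1.45 * x := by
  have h1 : Real.log (1 + x) ≤ x := by
    have := Real.log_le_sub_one_of_pos (show 0 < 1 + x by linarith)
    linarith
  have h2 : (0.6931471803 : ℝ) < Real.log 2 := Real.log_two_gt_d9
  rw [Real.logb, div_le_iff₀ (by linarith)]
  nlinarith

lemma data_real (m : ℕ) (hm : 2 ≤ m) (hF : ¬ (Nat.fermatNumber m).Prime) (p : ℕ) (hp : p.Prime)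
    (hpF : p ∣ Nat.fermatNumber m) :
    ((ee p : ℝ) ^ 2 - (ee p : ℝ) / 3 ≤ Real.logb 2 (kk p) * ((2 : ℝ) ^ m - ee p)) ∧
    Real.logb 2 p ≤ ee p + Real.logb 2 (kk p) + 1.45 / 2 ^ (m + 2) ∧
    (3 / 2 : ℝ) ≤ Real.logb 2 (kk p) ∧ (0 : ℝ) < ee p ∧ 4 * (ee p : ℝ) ≤ 2 ^ m := by
  obtain ⟨h1, h2, h3, h4, h5, h6, _⟩ := prime_data m hm hF p hp hpF
  set e := ee p with he
  set k := kk p with hk
  have hk3 : (3 : ℝ) ≤ k := by exact_mod_cast h2
  have hkpos : (0 : ℝ) < k := by linarith
  have he1 : (1 : ℝ) ≤ e := by exact_mod_cast h3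
  have hκ : (3 / 2 : ℝ) ≤ Real.logb 2 k := by
    rw [Real.le_logb_iff_rpow_le (by norm_num) hkpos]
    have h7 : (2 : ℝ) ^ (3 / 2 : ℝ) = ((2 : ℝ) ^ (3 : ℕ)) ^ (1 / 2 : ℝ) := by
      rw [← Real.rpow_natCast, ← Real.rpow_mul (by norm_num)]
      norm_num
    rw [h7]
    have h8 : ((2 : ℝ) ^ (3 : ℕ)) ^ (1 / 2 : ℝ) ≤ ((3 : ℝ) ^ (2 : ℕ)) ^ (1 / 2 : ℝ) :=
      Real.rpow_le_rpow (by norm_num) (by norm_num) (by norm_num)
    have h9 : ((3 : ℝ) ^ (2 : ℕ)) ^ (1 / 2 : ℝ) = 3 := by
      rw [← Real.rpow_natCast, ← Real.rpow_mul (by norm_num)]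
      norm_num
    linarith
  have h4' : 4 * (e : ℝ) ≤ 2 ^ m := by exact_mod_cast h4.le
  refine ⟨?_, ?_, hκ, by linarith, h4'⟩
  · -- the exponent
    set q := 2 ^ m / e with hq
    have h5' : (5 * 2 ^ e : ℝ) < 6 * (k : ℝ) ^ (q - 1) := by exact_mod_cast h5
    have h7 : Real.logb 2 (5 * 2 ^ e : ℝ) < Real.logb 2 (6 * (k : ℝ) ^ (q - 1)) :=
      Real.logb_lt_logb (by norm_num) (by positivity) h5'
    rw [Real.logb_mul (by norm_num) (by positivity), Real.logb_mul (by norm_num) (by positivity),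
      Real.logb_pow, Real.logb_pow, Real.logb_self_eq_one (by norm_num), mul_one] at h7
    have h8 := logb_six_fifths
    have h9 : (((q - 1 : ℕ) : ℝ)) * e ≤ 2 ^ m - e := by
      have h10 : (q - 1) * e ≤ 2 ^ m - e := by
        have : q * e ≤ 2 ^ m := Nat.div_mul_le_self (2 ^ m) e
        rw [Nat.sub_mul, one_mul]
        exact Nat.sub_le_sub_right this e
      have h11 : ((2 ^ m - e : ℕ) : ℝ) = 2 ^ m - e := by
        rw [Nat.cast_sub (by omega)]
        push_cast
        ring
      rw [← h11]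
      exact_mod_cast h10
    have h10 : (e : ℝ) - 1 / 3 ≤ ((q - 1 : ℕ) : ℝ) * Real.logb 2 k := by linarith
    have h11 : (e : ℝ) * (e - 1 / 3) ≤ e * (((q - 1 : ℕ) : ℝ) * Real.logb 2 k) :=
      mul_le_mul_of_nonneg_left h10 (by linarith)
    have h12 : Real.logb 2 k * (((q - 1 : ℕ) : ℝ) * e) ≤ Real.logb 2 k * (2 ^ m - e) :=
      mul_le_mul_of_nonneg_left h9 (by linarith)
    nlinarith
  · -- the size
    have h7 : (p : ℝ) = (2 ^ e * k) * (1 + 1 / (2 ^ e * k)) := by
      have : (p : ℝ) = 2 ^ e * k + 1 := by exact_mod_cast h1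
      rw [this]
      field_simp
    have h8 : Real.logb 2 p = e + Real.logb 2 k + Real.logb 2 (1 + 1 / (2 ^ e * k)) := by
      rw [h7, Real.logb_mul (by positivity) (by positivity), Real.logb_mul (by positivity)
        (by positivity), Real.logb_pow, Real.logb_self_eq_one (by norm_num), mul_one]
    have h9 : (2 : ℝ) ^ (m + 2) ≤ 2 ^ e * k := by
      have h10 : 2 ^ (m + 2) ≤ 2 ^ e * k := by omega
      exact_mod_cast h10
    have h10 := logb_one_add (1 / (2 ^ e * (k : ℝ))) (by positivity)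
    have h11 : 1 / (2 ^ e * (k : ℝ)) ≤ 1 / 2 ^ (m + 2) :=
      one_div_le_one_div_of_le (by positivity) h9
    have h12 : (1.45 : ℝ) / 2 ^ (m + 2) = 1.45 * (1 / 2 ^ (m + 2)) := by ring
    rw [h8, h12]
    linarith

lemma logb_prod (L : List ℕ) (hL : ∀ p ∈ L, p ≠ 0) :
    Real.logb 2 (L.prod : ℕ) = (L.map (fun p : ℕ => Real.logb 2 (p : ℝ))).sum := by
  induction L with
  | nil => simp
  | cons p L ih =>
    have hp := hL p (by simp)
    have ih' := ih fun q hq => hL q (by simp [hq])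
    have h0 : L.prod ≠ 0 := by
      intro h
      rw [List.prod_eq_zero_iff] at h
      exact hL 0 (by simp [h]) rfl
    rw [List.prod_cons, List.map_cons, List.sum_cons, ← ih', Nat.cast_mul,
      Real.logb_mul (by exact_mod_cast hp) (by exact_mod_cast h0)]

/-- The main inequality. -/
lemma gap_real (m : ℕ) (hm : 2 ≤ m) (hF : ¬ (Nat.fermatNumber m).Prime) :
    (2 : ℝ) ^ m < ((Nat.fermatNumber m).primeFactorsList.length + 1) *
      (((Nat.fermatNumber m).primeFactorsList.map (fun p => Real.logb 2 (kk p))).sum + 1) := by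
  have hFe := fermat_eq m
  have hF3 := Nat.three_le_fermatNumber m
  set F := Nat.fermatNumber m with hFdef
  set L := F.primeFactorsList with hL
  have hLp : ∀ p ∈ L, p.Prime ∧ p ∣ F := fun p hp =>
    ⟨Nat.prime_of_mem_primeFactorsList hp, Nat.dvd_of_mem_primeFactorsList hp⟩
  have hprod : L.prod = F := Nat.prod_primeFactorsList (by omega)
  set R : ℝ := (L.length : ℝ) with hR
  set N : ℝ := (2 : ℝ) ^ m with hN
  have hNpos : 0 < N := by positivity
  set K := (L.map (fun p => Real.logb 2 (kk p))).sum with hK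
  set S := (L.map (fun p => (ee p : ℝ))).sum with hS
  have hR0 : 0 ≤ R := by positivity
  -- the logarithm of F
  have hlogF : N ≤ Real.logb 2 F := by
    rw [Real.le_logb_iff_rpow_le (by norm_num) (by positivity)]
    have : ((2 : ℝ) ^ N : ℝ) = ((2 ^ 2 ^ m : ℕ) : ℝ) := by
      have e1 : (2 : ℝ) ^ m = ((2 ^ m : ℕ) : ℝ) := by push_cast; rfl
      rw [hN, e1, Real.rpow_natCast]
      push_cast
      rfl
    rw [this]
    exact_mod_cast (by omega : 2 ^ 2 ^ m ≤ F)
  -- S + K + small ≥ N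
  have h1 : N ≤ S + K + 1.45 / 2 ^ (m + 2) * R := by
    have h2 : Real.logb 2 F ≤ (L.map (fun p => 1 * (ee p : ℝ) + 1 * Real.logb 2 (kk p) +
        1.45 / 2 ^ (m + 2))).sum := by
      rw [← hprod, logb_prod L (fun p hp => (hLp p hp).1.ne_zero)]
      apply List.sum_le_sum
      intro p hp
      have := (data_real m hm hF p (hLp p hp).1 (hLp p hp).2).2.1
      linarith
    rw [sum_lin] at h2
    rw [one_mul, one_mul] at h2
    exact hlogF.trans h2
  -- S ≤ N
  have h3 : S ≤ N := by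
    have h4 : (L.map ee).sum ≤ 2 ^ m := by
      by_contra hc
      push Not at hc
      have h5 : 2 ^ (L.map ee).sum ≤ L.prod := by
        have : ∀ L : List ℕ, (∀ p ∈ L, 2 ^ ee p ≤ p) → 2 ^ (L.map ee).sum ≤ L.prod := by
          intro L hL
          induction L with
          | nil => simp
          | cons p L ih =>
            rw [List.map_cons, List.sum_cons, pow_add, List.prod_cons]
            exact Nat.mul_le_mul (hL p (by simp)) (ih fun q hq => hL q (by simp [hq]))
        apply this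
        intro p hp
        have h6 := prime_data m hm hF p (hLp p hp).1 (hLp p hp).2
        have h7 := Nat.le_mul_of_pos_right (2 ^ ee p) (show 0 < kk p by omega)
        omega
      rw [hprod] at h5
      have h6 : 2 ^ (2 ^ m + 1) ≤ 2 ^ (L.map ee).sum := Nat.pow_le_pow_right (by norm_num) hc
      rw [pow_succ] at h6
      have h7 : 2 ≤ 2 ^ 2 ^ m := by
        calc 2 = 2 ^ 1 := by norm_num
          _ ≤ _ := Nat.pow_le_pow_right (by norm_num) Nat.one_le_two_pow
      omega
    have h5 : S = ((L.map ee).sum : ℕ) := by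
      rw [hS]
      have : ∀ L : List ℕ, (L.map (fun p => (ee p : ℝ))).sum = ((L.map ee).sum : ℕ) := by
        intro L
        induction L with
        | nil => simp
        | cons p L ih =>
          rw [List.map_cons, List.sum_cons, List.map_cons, List.sum_cons, ih]
          push_cast
          ring
      exact this L
    rw [h5, hN]
    exact_mod_cast h4
  -- R ≤ S
  have hRS : R ≤ S := by
    have : ∀ L : List ℕ, (∀ p ∈ L, 1 ≤ ee p) → (L.length : ℝ) ≤ (L.map (fun p => (ee p : ℝ))).sum := by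
      intro L hL
      induction L with
      | nil => simp
      | cons p L ih =>
        rw [List.map_cons, List.sum_cons, List.length_cons]
        have h1 := ih fun q hq => hL q (by simp [hq])
        have h2 : (1 : ℝ) ≤ ee p := by exact_mod_cast hL p (by simp)
        push_cast
        linarith
    exact this L fun p hp => (prime_data m hm hF p (hLp p hp).1 (hLp p hp).2).2.2.1
  -- the sum of the inequalities
  have h4 : (2 * R + 1) * S - R * N - 4 / 9 * R ^ 2 * (S / N) ≤ R ^ 2 * K := by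
    have h5 : (L.map (fun p => (2 * R + 1 - 4 / 9 * R ^ 2 / N) * (ee p : ℝ) +
        (- R ^ 2) * Real.logb 2 (kk p) + (- N))).sum ≤ (L.map (fun _ => (0 : ℝ))).sum := by
      apply List.sum_le_sum
      intro p hp
      obtain ⟨d1, _, _, d4, d5⟩ := data_real m hm hF p (hLp p hp).1 (hLp p hp).2
      have := per_prime N (ee p) (Real.logb 2 (kk p)) R hNpos d4 d5 d1
      have e : 4 / 9 * R ^ 2 * ((ee p : ℝ) / N) = 4 / 9 * R ^ 2 / N * ee p := by ring
      rw [e] at this
      linarith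
    rw [sum_lin] at h5
    have h6 : (L.map (fun _ => (0 : ℝ))).sum = 0 := by simp
    rw [h6] at h5
    have e : 4 / 9 * R ^ 2 * (S / N) = 4 / 9 * R ^ 2 / N * S := by ring
    rw [e]
    linarith
  have h5 : S / N ≤ 1 := by rw [div_le_one hNpos]; exact h3
  have h6 : 1.45 / 2 ^ (m + 2) * R ≤ 0.3625 := by
    have h7 : (2 : ℝ) ^ (m + 2) = 4 * N := by rw [pow_add]; norm_num [hN]; ring
    rw [h7, div_mul_eq_mul_div, div_le_iff₀ (by positivity)]
    linarith [hRS.trans h3]
  have h7 : 4 / 9 * R ^ 2 * (S / N) ≤ 4 / 9 * R ^ 2 := by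
    have : 0 ≤ 4 / 9 * R ^ 2 := by positivity
    nlinarith
  have h8 : (2 * R + 1) * (N - K - 0.3625) ≤ (2 * R + 1) * S :=
    mul_le_mul_of_nonneg_left (by linarith) (by linarith)
  have h9 : (R + 1) * N < (R + 1) * ((R + 1) * (K + 1)) := by nlinarith
  exact lt_of_mul_lt_mul_left h9 (by linarith)

end Pool.Agent.R496
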