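import Pool.Agent.R496.Cnt

/-! The least witness of an integer with many prime factors. -/

set_option autoImplicit false

namespace Pool.Agent.R496

open Finset Real

open Pool.Agent.H379R2.W (Passes not_dvd_of_passes)

/-- more than half of the prime factors are small -/
lemma many_small (n k : ℕ) (hn : 2 ≤ n) (hk : 1 ≤ k) (hkn : k ≤ n.primeFactors.card) :
    (k : ℝ) < 2 * ((pfac n ((n : ℝ) ^ (2 / (k : ℝ)))).card : ℝ) := by
  classical
  set z : ℝ := (n : ℝ) ^ (2 / (k : ℝ)) with hz
  have hn1 : (1 : ℝ) < n := by exact_mod_cast (by omega : 1 < n)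
  have hk0 : (0 : ℝ) < k := by exact_mod_cast hk
  have hz1 : 1 < z := one_lt_rpow hn1 (by positivity)
  set G := n.primeFactors.filter (fun p : ℕ => ¬ (p : ℝ) ≤ z) with hG
  have hsum : n.primeFactors.card = (pfac n z).card + G.card := by
    have := Finset.card_filter_add_card_filter_not (s := n.primeFactors) (fun p : ℕ => (p : ℝ) ≤ z)
    rw [← this]
    congr 2
  have hGk : 2 * (G.card : ℝ) < k := by
    by_contra hcon
    push Not at hcon
    have hGne : G.Nonempty := by
      rw [← Finset.card_pos]
      by_contra h0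
      have : G.card = 0 := by omega
      rw [this] at hcon
      simp at hcon
      linarith
    have h1 : ∏ p ∈ G, p ∣ n := by
      refine (Finset.prod_dvd_prod_of_subset _ _ _ (filter_subset _ _)).trans ?_
      exact Nat.prod_primeFactors_dvd n
    have h2 : ((∏ p ∈ G, p : ℕ) : ℝ) ≤ n := by
      exact_mod_cast Nat.le_of_dvd (by omega) h1
    push_cast at h2
    have h3 : z ^ G.card < ∏ p ∈ G, (p : ℝ) := by
      rw [← Finset.prod_const]
      apply Finset.prod_lt_prod_of_nonempty
      · intro p _
        linarith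
      · intro p hp
        rw [hG, mem_filter] at hp
        exact not_le.mp hp.2
      · exact hGne
    have h4 : (n : ℝ) ≤ z ^ G.card := by
      rw [hz, ← rpow_natCast, ← rpow_mul (by positivity)]
      calc (n : ℝ) = (n : ℝ) ^ (1 : ℝ) := (rpow_one _).symm
        _ ≤ (n : ℝ) ^ (2 / (k : ℝ) * (G.card : ℝ)) := by
            apply rpow_le_rpow_of_exponent_le hn1.le
            rw [div_mul_eq_mul_div, le_div_iff₀ hk0]
            linarith
    linarith
  have h5 : (k : ℝ) ≤ (pfac n z).card + G.card := by
    have : k ≤ (pfac n z).card + G.card := by omega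
    exact_mod_cast this
  linarith

/-- `n` is large if it has many prime factors -/
lemma log_ge (n k : ℕ) (hn : 2 ≤ n) (hk : 3 ≤ k) (hkn : k ≤ n.primeFactors.card) :
    (k : ℝ) * log k / 20 ≤ log n := by
  have hk0 : (0 : ℝ) < k := by exact_mod_cast (by omega : 0 < k)
  have hlogk : (1.09 : ℝ) ≤ log k := by
    have h1 : log (3 : ℝ) ≤ log k := log_le_log (by norm_num) (by exact_mod_cast hk)
    have h2 : (1.09 : ℝ) < log 3 := by
      rw [lt_log_iff_exp_lt (by norm_num)]
      have h3 : exp (1.09 : ℝ) = exp 1 * exp (0.09 : ℝ) := by rw [← exp_add]; norm_num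
      have h4 : exp (0.09 : ℝ) ≤ 1.1 := by
        have h5 := exp_bound' (show (0 : ℝ) ≤ 0.09 by norm_num) (by norm_num) (n := 3) (by norm_num)
        norm_num [Finset.sum_range_succ, Nat.factorial] at h5
        linarith
      have h6 := exp_one_lt_d9
      rw [h3]
      have h7 : 0 < exp (0.09 : ℝ) := exp_pos _
      nlinarith
    linarith
  -- k! ≤ n
  have hfac : k.factorial ≤ n := by
    have h1 : ∏ p ∈ n.primeFactors, p ≤ n := Nat.le_of_dvd (by omega) (Nat.prod_primeFactors_dvd n)
    have h2 : n.primeFactors.card.factorial ≤ ∏ p ∈ n.primeFactors, p := by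
      have : ∀ S : Finset ℕ, (∀ p ∈ S, 1 ≤ p) → S.card.factorial ≤ ∏ p ∈ S, p := by
        intro S
        induction S using Finset.induction_on_max with
        | empty => intro _; simp
        | insert a S hS ih =>
          intro h
          have ha : a ∉ S := fun hmem => lt_irrefl _ (hS a hmem)
          rw [card_insert_of_notMem ha, prod_insert ha, Nat.factorial_succ]
          apply Nat.mul_le_mul _ (ih fun p hp => h p (mem_insert_of_mem hp))
          have h3 : S ⊆ Finset.Ico 1 a := by
            intro p hp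
            rw [Finset.mem_Ico]
            exact ⟨h p (mem_insert_of_mem hp), hS p hp⟩
          have h4 := card_le_card h3
          rw [Nat.card_Ico] at h4
          have h5 := h a (mem_insert_self _ _)
          omega
      exact this _ fun p hp => (Nat.prime_of_mem_primeFactors hp).one_lt.le
    exact (Nat.factorial_le hkn).trans (h2.trans h1)
  have h1 := Real.pow_div_factorial_le_exp (k : ℝ) hk0.le k
  have hf0 : (0 : ℝ) < (k.factorial : ℝ) := by positivity
  rw [div_le_iff₀ hf0] at h1
  have h2 : log ((k : ℝ) ^ k) ≤ log (exp (k : ℝ) * k.factorial) := log_le_log (by positivity) h1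
  rw [log_pow, log_mul (exp_pos _).ne' hf0.ne', log_exp] at h2
  have h3 : log (k.factorial : ℝ) ≤ log n := log_le_log hf0 (by exact_mod_cast hfac)
  nlinarith

/-- the least prime factor is not a base that passes -/
lemma least_prime (n : ℕ) (hn : 2 ≤ n) : ¬ Passes n n.minFac := fun h =>
  not_dvd_of_passes hn (Nat.minFac_prime (by omega)) (Nat.minFac_dvd n) h dvd_rfl

theorem many_factors : ∃ C : ℝ, 0 < C ∧ ∀ n k : ℕ, 3 ≤ k → k ≤ n.primeFactors.card →
    ∃ b : ℕ, 1 < b ∧ (b : ℝ) ≤ (n : ℝ) ^ (C * log (log k) / (k * log k)) ∧ ¬ Passes n b := by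
  obtain ⟨C0, hC0, hU⟩ := uniform
  -- the threshold for `x = log k`
  have hev : ∀ᶠ x : ℝ in Filter.atTop, 3 ≤ x ∧ 2 * C0 * log x + log 2 ≤ 3 * x / 4 := by
    have e1 : ∀ᶠ x : ℝ in Filter.atTop, ‖log x‖ ≤ 1 / (8 * C0) * ‖id x‖ :=
      isLittleO_log_id_atTop.def (by positivity)
    filter_upwards [Filter.eventually_ge_atTop 4, e1] with x a1 a2
    refine ⟨by linarith, ?_⟩
    rw [norm_of_nonneg (log_nonneg (by linarith)), id, norm_of_nonneg (by linarith)] at a2
    have h1 : 2 * C0 * log x ≤ 2 * C0 * (1 / (8 * C0) * x) :=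
      mul_le_mul_of_nonneg_left a2 (by positivity)
    have h2 : 2 * C0 * (1 / (8 * C0) * x) = x / 4 := by
      field_simp
      norm_num
    linarith [log_two_lt_d9]
  obtain ⟨x0, hx0⟩ := Filter.eventually_atTop.mp hev
  have hl3 : 1 < log (3 : ℝ) := by
    rw [lt_log_iff_exp_lt (by norm_num)]
    linarith [exp_one_lt_d9]
  have hll3 : 0 < log (log (3 : ℝ)) := log_pos hl3
  set C : ℝ := 32 * C0 + 4 + |x0| / log (log 3) + 30 / log (log 3) with hC
  have hCx : |x0| / log (log 3) ≤ C := by
    have : 0 ≤ 30 / log (log (3 : ℝ)) := by positivity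
    rw [hC]; linarith
  have hC32 : 32 * C0 ≤ C := by
    have h1 : 0 ≤ 30 / log (log (3 : ℝ)) := by positivity
    have h2 : 0 ≤ |x0| / log (log (3 : ℝ)) := by positivity
    rw [hC]; linarith
  have hC30 : 30 / log (log 3) ≤ C := by
    have h2 : 0 ≤ |x0| / log (log (3 : ℝ)) := by positivity
    rw [hC]; linarith
  have hC4 : 4 ≤ C := by
    have h1 : 0 ≤ 30 / log (log (3 : ℝ)) := by positivity
    have h2 : 0 ≤ |x0| / log (log (3 : ℝ)) := by positivity
    rw [hC]; linarith
  have hCpos : 0 < C := by linarith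
  refine ⟨C, hCpos, fun n k hk hkn => ?_⟩
  have hn2 : 2 ≤ n := by
    by_contra hcon
    have : n = 0 ∨ n = 1 := by omega
    rcases this with rfl | rfl <;> simp at hkn <;> omega
  have hn1 : (1 : ℝ) < n := by exact_mod_cast (by omega : 1 < n)
  have hk0 : (0 : ℝ) < k := by exact_mod_cast (by omega : 0 < k)
  set x : ℝ := log k with hx
  have hx3 : log 3 ≤ x := log_le_log (by norm_num) (by exact_mod_cast hk)
  have hx1 : 1 < x := by linarith
  have hlx3 : log (log 3) ≤ log x := log_le_log (by linarith) hx3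
  have hlx : 0 < log x := by linarith
  set E : ℝ := C * log x / (k * x) with hE
  have hE0 : 0 < E := by rw [hE]; positivity
  by_cases hsmall : x < x0
  · -- few prime factors: the least prime factor
    refine ⟨n.minFac, (Nat.minFac_prime (by omega)).one_lt, ?_, least_prime n hn2⟩
    have h1 : (n.minFac : ℝ) ^ k ≤ n := by
      have h2 : n.minFac ^ n.primeFactors.card ≤ ∏ p ∈ n.primeFactors, p := by
        apply Finset.pow_card_le_prod
        intro p hp
        exact Nat.minFac_le_of_dvd (Nat.prime_of_mem_primeFactors hp).two_le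
          (Nat.dvd_of_mem_primeFactors hp)
      have h3 : ∏ p ∈ n.primeFactors, p ≤ n := Nat.le_of_dvd (by omega) (Nat.prod_primeFactors_dvd n)
      have h4 : n.minFac ^ k ≤ n.minFac ^ n.primeFactors.card :=
        Nat.pow_le_pow_right (Nat.minFac_pos n) hkn
      exact_mod_cast h4.trans (h2.trans h3)
    have h2 : (n.minFac : ℝ) ≤ (n : ℝ) ^ (1 / (k : ℝ)) := by
      have h3 : ((n.minFac : ℝ) ^ k) ^ (1 / (k : ℝ)) ≤ (n : ℝ) ^ (1 / (k : ℝ)) :=
        rpow_le_rpow (by positivity) h1 (by positivity)
      rwa [← rpow_natCast, ← rpow_mul (by positivity), mul_one_div_cancel hk0.ne', rpow_one] at h3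
    refine h2.trans (rpow_le_rpow_of_exponent_le hn1.le ?_)
    rw [hE, div_le_div_iff₀ hk0 (by positivity)]
    have h4 : x ≤ C * log x := by
      have h5 : |x0| ≤ C * log (log 3) := by
        rwa [div_le_iff₀ hll3] at hCx
      have h6 : x0 ≤ |x0| := le_abs_self _
      have h7 : C * log (log 3) ≤ C * log x := mul_le_mul_of_nonneg_left hlx3 hCpos.le
      linarith
    nlinarith
  push Not at hsmall
  obtain ⟨hx3', hxc⟩ := hx0 x hsmall
  by_contra hno
  push Not at hno
  -- the size of the range
  have hlogn : (k : ℝ) * x / 20 ≤ log n := log_ge n k hn2 hk hkn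
  set B : ℝ := (n : ℝ) ^ E with hB
  have hlogB : log B = E * log n := log_rpow (by linarith) E
  have hB4 : 4 ≤ B := by
    have h1 : log 4 ≤ log B := by
      rw [hlogB]
      have h2 : E * ((k : ℝ) * x / 20) ≤ E * log n := mul_le_mul_of_nonneg_left hlogn hE0.le
      have h3 : E * ((k : ℝ) * x / 20) = C * log x / 20 := by
        rw [hE]
        field_simp
      have h4 : 30 ≤ C * log x := by
        have h5 : 30 ≤ C * log (log 3) := by rwa [div_le_iff₀ hll3] at hC30
        have h7 : C * log (log 3) ≤ C * log x := mul_le_mul_of_nonneg_left hlx3 hCpos.le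
        linarith
      have h5 : log (4 : ℝ) = 2 * log 2 := by
        rw [show (4 : ℝ) = 2 ^ 2 by norm_num, log_pow]
        push_cast
        ring
      linarith [log_two_lt_d9]
    have hBpos : 0 < B := by positivity
    exact (log_le_log_iff (by norm_num) hBpos).mp h1
  set y : ℕ := ⌊B⌋₊ with hy
  have hyle : (y : ℝ) ≤ B := Nat.floor_le (by linarith)
  have hylt : B < y + 1 := Nat.lt_floor_add_one _
  have hpass : ∀ b : ℕ, 1 < b → b ≤ y → Passes n b := fun b hb1 hb2 =>
    hno b hb1 (le_trans (by exact_mod_cast hb2) hyle)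
  have hy3 : (3 : ℝ) < y := by linarith
  have hy2 : 2 ≤ y := by
    have : 3 < y := by exact_mod_cast hy3
    omega
  have hy0 : (0 : ℝ) < y := by linarith
  have hlogy : E * log n / 2 ≤ log y := by
    have h1 : B ≤ (y : ℝ) ^ 2 := by nlinarith
    have h2 := log_le_log (by linarith) h1
    rw [log_pow, hlogB] at h2
    push_cast at h2
    linarith
  set u : ℝ := 1 + 4 * x / (C * log x) with hu
  have hupos : 0 ≤ 4 * x / (C * log x) := by positivity
  have hu1 : 1 ≤ u := by linarith
  have hz : (n : ℝ) ^ (2 / (k : ℝ)) ≤ (y : ℝ) ^ u := by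
    rw [rpow_def_of_pos (by linarith : (0 : ℝ) < n), rpow_def_of_pos hy0]
    apply exp_le_exp.mpr
    have h0 : 0 < log (n : ℝ) := log_pos hn1
    have h1 : log (n : ℝ) * (2 / k) = E * log n / 2 * (4 * x / (C * log x)) := by
      rw [hE]
      field_simp
      norm_num
    rw [h1]
    apply mul_le_mul hlogy _ hupos (by linarith [log_pos (by linarith : (1 : ℝ) < y)])
    linarith
  have hcount := hU n y hn2 hy2 hpass u hu1
  have hsm := many_small n k hn2 (by omega) hkn
  have hmono : ((pfac n ((n : ℝ) ^ (2 / (k : ℝ)))).card : ℝ) ≤ (pfac n ((y : ℝ) ^ u)).card := by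
    have : pfac n ((n : ℝ) ^ (2 / (k : ℝ))) ⊆ pfac n ((y : ℝ) ^ u) := by
      intro p hp
      rw [mem_pfac] at hp ⊢
      exact ⟨hp.1, hp.2.trans hz⟩
    exact_mod_cast card_le_card this
  have hkexp : (k : ℝ) < 2 * exp (C0 * (u * log (u + 1))) := by linarith
  -- the exponent is small
  have hexp : C0 * (u * log (u + 1)) ≤ x - log 2 := by
    have h1 : 4 * x / (C * log x) ≤ x := by
      rw [div_le_iff₀ (by positivity)]
      have hlx1 : 1 ≤ log x := by
        rw [le_log_iff_exp_le (by linarith)]
        linarith [exp_one_lt_d9]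
      have hCl : 4 ≤ C * log x := by
        calc (4 : ℝ) = 4 * 1 := by norm_num
          _ ≤ C * log x := mul_le_mul hC4 hlx1 (by norm_num) hCpos.le
      calc 4 * x ≤ (C * log x) * x := mul_le_mul_of_nonneg_right hCl (by linarith)
        _ = x * (C * log x) := mul_comm _ _
    have h2 : log (u + 1) ≤ 2 * log x := by
      have h3 : u + 1 ≤ x ^ 2 := by nlinarith
      have h4 := log_le_log (by linarith) h3
      rw [log_pow] at h4
      push_cast at h4
      exact h4
    have h5 : u * log (u + 1) ≤ u * (2 * log x) := mul_le_mul_of_nonneg_left h2 (by linarith)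
    have h6 : u * (2 * log x) = 2 * log x + 8 * x / C := by
      rw [hu]
      field_simp
      ring
    have h7 : C0 * (8 * x / C) ≤ x / 4 := by
      rw [mul_div_assoc', div_le_div_iff₀ hCpos (by norm_num)]
      nlinarith
    have h8 : C0 * (u * log (u + 1)) ≤ C0 * (2 * log x + 8 * x / C) := by
      rw [← h6]
      exact mul_le_mul_of_nonneg_left h5 hC0.le
    have h9 : C0 * (2 * log x + 8 * x / C) = 2 * C0 * log x + C0 * (8 * x / C) := by ring
    linarith
  have h1 : exp (C0 * (u * log (u + 1))) ≤ exp (x - log 2) := exp_le_exp.mpr hexp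
  rw [exp_sub, exp_log (by norm_num : (0 : ℝ) < 2), hx, exp_log hk0] at h1
  linarith

end Pool.Agent.R496
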