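import Pool.Agent.R496.ManyF

/-! Integers with very many prime factors have a witness in the range of the question. -/

set_option autoImplicit false

namespace Pool.Agent.R496

open Finset Real

open Pool.Agent.H379R2.W (Passes)

lemma two_pow_card_le (n : ℕ) (hn : 1 ≤ n) : 2 ^ n.primeFactors.card ≤ n := by
  calc 2 ^ n.primeFactors.card ≤ ∏ p ∈ n.primeFactors, p := by
        apply Finset.pow_card_le_prod
        intro p hp
        exact (Nat.prime_of_mem_primeFactors hp).two_le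
    _ ≤ n := Nat.le_of_dvd (by omega) (Nat.prod_primeFactors_dvd n)

lemma aux_exp (C1 C k x L lx lL ln : ℝ) (hC1 : 0 < C1) (hC : 2 * C1 ≤ C) (hk : 0 < k) (hL : 0 < L)
    (hxL : L / 2 ≤ x) (hlx : lx ≤ 2 * lL) (hlx0 : 0 ≤ lx) (hlL : 0 ≤ lL) (hln : 0 < ln)
    (h3 : C * ln * lL ≤ k * L ^ 2) : C1 * lx / (k * x) * ln ≤ 2 * L := by
  have hx0 : 0 < x := by linarith
  have h1 : C1 * lx / (k * x) ≤ C1 * (2 * lL) / (k * (L / 2)) := by
    apply div_le_div₀ (mul_nonneg hC1.le (by linarith)) (mul_le_mul_of_nonneg_left hlx hC1.le)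
      (mul_pos hk (by linarith)) (mul_le_mul_of_nonneg_left hxL hk.le)
  have h2 : C1 * (2 * lL) / (k * (L / 2)) * ln ≤ 2 * L := by
    rw [div_mul_eq_mul_div, div_le_iff₀ (mul_pos hk (by linarith))]
    have h4 : 2 * C1 * (ln * lL) ≤ C * (ln * lL) :=
      mul_le_mul_of_nonneg_right hC (mul_nonneg hln.le hlL)
    nlinarith
  exact (mul_le_mul_of_nonneg_right h1 hln.le).trans h2

theorem many_range : ∃ C : ℝ, 0 < C ∧ ∃ n0 : ℕ, ∀ n : ℕ, n0 ≤ n →
    C * log n * log (log (log n)) / (log (log n)) ^ 2 ≤ n.primeFactors.card →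
    ∃ b : ℕ, 1 < b ∧ (b : ℝ) ≤ 2 * (log n) ^ 2 ∧ ¬ Passes n b := by
  obtain ⟨C1, hC1, hM⟩ := many_factors
  set C : ℝ := 2 * C1 + 1 with hC
  have hCpos : 0 < C := by rw [hC]; linarith
  refine ⟨C, hCpos, ?_⟩
  have hev : ∀ᶠ L : ℝ in Filter.atTop, 8 ≤ L ∧ L ^ 2 ≤ exp (L / 2) ∧ 3 ≤ exp (L / 2) := by
    have e2 : ∀ᶠ L : ℝ in Filter.atTop, ‖L ^ 2‖ ≤ 1 * ‖exp ((1 / 2) * L)‖ :=
      (isLittleO_pow_exp_pos_mul_atTop 2 (by norm_num : (0 : ℝ) < 1 / 2)).def (by positivity)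
    filter_upwards [Filter.eventually_ge_atTop 8, e2] with L a1 a2
    rw [norm_of_nonneg (by positivity), norm_of_nonneg (by positivity), one_mul] at a2
    have e5 : (1 / 2 : ℝ) * L = L / 2 := by ring
    rw [e5] at a2
    refine ⟨a1, a2, ?_⟩
    nlinarith
  obtain ⟨L0, hL0⟩ := Filter.eventually_atTop.mp hev
  refine ⟨max 3 ⌈exp (exp L0)⌉₊, fun n hn hcard => ?_⟩
  have hn3 : 3 ≤ n := (le_max_left _ _).trans hn
  have hnL : exp (exp L0) ≤ n := by
    have h1 : ⌈exp (exp L0)⌉₊ ≤ n := (le_max_right _ _).trans hn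
    exact Nat.ceil_le.mp h1
  have hn0 : (0 : ℝ) < n := by exact_mod_cast (by omega : 0 < n)
  have hlogn : exp L0 ≤ log n := (le_log_iff_exp_le hn0).mpr hnL
  have hlogn0 : 0 < log (n : ℝ) := (exp_pos _).trans_le hlogn
  set L : ℝ := log (log n) with hL
  have hLL0 : L0 ≤ L := (le_log_iff_exp_le hlogn0).mpr hlogn
  obtain ⟨c1, c2, c3⟩ := hL0 L hLL0
  have hexpL : exp L = log n := exp_log hlogn0
  have hLp : 0 < L := by linarith
  have hLL1 : 1 ≤ log L := by
    rw [le_log_iff_exp_le hLp]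
    linarith [exp_one_lt_d9]
  set k := n.primeFactors.card with hk
  have hlogE : log (n : ℝ) = exp (L / 2) * exp (L / 2) := by
    rw [← hexpL, ← exp_add]
    congr 1
    ring
  -- `k ≥ (log n) ^ (1 / 2)`
  have hkE : exp (L / 2) ≤ k := by
    refine le_trans ?_ hcard
    rw [le_div_iff₀ (by positivity)]
    calc exp (L / 2) * L ^ 2 ≤ exp (L / 2) * exp (L / 2) :=
          mul_le_mul_of_nonneg_left c2 (exp_pos _).le
      _ = log n := hlogE.symm
      _ = 1 * log n * 1 := by ring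
      _ ≤ C * log n * log L := by
          have : 1 ≤ C := by rw [hC]; linarith
          gcongr
  have hk3 : 3 ≤ k := by
    have : (3 : ℝ) ≤ k := c3.trans hkE
    exact_mod_cast this
  have hk0 : (0 : ℝ) < k := by exact_mod_cast (by omega : 0 < k)
  obtain ⟨b, hb1, hb2, hb3⟩ := hM n k hk3 le_rfl
  refine ⟨b, hb1, hb2.trans ?_, hb3⟩
  set x : ℝ := log k with hx
  have hxL : L / 2 ≤ x := (le_log_iff_exp_le hk0).mpr hkE
  have hx0 : 0 < x := by linarith
  -- `k ≤ 2 log n`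
  have hk2 : (k : ℝ) ≤ 2 * log n := by
    have h1 : ((2 ^ k : ℕ) : ℝ) ≤ n := by exact_mod_cast two_pow_card_le n (by omega)
    push_cast at h1
    have h2 := log_le_log (by positivity) h1
    rw [log_pow] at h2
    have h3 : (1 / 2 : ℝ) ≤ log 2 := by linarith [log_two_gt_d9]
    nlinarith
  have hxL2 : x ≤ L ^ 2 := by
    have h1 : x ≤ log (2 * log n) := log_le_log hk0 hk2
    rw [log_mul (by norm_num) hlogn0.ne', ← hL] at h1
    nlinarith [log_two_lt_d9]
  have hlx : log x ≤ 2 * log L := by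
    have h1 := log_le_log hx0 hxL2
    rw [log_pow] at h1
    push_cast at h1
    exact h1
  have hlx0 : 0 ≤ log x := log_nonneg (by linarith)
  have hexp : C1 * log x / (k * x) * log n ≤ 2 * L := by
    have h3 : C * log n * log L ≤ k * L ^ 2 := by
      rwa [div_le_iff₀ (pow_pos hLp 2)] at hcard
    exact aux_exp C1 C k x L (log x) (log L) (log n) hC1 (by rw [hC]; linarith) hk0 hLp hxL hlx hlx0
      (by linarith) hlogn0 h3
  have h1 : (n : ℝ) ^ (C1 * log x / (k * x)) ≤ (log n) ^ 2 := by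
    rw [rpow_def_of_pos hn0]
    have h2 : (log (n : ℝ)) ^ 2 = exp (2 * L) := by
      rw [← hexpL, sq, ← exp_add]
      congr 1
      ring
    rw [h2]
    apply exp_le_exp.mpr
    rw [mul_comm]
    exact hexp
  have h2 : 0 ≤ (log (n : ℝ)) ^ 2 := by positivity
  linarith

end Pool.Agent.R496
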