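import Mathlib

set_option autoImplicit false

namespace Pool.Agent.R496.NN

theorem nn_eq (k n : ℕ) (hn : n = 2 ^ 2 ^ k) : n ^ n + 1 = Nat.fermatNumber (k + 2 ^ k) := by
  unfold Nat.fermatNumber
  congr 1
  conv_lhs => rw [hn]
  rw [← pow_mul, ← pow_add]

theorem pow_eq (k n i : ℕ) (hn : n = 2 ^ 2 ^ k) : n ^ i = 2 ^ (2 ^ k * i) := by
  rw [hn, ← pow_mul]

theorem quarter (k n : ℕ) (hk : 1 ≤ k) (hn : n = 2 ^ 2 ^ k) :
    2 ^ k * (n / 4) = 2 ^ (k + 2 ^ k - 2) := by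
  have h2 : 2 ≤ 2 ^ k := by
    calc 2 = 2 ^ 1 := by norm_num
      _ ≤ 2 ^ k := Nat.pow_le_pow_right (by norm_num) hk
  have h4 : n / 4 = 2 ^ (2 ^ k - 2) := by
    rw [hn]
    have : 2 ^ 2 ^ k = 4 * 2 ^ (2 ^ k - 2) := by
      rw [show (4 : ℕ) = 2 ^ 2 from rfl, ← pow_add]
      congr 1
      omega
    rw [this, Nat.mul_div_cancel_left _ (by norm_num)]
  rw [h4, ← pow_add]
  congr 1
  omega

theorem full (k n : ℕ) (hn : n = 2 ^ 2 ^ k) : 2 ^ k * n = 2 ^ (k + 2 ^ k) := by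
  conv_lhs => rw [hn]
  rw [← pow_add]

end Pool.Agent.R496.NN
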