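import Pool.Agent.R496.Quarter3

/-!
# Proper divisors of Fermat numbers and a primality criterion with a quarter of the squarings

Let `m ≥ 2` and `F_m = 2 ^ (2 ^ m) + 1`.  If `d` is a divisor of `F_m` with `1 < d < F_m`, then
`d - 1` is not divisible by `2 ^ (2 ^ (m - 2))`.  (For `m = 5` this is sharp: the divisor
`641 = 5 * 2 ^ 7 + 1` of `F_5`.)  Hence, for each `j` with `2 ^ (m - 2) - 1 ≤ j < 2 ^ m`, the number
`F_m` is prime if and only if `-1` is a `2 ^ j`-th power modulo `F_m`.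

Proof.  A nontrivial factorisation has the form `F_m = (1 + 2 ^ n j) (1 + 2 ^ n l)` with `j, l ≥ 3`
odd, and `c + j l = 2 ^ (2 ^ m - 2 n)`, `j + l = 2 ^ n c`.  If `4 n ≥ 2 ^ m`, put
`A = 2 ^ (2 ^ (m - 1) - n)`, `2 ^ n = λ A`.  Then `(j ^ 2 + A ^ 2) = c (λ j A + 1)`, and Vieta jumping
shows that `c` is the square of the greatest common divisor of `j` and `A`, so that `c = 1`.  The
remaining equations `j l = A ^ 2 - 1`, `j + l = λ A` have only the solution `j, l = A ± 1`, `λ = 2`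
with `j, l ≥ 3`, and here `2 ^ m = 4 n - 2`, which is impossible.
-/

set_option autoImplicit false

namespace Pool.Agent.R496.NNQ

open Pool.Agent.R496

/-- Let `m ≥ 2`.  (1) No divisor `d` of the Fermat number `F_m` with `1 < d < F_m` satisfies
`d ≡ 1` modulo `2 ^ (2 ^ (m - 2))`.  (2) For each `j` with `2 ^ (m - 2) - 1 ≤ j < 2 ^ m` the number
`F_m` is prime if and only if `-1` is a `2 ^ j`-th power modulo `F_m`. -/
theorem result (m : ℕ) (hm : 2 ≤ m) :
    (∀ d : ℕ, d ∣ Nat.fermatNumber m → 1 < d → d < Nat.fermatNumber m →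
      ¬ 2 ^ 2 ^ (m - 2) ∣ d - 1) ∧
    (∀ j : ℕ, 2 ^ (m - 2) ≤ j + 1 → j < 2 ^ m →
      ((Nat.fermatNumber m).Prime ↔ ∃ b : ZMod (Nat.fermatNumber m), b ^ 2 ^ j = -1)) := by
  refine ⟨fun d hd h1 h2 => quarter_dvd m hm d hd h1 h2, fun j hj1 hj2 => ⟨fun hp => ?_, ?_⟩⟩
  · have : Fact (Nat.fermatNumber m).Prime := ⟨hp⟩
    obtain ⟨g, hg⟩ := IsCyclic.exists_generator (α := (ZMod (Nat.fermatNumber m))ˣ)
    have hord : orderOf g = 2 ^ 2 ^ m := by
      rw [orderOf_eq_card_of_forall_mem_zpowers hg, Nat.card_eq_fintype_card,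
        ZMod.card_units_eq_totient, Nat.totient_prime hp]
      rfl
    have hm1 : 1 ≤ 2 ^ m := Nat.one_le_two_pow
    have h1 : g ^ 2 ^ (2 ^ m - 1) ≠ 1 := by
      intro h
      have := orderOf_dvd_of_pow_eq_one h
      rw [hord] at this
      have h3 := Nat.le_of_dvd (by positivity) this
      have h4 : 2 ^ (2 ^ m - 1) < 2 ^ 2 ^ m := Nat.pow_lt_pow_right (by norm_num) (by omega)
      omega
    have h2 : (g ^ 2 ^ (2 ^ m - 1)) ^ 2 = 1 := by
      rw [← pow_mul, ← pow_succ, Nat.sub_add_cancel hm1, ← hord, pow_orderOf_eq_one]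
    have h3 : ((g ^ 2 ^ (2 ^ m - 1) : (ZMod (Nat.fermatNumber m))ˣ) :
        ZMod (Nat.fermatNumber m)) = -1 := by
      have h4 : ((g ^ 2 ^ (2 ^ m - 1) : (ZMod (Nat.fermatNumber m))ˣ) :
        ZMod (Nat.fermatNumber m)) ^ 2 = 1 := by
        rw [← Units.val_pow_eq_pow_val, h2, Units.val_one]
      rw [pow_two] at h4
      rcases mul_self_eq_one_iff.mp h4 with h5 | h5
      · exact absurd (Units.ext (by simpa using h5)) h1
      · exact h5
    refine ⟨((g ^ 2 ^ (2 ^ m - 1 - j) : (ZMod (Nat.fermatNumber m))ˣ) :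
      ZMod (Nat.fermatNumber m)), ?_⟩
    rw [← h3, ← Units.val_pow_eq_pow_val, ← pow_mul, ← pow_add]
    congr 3
    omega
  · rintro ⟨b, hb⟩
    by_contra hnp
    have hF := fermat_eq m
    have hF1 : Nat.fermatNumber m ≠ 1 := by
      have : 0 < 2 ^ 2 ^ m := by positivity
      omega
    set p := (Nat.fermatNumber m).minFac with hp
    have hpp : p.Prime := Nat.minFac_prime hF1
    have hpd : p ∣ Nat.fermatNumber m := Nat.minFac_dvd _
    have : Fact p.Prime := ⟨hpp⟩
    have hlt : p < Nat.fermatNumber m := by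
      refine lt_of_le_of_ne (Nat.le_of_dvd (by rw [hF]; positivity) hpd) fun h => hnp ?_
      rw [← h]; exact hpp
    have hm1 : 1 ≤ 2 ^ m := Nat.one_le_two_pow
    have hp2 : p ≠ 2 := by
      intro h
      rw [h, hF] at hpd
      have h1 : 2 ∣ 2 ^ 2 ^ m := dvd_pow_self 2 (by omega)
      have := (Nat.dvd_add_right h1).mp hpd
      omega
    set c : ZMod p := ZMod.castHom hpd (ZMod p) b with hc
    have hcb : c ^ 2 ^ j = -1 := by
      rw [hc, ← map_pow, hb, map_neg, map_one]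
    have : Fact (2 < p) := ⟨lt_of_le_of_ne hpp.two_le (Ne.symm hp2)⟩
    have hne : (-1 : ZMod p) ≠ 1 := ZMod.neg_one_ne_one
    have hord : orderOf c = 2 ^ (j + 1) := by
      apply orderOf_eq_prime_pow
      · rw [hcb]; exact hne
      · rw [pow_succ, pow_mul, hcb]; norm_num
    have hc0 : c ≠ 0 := by
      intro h0
      rw [h0, zero_pow (by positivity)] at hcb
      exact one_ne_zero (neg_eq_zero.mp hcb.symm)
    have hdv : 2 ^ (j + 1) ∣ p - 1 := by
      rw [← hord]
      exact ZMod.orderOf_dvd_card_sub_one hc0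
    exact quarter_dvd m hm p hpd hpp.one_lt hlt ((pow_dvd_pow 2 hj1).trans hdv)

end Pool.Agent.R496.NNQ
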