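import Pool.Agent.R496.Repel

/-!
# Divisors of a composite Fermat number repel powers of two

Let `a` be a divisor of `F_m = 2 ^ (2 ^ m) + 1` with `1 < a < F_m`.  If `a = u 2 ^ e + c`, then for every `q`

`a ≤ 2 ^ (e q - 2 ^ m) u ^ q + 2 ^ (2 ^ m - e q) |c| ^ q`   (truncated subtraction in the exponents).

This turns the classical proof of `641 ∣ F_5`, which rests on `641 = 5 * 2 ^ 7 + 1 = 5 ^ 4 + 2 ^ 4`, into an
inequality for all divisors of all Fermat numbers; `641` is a case of equality (`e = 7`, `q = 4`).  Its two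
extreme cases say that `a` is not close to one in the 2-adic metric (`c = 1`) and not close to a power of
two in the ordinary one (`u = 1`).
-/

set_option autoImplicit false

namespace Pool.Agent.R496.NNR

/-- Let `a` be a nontrivial divisor of the Fermat number `F_m`. -/
theorem result (m a : ℕ) (ha : a ∣ Nat.fermatNumber m) (h1 : 1 < a)
    (h2 : a < Nat.fermatNumber m) :
    (∀ (u e q : ℕ) (c : ℤ), 1 ≤ e → (a : ℤ) = u * 2 ^ e + c →
      (a : ℤ) ≤ 2 ^ (e * q - 2 ^ m) * u ^ q + 2 ^ (2 ^ m - e * q) * |c| ^ q) ∧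
    (∀ k n : ℕ, Odd k → 1 ≤ n → a = k * 2 ^ n + 1 → 2 ^ (n ^ 2) < k ^ (2 ^ m)) ∧
    (∀ e : ℕ, (2 : ℤ) ^ (e * (e - 2)) ≤ |(a : ℤ) - 2 ^ e| ^ (2 ^ m + e)) := by
  refine ⟨fun u e q c he h => Pool.Agent.R496.kraitchik_le m a u e q c ha h2 he h, ?_,
    fun e => Pool.Agent.R496.near_two_pow m a e ha h1 h2⟩
  intro k n hk hn h
  have h3 : 2 ^ n * k + 1 ∣ Nat.fermatNumber m := by
    rw [mul_comm, ← h]
    exact ha
  have hk3 : 3 ≤ k := by
    by_contra hlt
    push Not at hlt
    have hk1 : k = 1 := by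
      obtain ⟨i, hi⟩ := hk
      omega
    rw [hk1, mul_one] at h3
    have h4 := Pool.Agent.R496.not_pow_add_one_dvd m n hn h3
    rw [h, hk1, one_mul, h4, Pool.Agent.R496.fermat_eq] at h2
    exact lt_irrefl _ h2
  exact Pool.Agent.R496.proth_sq m n k hk hk3 hn h3

end Pool.Agent.R496.NNR
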