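import Pool.Agent.R496.Gap3

/-!
# A gap in the values of Euler's function at Fermat numbers

The Fermat number `F_m = 2 ^ (2 ^ m) + 1` is prime if and only if the odd part `w` of `φ(F_m)` is
`1`.  We show that for a composite `F_m` the odd part `w` is large: `w > 2 ^ (2 ^ (m / 2))`, and
`(2 w) ^ (r + 1) > F_m` if `F_m` has `r` prime factors counted with multiplicity.  Hence a composite
`F_m` passes Fermat's test `b ^ (F_m - 1) = 1` for fewer than `F_m / 2 ^ (2 ^ (m / 2))` bases `b`
modulo `F_m`.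

Proof.  Let `p = k 2 ^ n + 1` be a prime factor, `k ≥ 3` odd, and `2 ^ m = q n + r` with `0 ≤ r < n`.
As `k 2 ^ n` is congruent to `-1`, the prime `p` divides the nonzero number
`k ^ q + (-1) ^ q 2 ^ r`.  This gives `k ^ (q - 1) > (5 / 6) 2 ^ n`.  Sum the logarithms over all prime
factors and use convexity.
-/

set_option autoImplicit false

namespace Pool.Agent.R496.NNT

open Pool.Agent.R496

lemma five_le (m : ℕ) (hF : ¬ (Nat.fermatNumber m).Prime) : 5 ≤ m := by
  by_contra hc
  have : m = 0 ∨ m = 1 ∨ m = 2 ∨ m = 3 ∨ m = 4 := by omega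
  apply hF
  rcases this with h | h | h | h | h <;> subst h <;> norm_num [Nat.fermatNumber]

/-- Let the Fermat number `F_m` be composite and let `φ(F_m) = 2 ^ v w` with `w` odd.  Then
`F_m < (2 w) ^ (Ω(F_m) + 1)`, `w > 2 ^ (2 ^ (m / 2))`, and fewer than `F_m / 2 ^ (2 ^ (m / 2))`
residue classes `b` modulo `F_m` satisfy `b ^ (F_m - 1) = 1`. -/
theorem result (m : ℕ) (hF : ¬ (Nat.fermatNumber m).Prime) (v w : ℕ) (hw : Odd w)
    (hvw : Nat.totient (Nat.fermatNumber m) = 2 ^ v * w) :
    Nat.fermatNumber m < (2 * w) ^ (ArithmeticFunction.cardFactors (Nat.fermatNumber m) + 1) ∧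
    (2 : ℝ) ^ ((2 : ℝ) ^ ((m : ℝ) / 2)) < w ∧
    (Nat.card {b : ZMod (Nat.fermatNumber m) // b ^ (Nat.fermatNumber m - 1) = 1} : ℝ) <
      Nat.fermatNumber m / (2 : ℝ) ^ ((2 : ℝ) ^ ((m : ℝ) / 2)) := by
  have hm5 := five_le m hF
  have hg := gap_real m (by omega) hF
  have hFe := fermat_eq m
  have hF3 := Nat.three_le_fermatNumber m
  have hodd : Odd (Nat.fermatNumber m) := Nat.odd_fermatNumber m
  have hLd : ∀ p ∈ (Nat.fermatNumber m).primeFactorsList, p.Prime ∧ p ∣ Nat.fermatNumber m :=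
    fun p hp => ⟨Nat.prime_of_mem_primeFactorsList hp, Nat.dvd_of_mem_primeFactorsList hp⟩
  have hprod : (Nat.fermatNumber m).primeFactorsList.prod = Nat.fermatNumber m :=
    Nat.prod_primeFactorsList (by omega)
  have hwpos : 0 < w := hw.pos
  -- the product of the odd parts is at most w
  have h1 : ((Nat.fermatNumber m).primeFactorsList.map kk).prod ≤ w := by
    have h2 := prod_kk_le (Nat.fermatNumber m).primeFactorsList
      (fun p hp => ⟨(hLd p hp).1, hodd.of_dvd_nat (hLd p hp).2⟩)
    rwa [hprod, hvw, kk_pow v w hw] at h2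
  set L := (Nat.fermatNumber m).primeFactorsList with hL
  have hR : ArithmeticFunction.cardFactors (Nat.fermatNumber m) = L.length := rfl
  rw [hR]
  set K := (L.map (fun p => Real.logb 2 (kk p))).sum with hK
  have hKW : K ≤ Real.logb 2 w := by
    have h2 : K = Real.logb 2 ((L.map kk).prod : ℕ) := by
      rw [logb_prod (L.map kk), List.map_map]
      · rfl
      · intro q hq
        obtain ⟨p, hp, rfl⟩ := List.mem_map.mp hq
        have := (prime_data m (by omega) hF p (hLd p hp).1 (hLd p hp).2).2.1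
        omega
    rw [h2]
    apply Real.logb_le_logb_of_le (by norm_num)
    · have : 0 < (L.map kk).prod := by
        apply List.prod_pos
        intro q hq
        obtain ⟨p, hp, rfl⟩ := List.mem_map.mp hq
        have := (prime_data m (by omega) hF p (hLd p hp).1 (hLd p hp).2).2.1
        omega
      exact_mod_cast this
    · exact_mod_cast h1
  have hKR : 3 / 2 * (L.length : ℝ) ≤ K := by
    have h2 : (L.map (fun _ => (3 / 2 : ℝ))).sum ≤ K := by
      apply List.sum_le_sum
      intro p hp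
      exact (data_real m (by omega) hF p (hLd p hp).1 (hLd p hp).2).2.2.1
    have h3 : (L.map (fun _ => (3 / 2 : ℝ))).sum = 3 / 2 * (L.length : ℝ) := by
      rw [List.map_const', List.sum_replicate, nsmul_eq_mul]
      ring
    linarith
  set R : ℝ := (L.length : ℝ) with hRdef
  have hR0 : 0 ≤ R := by positivity
  set W := Real.logb 2 w with hW
  have hmain : (2 : ℝ) ^ m < (R + 1) * (W + 1) := by
    have : (R + 1) * (K + 1) ≤ (R + 1) * (W + 1) :=
      mul_le_mul_of_nonneg_left (by linarith) (by linarith)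
    linarith
  -- the second claim
  have hs : ((2 : ℝ) ^ ((m : ℝ) / 2)) ^ 2 = 2 ^ m := by
    rw [← Real.rpow_natCast, ← Real.rpow_mul (by norm_num)]
    norm_num
  have hspos : 0 < (2 : ℝ) ^ ((m : ℝ) / 2) := by positivity
  have hs2 : (2 : ℝ) ^ ((m : ℝ) / 2) < W := by
    set s := (2 : ℝ) ^ ((m : ℝ) / 2) with hsdef
    have h32 : (32 : ℝ) ≤ s ^ 2 := by
      rw [hs]
      calc (32 : ℝ) = 2 ^ 5 := by norm_num
        _ ≤ 2 ^ m := pow_le_pow_right₀ (by norm_num) hm5
    have hs56 : (5.6 : ℝ) ≤ s := by nlinarith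
    by_contra hc
    push Not at hc
    rw [← hs] at hmain
    have h2 : (R + 1) * (W + 1) ≤ (2 / 3 * s + 1) * (s + 1) := by
      apply mul_le_mul <;> linarith
    nlinarith
  have hwgt : (2 : ℝ) ^ ((2 : ℝ) ^ ((m : ℝ) / 2)) < w := by
    rwa [← Real.lt_logb_iff_rpow_lt (by norm_num) (by exact_mod_cast hwpos)]
  refine ⟨?_, hwgt, ?_⟩
  · -- the first claim
    have h2 : (2 : ℝ) ^ m < Real.logb 2 (((2 * w) ^ (L.length + 1) : ℕ) : ℝ) := by
      push_cast
      rw [Real.logb_pow, Real.logb_mul (by norm_num) (by exact_mod_cast hwpos.ne'),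
        Real.logb_self_eq_one (by norm_num)]
      push_cast
      linarith
    rw [Real.lt_logb_iff_rpow_lt (by norm_num) (by exact_mod_cast (by positivity))] at h2
    have e1 : (2 : ℝ) ^ m = ((2 ^ m : ℕ) : ℝ) := by push_cast; rfl
    rw [e1, Real.rpow_natCast] at h2
    have h3 : 2 ^ 2 ^ m < (2 * w) ^ (L.length + 1) := by exact_mod_cast h2
    have h4 : Even ((2 * w) ^ (L.length + 1)) := (even_two_mul w).pow_of_ne_zero (by omega)
    rcases lt_or_eq_of_le (Nat.succ_le_of_lt h3) with h5 | h5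
    · rw [hFe]; exact h5
    · exfalso
      rw [← h5] at h4
      rw [hFe] at hodd
      exact (Nat.not_even_iff_odd.mpr hodd) h4
  · -- the third claim
    have : NeZero (Nat.fermatNumber m) := ⟨by omega⟩
    set G := (ZMod (Nat.fermatNumber m))ˣ with hG
    let H : Subgroup G := (powMonoidHom (2 ^ 2 ^ m) : G →* G).ker
    have hcardG : Nat.card G = 2 ^ v * w := by
      rw [← hvw, Nat.card_eq_fintype_card]
      exact ZMod.card_units_eq_totient _
    have hp : IsPGroup 2 H := by
      rintro ⟨g, hg⟩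
      refine ⟨2 ^ m, ?_⟩
      apply Subtype.ext
      simpa [H, MonoidHom.mem_ker, powMonoidHom_apply] using hg
    obtain ⟨a, ha⟩ := IsPGroup.iff_card.mp hp
    have h2 : Nat.card H ∣ 2 ^ v := by
      have h3 : Nat.card H ∣ 2 ^ v * w := by
        rw [← hcardG]
        exact Subgroup.card_subgroup_dvd_card H
      rw [ha] at h3 ⊢
      exact (Nat.Coprime.dvd_of_dvd_mul_right
        (Nat.Coprime.pow_left a (Nat.coprime_two_left.mpr hw)) h3)
    have h3 : Nat.card H ≤ 2 ^ v := Nat.le_of_dvd (by positivity) h2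
    have h4 : Nat.card {b : ZMod (Nat.fermatNumber m) // b ^ (Nat.fermatNumber m - 1) = 1} ≤
        Nat.card H := by
      have hexp : Nat.fermatNumber m - 1 = 2 ^ 2 ^ m := by rw [hFe, Nat.add_sub_cancel]
      apply Nat.card_le_card_of_injective
        (fun b => (⟨Units.ofPowEqOne b.1 (2 ^ 2 ^ m) (by rw [← hexp]; exact b.2) (by positivity),
          by
            rw [MonoidHom.mem_ker, powMonoidHom_apply]
            apply Units.ext
            rw [Units.val_pow_eq_pow_val, Units.val_ofPowEqOne, Units.val_one, ← hexp]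
            exact b.2⟩ : H))
      intro b c hbc
      have h5 := congrArg (fun x : H => ((x : G) : ZMod (Nat.fermatNumber m))) hbc
      simp only [Units.val_ofPowEqOne] at h5
      exact Subtype.ext h5
    have h5 : Nat.totient (Nat.fermatNumber m) < Nat.fermatNumber m :=
      Nat.totient_lt _ (by omega)
    rw [hvw] at h5
    rw [lt_div_iff₀ (by positivity)]
    have h6 : (Nat.card {b : ZMod (Nat.fermatNumber m) // b ^ (Nat.fermatNumber m - 1) = 1} : ℝ) ≤
        2 ^ v := by exact_mod_cast h4.trans h3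
    have h7 : ((2 : ℝ) ^ v * w) < Nat.fermatNumber m := by exact_mod_cast h5
    have h8 : (2 : ℝ) ^ v * (2 : ℝ) ^ ((2 : ℝ) ^ ((m : ℝ) / 2)) ≤ 2 ^ v * w :=
      mul_le_mul_of_nonneg_left hwgt.le (by positivity)
    have h9 : (Nat.card {b : ZMod (Nat.fermatNumber m) // b ^ (Nat.fermatNumber m - 1) = 1} : ℝ) *
        (2 : ℝ) ^ ((2 : ℝ) ^ ((m : ℝ) / 2)) ≤ 2 ^ v * (2 : ℝ) ^ ((2 : ℝ) ^ ((m : ℝ) / 2)) :=
      mul_le_mul_of_nonneg_right h6 (by positivity)
    linarith

end Pool.Agent.R496.NNT
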