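import Mathlib

/-! Factorisations of `2 ^ N + 1` into two factors congruent to one modulo a large power of two. -/

set_option autoImplicit false

namespace Pool.Agent.R496

/-- Vieta jumping: if `x ^ 2 + y ^ 2 = μ x y + c` with `1 ≤ c ≤ μ`, then `c` is the square of the
greatest common divisor of `x` and `y`. -/
lemma vieta (c μ : ℕ) (hc : 1 ≤ c) (hμ : c ≤ μ) :
    ∀ s x y : ℕ, x + y = s → x ^ 2 + y ^ 2 = μ * x * y + c → Nat.gcd x y ^ 2 = c := by
  intro s
  induction s using Nat.strong_induction_on with
  | _ s ih =>
    intro x y hs h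
    wlog hxy : x ≤ y generalizing x y with H
    · have := H y x (by omega) (by rw [add_comm, h]; ring) (by omega)
      rwa [Nat.gcd_comm] at this
    rcases Nat.eq_zero_or_pos x with hx | hx
    · subst hx
      simpa using h
    -- the other root
    have h1 : y ≤ μ * x := by
      by_contra hlt
      push Not at hlt
      have h2 : y * (μ * x) + y ≤ y * y := by
        have := Nat.mul_le_mul_left y hlt
        nlinarith
      have h3 : μ ≤ μ * x := Nat.le_mul_of_pos_right μ hx
      nlinarith
    obtain ⟨z, hz⟩ := Nat.exists_eq_add_of_le h1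
    -- z = μ x - y
    have h4 : x ^ 2 = y * z + c := by
      have : y * (μ * x) = y * (y + z) := by rw [hz]
      nlinarith
    have h5 : z < y := by
      by_contra hlt
      push Not at hlt
      have := Nat.mul_le_mul_left y hlt
      nlinarith
    have h6 : x ^ 2 + z ^ 2 = μ * x * z + c := by
      have : z * (μ * x) = z * (y + z) := by rw [hz]
      nlinarith
    have h7 := ih (x + z) (by omega) x z rfl h6
    have h8 : Nat.gcd x z = Nat.gcd x y := by
      have : Nat.gcd x (y + z) = Nat.gcd x 0 := by
        rw [← hz]; simp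
      apply Nat.dvd_antisymm
      · apply Nat.dvd_gcd (Nat.gcd_dvd_left x z)
        have e1 : Nat.gcd x z ∣ μ * x := (Nat.gcd_dvd_left x z).mul_left μ
        rw [hz] at e1
        exact (Nat.dvd_add_left (Nat.gcd_dvd_right x z)).mp e1
      · apply Nat.dvd_gcd (Nat.gcd_dvd_left x y)
        have e1 : Nat.gcd x y ∣ μ * x := (Nat.gcd_dvd_left x y).mul_left μ
        rw [hz] at e1
        exact (Nat.dvd_add_right (Nat.gcd_dvd_right x y)).mp e1
    rw [← h8]
    exact h7

end Pool.Agent.R496
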