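import Pool.Agent.R496.Quarter

/-! Factorisations of `2 ^ N + 1` into two factors congruent to one modulo a large power of two. -/

set_option autoImplicit false

namespace Pool.Agent.R496

lemma class_aux (n v j l : ℕ) (hj : Odd j) (hv : 1 ≤ v) (hn : v + 2 ≤ n) (hjl : j ≤ l)
    (h1 : 1 + j * l = (2 ^ v) ^ 2) (h2 : j + l = 2 ^ n) : j = 1 := by
  rcases Nat.lt_or_ge v 2 with hv2 | hv2
  · have : v = 1 := by omega
    subst this
    have h3 : j * l = 3 := by
      have : (2 ^ 1 : ℕ) ^ 2 = 4 := by norm_num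
      omega
    have h4 : j < 2 := by
      by_contra hc
      push Not at hc
      have : 2 * 2 ≤ j * l := Nat.mul_le_mul hc (by omega)
      omega
    obtain ⟨i, hi⟩ := hj
    omega
  · have hA : (2 ^ v) ^ 2 = 2 ^ (v + 2) * 2 ^ (v - 2) := by
      rw [← pow_mul, ← pow_add]
      congr 1
      omega
    have hB : 2 ^ n = 2 ^ (v + 2) * 2 ^ (n - (v + 2)) := by
      rw [← pow_add]
      congr 1
      omega
    -- j ≤ 2 ^ (v - 1)
    have h3 : j * 2 ^ n ≤ 2 * (2 ^ v) ^ 2 := by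
      have e1 : j * (j + l) = j * 2 ^ n := by rw [h2]
      have e2 : j * j ≤ j * l := Nat.mul_le_mul_left j hjl
      nlinarith
    have h4 : j ≤ 2 ^ (v - 1) := by
      have e1 : 2 * (2 ^ v) ^ 2 = 2 ^ (v + 2) * 2 ^ (v - 1) := by
        rw [← pow_mul, ← pow_succ', ← pow_add]
        congr 1
        omega
      rw [e1] at h3
      have e2 : j * 2 ^ (v + 2) ≤ j * 2 ^ n := Nat.mul_le_mul_left j (Nat.pow_le_pow_right (by norm_num) hn)
      have e3 : 2 ^ (v + 2) * j ≤ 2 ^ (v + 2) * 2 ^ (v - 1) := by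
        calc 2 ^ (v + 2) * j = j * 2 ^ (v + 2) := by ring
          _ ≤ _ := e2.trans h3
      exact Nat.le_of_mul_le_mul_left e3 (by positivity)
    -- 2 ^ (v + 2) divides j ^ 2 - 1
    obtain ⟨i, hi⟩ := hj
    have h5 : j * j + (2 ^ v) ^ 2 = 1 + j * 2 ^ n := by
      rw [← h1, ← h2]; ring
    have h6 : 2 ^ v ∣ i * (i + 1) := by
      have e1 : 4 * (i * (i + 1)) + 2 ^ (v + 2) * 2 ^ (v - 2) = 2 ^ (v + 2) * (2 ^ (n - (v + 2)) * j) := by
        rw [← hA]
        have : j * 2 ^ n = 2 ^ (v + 2) * (2 ^ (n - (v + 2)) * j) := by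
          rw [hB]; ring
        rw [← this]
        have e2 : j * j = 4 * (i * (i + 1)) + 1 := by rw [hi]; ring
        omega
      have e2 : 2 ^ (v + 2) ∣ 4 * (i * (i + 1)) := by
        have : 2 ^ (v + 2) ∣ 4 * (i * (i + 1)) + 2 ^ (v + 2) * 2 ^ (v - 2) := by
          rw [e1]; exact dvd_mul_right _ _
        exact (Nat.dvd_add_left (dvd_mul_right _ _)).mp this
      have e3 : (2 : ℕ) ^ (v + 2) = 4 * 2 ^ v := by ring
      rw [e3] at e2
      exact Nat.dvd_of_mul_dvd_mul_left (by norm_num) e2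
    have h7 : 2 ^ v ∣ i ∨ 2 ^ v ∣ i + 1 := by
      have hc : Nat.Coprime i (i + 1) := by simp
      exact (hc.isPrimePow_dvd_mul (Nat.prime_two.isPrimePow.pow (by omega))).mp h6
    have h8 : 2 ^ v = 2 * 2 ^ (v - 1) := by
      rw [← pow_succ']; congr 1; omega
    rcases h7 with h7 | h7
    · rcases Nat.eq_zero_or_pos i with h0 | h0
      · omega
      · have := Nat.le_of_dvd h0 h7
        omega
    · have := Nat.le_of_dvd (by omega) h7
      omega

lemma class_main (n v j l c : ℕ) (hj : Odd j) (hl : Odd l) (hv : 1 ≤ v) (hn : v ≤ n)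
    (h1 : c + j * l = (2 ^ v) ^ 2) (h2 : j + l = c * 2 ^ n) :
    c = 1 ∧ (j = 1 ∨ l = 1 ∨ n = v + 1) := by
  have hc0 : 1 ≤ c := by
    rcases Nat.eq_zero_or_pos c with h | h
    · subst h
      obtain ⟨i, hi⟩ := hj
      omega
    · exact h
  have hT : 2 ^ n = 2 ^ (n - v) * 2 ^ v := by
    rw [← pow_add]; congr 1; omega
  have h3 : j ^ 2 + (2 ^ v) ^ 2 = (c * 2 ^ (n - v)) * j * 2 ^ v + c := by
    have e1 : j * (j + l) = j * (c * (2 ^ (n - v) * 2 ^ v)) := by rw [h2, hT]
    rw [← h1]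
    nlinarith
  have h4 := vieta c (c * 2 ^ (n - v)) hc0 (Nat.le_mul_of_pos_right c (by positivity)) _ j (2 ^ v)
    rfl h3
  have h5 : Nat.gcd j (2 ^ v) = 1 := Nat.Coprime.pow_right v (Nat.coprime_two_right.mpr hj)
  rw [h5] at h4
  have hc : c = 1 := by simpa using h4.symm
  subst hc
  refine ⟨rfl, ?_⟩
  rw [one_mul] at h2
  rcases Nat.lt_or_ge n (v + 2) with hlt | hge
  · rcases Nat.lt_or_ge n (v + 1) with hlt2 | hge2
    · exfalso
      have hnv : n = v := by omega
      subst hnv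
      have e1 : 4 * (j * l) ≤ (j + l) * (j + l) := by
        zify
        nlinarith [sq_nonneg ((j : ℤ) - l)]
      rw [h2] at e1
      have e2 : (2 ^ n) ^ 2 = 2 ^ n * 2 ^ n := by ring
      have e3 : 2 ≤ 2 ^ n := by
        calc 2 = 2 ^ 1 := by norm_num
          _ ≤ 2 ^ n := Nat.pow_le_pow_right (by norm_num) hv
      nlinarith
    · right; right; omega
  · rcases le_total j l with h | h
    · left
      exact class_aux n v j l hj hv hge h h1 h2
    · right; left
      exact class_aux n v l j hl hv hge h (by rw [← h1]; ring) (by rw [← h2]; ring)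

end Pool.Agent.R496
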