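import Pool.Agent.R496.Quarter2

/-! Proper divisors of Fermat numbers. -/

set_option autoImplicit false

namespace Pool.Agent.R496

open Nat

lemma fermat_eq (m : ℕ) : Nat.fermatNumber m = 2 ^ 2 ^ m + 1 := rfl

/-- `2 ^ n + 1` is not a proper divisor of a Fermat number. -/
lemma not_pow_add_one_dvd (m n : ℕ) (hn : 1 ≤ n) (h : 2 ^ n + 1 ∣ Nat.fermatNumber m) :
    n = 2 ^ m := by
  rw [fermat_eq] at h
  set N := 2 ^ m with hN
  -- division of N by n
  have hdiv := Nat.div_add_mod N n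
  set q := N / n with hq
  set r := N % n with hr
  have hrn : r < n := Nat.mod_lt _ (by omega)
  have hcast : ((2 ^ N + 1 : ℤ)) ≡ (-1) ^ q * 2 ^ r + 1 [ZMOD (2 ^ n + 1)] := by
    apply Int.ModEq.add_right
    rw [← hdiv, pow_add, pow_mul]
    apply Int.ModEq.mul_right
    apply Int.ModEq.pow
    rw [Int.modEq_iff_dvd]
    exact ⟨-1, by ring⟩
  have h1 : (2 ^ n + 1 : ℤ) ∣ (-1) ^ q * 2 ^ r + 1 := by
    have h2 : (2 ^ n + 1 : ℤ) ∣ 2 ^ N + 1 := by exact_mod_cast h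
    exact (Int.ModEq.dvd_iff hcast).mp h2
  have h2r : (2 : ℤ) ^ r < 2 ^ n := pow_lt_pow_right₀ (by norm_num) hrn
  have h2r1 : (1 : ℤ) ≤ 2 ^ r := one_le_pow₀ (by norm_num)
  rcases Nat.even_or_odd q with he | ho
  · rw [he.neg_one_pow, one_mul] at h1
    have := Int.le_of_dvd (by linarith) h1
    linarith
  · rw [ho.neg_one_pow] at h1
    have h3 : (2 : ℤ) ^ r - 1 = 0 := by
      by_contra hne
      have h4 : (2 ^ n + 1 : ℤ) ∣ 2 ^ r - 1 := by
        have := dvd_neg.mpr h1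
        have e : -((-1 : ℤ) * 2 ^ r + 1) = 2 ^ r - 1 := by ring
        rwa [e] at this
      have h5 : (0 : ℤ) < 2 ^ r - 1 := lt_of_le_of_ne (by linarith) (Ne.symm hne)
      have := Int.le_of_dvd h5 h4
      linarith
    have hr0 : r = 0 := by
      by_contra hne
      have : (2 : ℤ) ^ 1 ≤ 2 ^ r := pow_le_pow_right₀ (by norm_num) (by omega)
      linarith
    rw [hr0, add_zero] at hdiv
    have hqd : q ∣ 2 ^ m := ⟨n, by rw [← hN, ← hdiv]; ring⟩
    obtain ⟨i, hi, hqi⟩ := (Nat.dvd_prime_pow Nat.prime_two).mp hqd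
    have hi0 : i = 0 := by
      by_contra hne
      rw [hqi] at ho
      have : Even (2 ^ i) := (even_two).pow_of_ne_zero hne
      exact (Nat.not_even_iff_odd.mpr ho) this
    rw [hqi, hi0, pow_zero, mul_one] at hdiv
    exact hdiv

/-- The shape of the factorisations of a Fermat number. -/
lemma split (m a b : ℕ) (hab : a * b = Nat.fermatNumber m) (ha : 1 < a) (hb : 1 < b) :
    ∃ n j l c : ℕ, Odd j ∧ Odd l ∧ Odd c ∧ 3 ≤ j ∧ 3 ≤ l ∧ 1 ≤ n ∧ 2 * n < 2 ^ m ∧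
      a = 1 + 2 ^ n * j ∧ b = 1 + 2 ^ n * l ∧
      c + j * l = 2 ^ (2 ^ m - 2 * n) ∧ j + l = c * 2 ^ n := by
  have hF := fermat_eq m
  obtain ⟨n, j, hj, hanj⟩ := Nat.exists_eq_two_pow_mul_odd (n := a - 1) (by omega)
  obtain ⟨n', l, hl, hbnl⟩ := Nat.exists_eq_two_pow_mul_odd (n := b - 1) (by omega)
  have ha' : a = 1 + 2 ^ n * j := by omega
  have hb' : b = 1 + 2 ^ n' * l := by omega
  have hmain : 2 ^ n * j + 2 ^ n' * l + 2 ^ n * j * (2 ^ n' * l) = 2 ^ 2 ^ m := by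
    have : a * b = 1 + (2 ^ n * j + 2 ^ n' * l + 2 ^ n * j * (2 ^ n' * l)) := by
      rw [ha', hb']; ring
    rw [hab, hF] at this
    omega
  have hm1 : 1 ≤ 2 ^ m := Nat.one_le_two_pow
  -- both exponents are positive
  have hjpos : 0 < j := hj.pos
  have hlpos : 0 < l := hl.pos
  have hodd : Odd a ∧ Odd b := by
    have : Odd (a * b) := by
      rw [hab, hF]
      exact Even.add_one ((even_two).pow_of_ne_zero (by omega))
    exact Nat.odd_mul.mp this
  have hn1 : 1 ≤ n := by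
    by_contra hc
    have : n = 0 := by omega
    rw [this, pow_zero, one_mul] at ha'
    obtain ⟨i, hi⟩ := hj
    obtain ⟨i', hi'⟩ := hodd.1
    omega
  have hn1' : 1 ≤ n' := by
    by_contra hc
    have : n' = 0 := by omega
    rw [this, pow_zero, one_mul] at hb'
    obtain ⟨i, hi⟩ := hl
    obtain ⟨i', hi'⟩ := hodd.2
    omega
  -- the exponents are equal
  have key : ∀ n n' j l : ℕ, Odd j → Odd l → 1 ≤ n →
      2 ^ n * j + 2 ^ n' * l + 2 ^ n * j * (2 ^ n' * l) = 2 ^ 2 ^ m → ¬ n < n' := by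
    intro n n' j l hj hl hn h hlt
    have hnm : n < 2 ^ m := by
      by_contra hc
      push Not at hc
      have h1 : 2 ^ 2 ^ m ≤ 2 ^ n := Nat.pow_le_pow_right (by norm_num) hc
      have h2 : 2 ^ n ≤ 2 ^ n * j := Nat.le_mul_of_pos_right _ hj.pos
      have h3 : 0 < 2 ^ n' * l := Nat.mul_pos (by positivity) hl.pos
      omega
    have h1 : 2 ^ (n + 1) ∣ 2 ^ n * j := by
      have e1 : 2 ^ (n + 1) ∣ 2 ^ 2 ^ m := pow_dvd_pow 2 (by omega)
      have e2 : 2 ^ (n + 1) ∣ 2 ^ n' * l := (pow_dvd_pow 2 (by omega)).mul_right l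
      have e3 : 2 ^ (n + 1) ∣ 2 ^ n * j * (2 ^ n' * l) := e2.mul_left _
      rw [← h] at e1
      exact (Nat.dvd_add_left e2).mp ((Nat.dvd_add_left e3).mp e1)
    rw [pow_succ] at h1
    have h2 : 2 ∣ j := Nat.dvd_of_mul_dvd_mul_left (by positivity) h1
    exact (Nat.not_even_iff_odd.mpr hj) (even_iff_two_dvd.mpr h2)
  have hnn : n = n' := by
    have h1 := key n n' j l hj hl hn1 hmain
    have h2 := key n' n l j hl hj hn1' (by rw [← hmain]; ring)
    omega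
  subst hnn
  -- 2 n < 2 ^ m
  have h2n : 2 * n < 2 ^ m := by
    by_contra hc
    push Not at hc
    have h1 : 2 ^ 2 ^ m ≤ 2 ^ (2 * n) := Nat.pow_le_pow_right (by norm_num) hc
    have h2 : 2 ^ (2 * n) = 2 ^ n * 2 ^ n := by rw [two_mul, pow_add]
    have h3 : 2 ^ n * 2 ^ n ≤ 2 ^ n * j * (2 ^ n * l) :=
      Nat.mul_le_mul (Nat.le_mul_of_pos_right _ hjpos) (Nat.le_mul_of_pos_right _ hlpos)
    have h4 : 0 < 2 ^ n * j := Nat.mul_pos (by positivity) hjpos
    omega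
  have h3 : 2 ^ 2 ^ m = 2 ^ n * (2 ^ n * 2 ^ (2 ^ m - 2 * n)) := by
    rw [← pow_add, ← pow_add]; congr 1; omega
  have h4 : j + l + 2 ^ n * (j * l) = 2 ^ n * 2 ^ (2 ^ m - 2 * n) := by
    have : 2 ^ n * (j + l + 2 ^ n * (j * l)) = 2 ^ n * (2 ^ n * 2 ^ (2 ^ m - 2 * n)) := by
      rw [← h3, ← hmain]; ring
    exact Nat.eq_of_mul_eq_mul_left (by positivity) this
  have h5 : 2 ^ n ∣ j + l := by
    have : 2 ^ n ∣ j + l + 2 ^ n * (j * l) := by rw [h4]; exact dvd_mul_right _ _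
    exact (Nat.dvd_add_left (dvd_mul_right _ _)).mp this
  obtain ⟨c, hc⟩ := h5
  have h6 : c + j * l = 2 ^ (2 ^ m - 2 * n) := by
    have : 2 ^ n * (c + j * l) = 2 ^ n * 2 ^ (2 ^ m - 2 * n) := by
      rw [← h4, hc]; ring
    exact Nat.eq_of_mul_eq_mul_left (by positivity) this
  have hcodd : Odd c := by
    rw [← Nat.not_even_iff_odd]
    intro he
    have : Even (c + j * l) := by
      rw [h6]
      exact (even_two).pow_of_ne_zero (by omega)
    have h7 : Even (j * l) := (Nat.even_add.mp this).mp he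
    exact (Nat.not_even_iff_odd.mpr (hj.mul hl)) h7
  have hthree : ∀ a j : ℕ, Odd j → a = 1 + 2 ^ n * j → a ∣ Nat.fermatNumber m → 3 ≤ j := by
    intro a j hj ha hd
    by_contra hlt
    have hj1 : j = 1 := by
      obtain ⟨i, hi⟩ := hj
      omega
    rw [hj1, mul_one, add_comm] at ha
    rw [ha] at hd
    have := not_pow_add_one_dvd m n hn1 hd
    omega
  refine ⟨n, j, l, c, hj, hl, hcodd, hthree a j hj ha' ⟨b, hab.symm⟩,
    hthree b l hl hb' ⟨a, by rw [← hab, mul_comm]⟩, hn1, h2n, ha', hb', h6, by rw [hc, mul_comm]⟩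

/-- In a nontrivial factorisation `a b` of the Fermat number `F_m`, `m ≥ 2`, the exponent of two in
`a - 1` is less than `2 ^ (m - 2)`. -/
lemma quarter (m n j l c : ℕ) (hm : 2 ≤ m) (hj : Odd j) (hl : Odd l) (hj3 : 3 ≤ j) (hl3 : 3 ≤ l)
    (h2n : 2 * n < 2 ^ m) (h1 : c + j * l = 2 ^ (2 ^ m - 2 * n)) (h2 : j + l = c * 2 ^ n) :
    n < 2 ^ (m - 2) := by
  by_contra hge
  push Not at hge
  have h4 : 2 ^ m = 4 * 2 ^ (m - 2) := by
    have : (4 : ℕ) = 2 ^ 2 := by norm_num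
    rw [this, ← pow_add]; congr 1; omega
  obtain ⟨v, hv⟩ : ∃ v, 2 ^ m - 2 * n = 2 * v := ⟨2 * 2 ^ (m - 2) - n, by omega⟩
  rw [hv, mul_comm 2 v, pow_mul] at h1
  have := class_main n v j l c hj hl (by omega) (by omega) h1 h2
  omega

theorem quarter_dvd (m : ℕ) (hm : 2 ≤ m) (d : ℕ) (hd : d ∣ Nat.fermatNumber m) (h1 : 1 < d)
    (h2 : d < Nat.fermatNumber m) : ¬ 2 ^ 2 ^ (m - 2) ∣ d - 1 := by
  obtain ⟨b, hb⟩ := hd
  have hb1 : 1 < b := by
    by_contra hc
    have : b = 0 ∨ b = 1 := by omega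
    rcases this with h | h
    · rw [h, mul_zero] at hb
      have := fermat_eq m
      omega
    · rw [h, mul_one] at hb
      omega
  obtain ⟨n, j, l, c, hj, hl, _, hj3, hl3, _, h2n, ha, _, h3, h4⟩ := split m d b hb.symm h1 hb1
  have hq := quarter m n j l c hm hj hl hj3 hl3 h2n h3 h4
  intro hdv
  have e : d - 1 = 2 ^ n * j := by omega
  rw [e] at hdv
  have h5 : 2 ^ (n + 1) ∣ 2 ^ n * j := (pow_dvd_pow 2 (by omega)).trans hdv
  rw [pow_succ] at h5
  have h6 : 2 ∣ j := Nat.dvd_of_mul_dvd_mul_left (by positivity) h5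
  exact (Nat.not_even_iff_odd.mpr hj) (even_iff_two_dvd.mpr h6)

end Pool.Agent.R496
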