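import Pool.Agent.R496.Gap1

/-! Divisors of Fermat numbers repel powers of two. -/

set_option autoImplicit false

namespace Pool.Agent.R496

/-- If `a` is a divisor of `F_m`, `a = u 2 ^ e + c`, and `q` is any natural number, then `a` divides
`2 ^ (e q - 2 ^ m) u ^ q + 2 ^ (2 ^ m - e q) (-c) ^ q` (truncated subtraction in the exponents). -/
lemma kraitchik (m a u e q : ℕ) (c : ℤ) (ha : a ∣ Nat.fermatNumber m)
    (h : (a : ℤ) = u * 2 ^ e + c) :
    (a : ℤ) ∣ 2 ^ (e * q - 2 ^ m) * u ^ q + 2 ^ (2 ^ m - e * q) * (-c) ^ q := by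
  rw [fermat_eq] at ha
  have h1 : (a : ℤ) ∣ 2 ^ 2 ^ m + 1 := by exact_mod_cast ha
  set N := 2 ^ m with hN
  have h3 : (a : ℤ) ∣ (u * 2 ^ e) ^ q - (-c) ^ q := by
    have := sub_dvd_pow_sub_pow ((u : ℤ) * 2 ^ e) (-c) q
    rw [h]
    have h4 : (u : ℤ) * 2 ^ e + c = u * 2 ^ e - -c := by ring
    rw [h4]
    exact this
  have key : (2 : ℤ) ^ (e * q - N) * u ^ q + 2 ^ (N - e * q) * (-c) ^ q =
      2 ^ (e * q - N) * u ^ q * (2 ^ N + 1) - 2 ^ (N - e * q) * ((u * 2 ^ e) ^ q - (-c) ^ q) := by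
    have e1 : (2 : ℤ) ^ (e * q - N) * 2 ^ N = 2 ^ (N - e * q) * 2 ^ (e * q) := by
      rw [← pow_add, ← pow_add]
      congr 1
      omega
    have e2 : (2 : ℤ) ^ (e * q) = (2 ^ e) ^ q := pow_mul 2 e q
    rw [mul_pow]
    linear_combination (-(u : ℤ) ^ q) * e1 - (2 : ℤ) ^ (N - e * q) * u ^ q * e2
  rw [key]
  exact dvd_sub (h1.mul_left _) (h3.mul_left _)

/-- The number in the last lemma is not zero when the divisor is proper. -/
lemma kraitchik_ne (m a u e q : ℕ) (c : ℤ) (ha : a ∣ Nat.fermatNumber m)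
    (h2 : a < Nat.fermatNumber m) (he : 1 ≤ e)
    (h : (a : ℤ) = u * 2 ^ e + c) :
    (2 : ℤ) ^ (e * q - 2 ^ m) * u ^ q + 2 ^ (2 ^ m - e * q) * (-c) ^ q ≠ 0 := by
  intro h0
  have haodd : Odd a := by
    have h3 : Odd (Nat.fermatNumber m) := Nat.odd_fermatNumber m
    exact Odd.of_dvd_nat h3 ha
  have hcodd : Odd c := by
    have h3 : Odd (a : ℤ) := by exact_mod_cast haodd
    rw [h, Int.odd_add] at h3
    have h4 : Even ((u : ℤ) * 2 ^ e) := by
      apply Even.mul_left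
      exact (even_two).pow_of_ne_zero (by omega)
    by_contra h5
    rw [Int.not_odd_iff_even] at h5
    exact (Int.not_odd_iff_even.mpr h4) (h3.mpr h5)
  have hc0 : c ≠ 0 := by
    rintro rfl
    simp at hcodd
  have hu0 : (0 : ℤ) ≤ 2 ^ (e * q - 2 ^ m) * (u : ℤ) ^ q := by positivity
  -- the second term is negative
  have h3 : (-c) ^ q ≤ 0 := by
    by_contra hlt
    push Not at hlt
    have : (0 : ℤ) < 2 ^ (2 ^ m - e * q) * (-c) ^ q := by positivity
    linarith
  have hqodd : Odd q := by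
    by_contra h4
    rw [Nat.not_odd_iff_even] at h4
    have : 0 < (-c) ^ q := h4.pow_pos (by simpa using hc0)
    linarith
  have hcpos : 0 < c := by
    rw [hqodd.neg_pow] at h3
    have h4 : 0 ≤ c ^ q := by linarith
    have h5 := (hqodd.pow_nonneg_iff).mp h4
    exact lt_of_le_of_ne h5 hc0.symm
  obtain ⟨d, rfl⟩ : ∃ d : ℕ, c = d := ⟨c.toNat, (Int.toNat_of_nonneg hcpos.le).symm⟩
  have hdodd : Odd d := by exact_mod_cast hcodd
  have h4 : 2 ^ (e * q - 2 ^ m) * u ^ q = 2 ^ (2 ^ m - e * q) * d ^ q := by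
    rw [hqodd.neg_pow] at h0
    have : (2 : ℤ) ^ (e * q - 2 ^ m) * u ^ q = 2 ^ (2 ^ m - e * q) * d ^ q := by linarith
    exact_mod_cast this
  have hdpos : 0 < d := hdodd.pos
  have hu : u ≠ 0 := by
    rintro rfl
    rw [zero_pow (by rcases hqodd with ⟨t, rfl⟩; omega), mul_zero] at h4
    have : 0 < 2 ^ (2 ^ m - e * q) * d ^ q := by positivity
    omega
  obtain ⟨s, u', hu', hus⟩ := Nat.exists_eq_two_pow_mul_odd hu
  have h5 : 2 ^ (e * q - 2 ^ m + s * q) * u' ^ q = 2 ^ (2 ^ m - e * q) * d ^ q := by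
    rw [← h4, hus, mul_pow, ← pow_mul, pow_add]
    ring
  have h6 : Odd (u' ^ q) := hu'.pow
  have h7 : Odd (d ^ q) := hdodd.pow
  have huniq : ∀ (x y A B : ℕ), Odd A → Odd B → 2 ^ x * A = 2 ^ y * B → x = y ∧ A = B := by
    intro x y A B hA hB hxy
    have hx : x = y := by
      rcases lt_trichotomy x y with hl | hl | hl
      · exfalso
        obtain ⟨t, rfl⟩ : ∃ t, y = x + (t + 1) := ⟨y - x - 1, by omega⟩
        rw [pow_add, mul_assoc] at hxy
        have := Nat.eq_of_mul_eq_mul_left (by positivity) hxy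
        rw [this, pow_succ] at hA
        have h8 : Even (2 ^ t * 2 * B) := ⟨2 ^ t * B, by ring⟩
        exact (Nat.not_even_iff_odd.mpr hA) h8
      · exact hl
      · exfalso
        obtain ⟨t, rfl⟩ : ∃ t, x = y + (t + 1) := ⟨x - y - 1, by omega⟩
        rw [pow_add, mul_assoc] at hxy
        have := Nat.eq_of_mul_eq_mul_left (by positivity) hxy
        rw [← this, pow_succ] at hB
        have h8 : Even (2 ^ t * 2 * A) := ⟨2 ^ t * A, by ring⟩
        exact (Nat.not_even_iff_odd.mpr hB) h8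
    subst hx
    exact ⟨rfl, Nat.eq_of_mul_eq_mul_left (by positivity) hxy⟩
  obtain ⟨h8, h9⟩ := huniq _ _ _ _ h6 h7 h5
  have h10 : u' = d := Nat.pow_left_injective (by rcases hqodd with ⟨t, rfl⟩; omega) h9
  have h11 : a = d * (2 ^ (s + e) + 1) := by
    have : (a : ℤ) = d * (2 ^ (s + e) + 1) := by
      rw [h, hus, h10, pow_add]
      push_cast
      ring
    exact_mod_cast this
  have h12 : 2 ^ (s + e) + 1 ∣ Nat.fermatNumber m := (Dvd.intro_left d h11.symm).trans ha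
  have h13 := not_pow_add_one_dvd m (s + e) (by omega) h12
  rw [h13, ← fermat_eq] at h11
  have : Nat.fermatNumber m ≤ d * Nat.fermatNumber m := Nat.le_mul_of_pos_left _ hdpos
  omega

/-- The inequality of Euler and Kraitchik. -/
lemma kraitchik_le (m a u e q : ℕ) (c : ℤ) (ha : a ∣ Nat.fermatNumber m)
    (h2 : a < Nat.fermatNumber m) (he : 1 ≤ e)
    (h : (a : ℤ) = u * 2 ^ e + c) :
    (a : ℤ) ≤ 2 ^ (e * q - 2 ^ m) * u ^ q + 2 ^ (2 ^ m - e * q) * |c| ^ q := by
  have h3 := kraitchik m a u e q c ha h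
  have h4 := kraitchik_ne m a u e q c ha h2 he h
  have h5 : (a : ℤ) ≤ |2 ^ (e * q - 2 ^ m) * (u : ℤ) ^ q + 2 ^ (2 ^ m - e * q) * (-c) ^ q| :=
    Int.le_of_dvd (abs_pos.mpr h4) ((dvd_abs _ _).mpr h3)
  refine h5.trans ((abs_add_le _ _).trans ?_)
  rw [abs_mul, abs_mul, abs_pow, abs_pow, abs_pow, abs_pow, abs_neg]
  simp

/-- Proper divisors of `F_m` are not close to powers of two. -/
lemma near_two_pow (m a e : ℕ) (ha : a ∣ Nat.fermatNumber m) (h1 : 1 < a)
    (h2 : a < Nat.fermatNumber m) :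
    (2 : ℤ) ^ (e * (e - 2)) ≤ |(a : ℤ) - 2 ^ e| ^ (2 ^ m + e) := by
  rcases Nat.eq_zero_or_pos e with rfl | he
  · simp only [Nat.zero_mul, pow_zero, Nat.add_zero]
    apply one_le_pow₀
    rw [abs_of_nonneg (by have : (1 : ℤ) < a := by exact_mod_cast h1
                          linarith)]
    have : (1 : ℤ) < a := by exact_mod_cast h1
    linarith
  set N := 2 ^ m with hN
  have hNpos : 0 < N := by positivity
  set Q := (N + e - 1) / e with hQ
  have hQ1 : e * Q ≤ N + e - 1 := Nat.mul_div_le _ _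
  have hQ2 : N ≤ e * Q := by
    have h3 := Nat.div_add_mod (N + e - 1) e
    have h4 := Nat.mod_lt (N + e - 1) he
    rw [← hQ] at h3
    omega
  have hc := kraitchik_le m a 1 e Q ((a : ℤ) - 2 ^ e) ha h2 he (by push_cast; ring)
  rw [← hN] at hc
  have h3 : N - e * Q = 0 := by omega
  rw [h3, pow_zero, one_mul, Nat.cast_one, one_pow, mul_one] at hc
  set c := |(a : ℤ) - 2 ^ e| with hcdef
  have hc0 : 0 ≤ c := abs_nonneg _
  have hc1 : 1 ≤ c := by
    have hne : (a : ℤ) - 2 ^ e ≠ 0 := by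
      intro h4
      have h5 : a = 2 ^ e := by
        have : (a : ℤ) = 2 ^ e := by linarith
        exact_mod_cast this
      have haodd : Odd a := Odd.of_dvd_nat (Nat.odd_fermatNumber m) ha
      rw [h5] at haodd
      exact (Nat.not_even_iff_odd.mpr haodd) ((even_two).pow_of_ne_zero (by omega))
    exact Int.one_le_abs hne
  have hQpos : 1 ≤ Q := by
    rcases Nat.eq_zero_or_pos Q with h4 | h4
    · rw [h4] at hQ2
      omega
    · exact h4
  have h5 : (2 : ℤ) ^ (e * Q - N) ≤ 2 ^ (e - 1) := pow_le_pow_right₀ (by norm_num) (by omega)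
  have h6 : (2 : ℤ) ^ e = 2 * 2 ^ (e - 1) := by
    rw [← pow_succ']
    congr 1
    omega
  have h7 : (2 : ℤ) ^ e - c ≤ a := by
    have := neg_abs_le ((a : ℤ) - 2 ^ e)
    rw [← hcdef] at this
    linarith
  have h8 : c ≤ c ^ Q := le_self_pow₀ hc1 (by omega)
  have h9 : (2 : ℤ) ^ (e - 1) ≤ 2 * c ^ Q := by linarith
  have h10 : (2 : ℤ) ^ (e - 2) ≤ c ^ Q := by
    rcases Nat.lt_or_ge e 2 with h11 | h11
    · have : e - 2 = 0 := by omega
      rw [this, pow_zero]
      exact one_le_pow₀ hc1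
    · have h12 : (2 : ℤ) ^ (e - 1) = 2 * 2 ^ (e - 2) := by
        rw [← pow_succ']
        congr 1
        omega
      linarith
  calc (2 : ℤ) ^ (e * (e - 2)) = (2 ^ (e - 2)) ^ e := by rw [← pow_mul, mul_comm]
    _ ≤ (c ^ Q) ^ e := pow_le_pow_left₀ (by positivity) h10 e
    _ = c ^ (e * Q) := by rw [← pow_mul, mul_comm]
    _ ≤ c ^ (N + e) := pow_le_pow_right₀ hc1 (by omega)

end Pool.Agent.R496
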