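import Pool.Agent.R496.Repel

/-! Complementary divisors of a Fermat number are not close to each other. -/

set_option autoImplicit false

namespace Pool.Agent.R496

lemma modEq_one_of_dvd (m a : ℕ) (hm : 2 ≤ m) (h : a ∣ Nat.fermatNumber m) :
    a ≡ 1 [MOD 2 ^ (m + 2)] := by
  induction a using Nat.recOnMul with
  | zero =>
    rw [zero_dvd_iff, fermat_eq] at h
    exact absurd h (Nat.succ_ne_zero _)
  | one => rfl
  | prime p hp =>
    obtain ⟨k, hk⟩ := Nat.fermat_primeFactors_one_lt m p (by omega) hp h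
    rw [hk]
    have : k * 2 ^ (m + 2) + 1 ≡ 0 + 1 [MOD 2 ^ (m + 2)] :=
      Nat.ModEq.add_right _ ((Nat.modEq_zero_iff_dvd).mpr (Dvd.intro_left k rfl))
    simp only [Nat.zero_add] at this
    exact this
  | mul x y hx hy =>
    have h1 := hx ((Dvd.intro y rfl).trans h)
    have h2 := hy ((Dvd.intro_left x rfl).trans h)
    simpa using h1.mul h2

lemma gap_factors (m a b : ℕ) (hm : 2 ≤ m) (hab : a * b = Nat.fermatNumber m) (ha : 1 < a)
    (hlt : a < b) : a + 2 ^ (2 ^ (m - 2) + m + 3) ≤ b := by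
  obtain ⟨n, j, l, c, hj, hl, hc, hj3, hl3, hn1, h2n, ha', hb', h3, h4⟩ :=
    split m a b hab ha (by omega)
  have hq := quarter m n j l c hm hj hl hj3 hl3 h2n h3 h4
  have hF := fermat_eq m
  have hmod := modEq_one_of_dvd m a hm ⟨b, hab.symm⟩
  have hn : m + 2 ≤ n := by
    have h5 : 2 ^ (m + 2) ∣ a - 1 := (Nat.modEq_iff_dvd' (by omega)).mp hmod.symm
    have h6 : a - 1 = 2 ^ n * j := by omega
    rw [h6] at h5
    by_contra hlt2
    push Not at hlt2
    obtain ⟨t, ht⟩ : ∃ t, m + 2 = n + (t + 1) := ⟨m + 2 - n - 1, by omega⟩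
    rw [ht, pow_add] at h5
    have h7 := Nat.dvd_of_mul_dvd_mul_left (by positivity) h5
    rw [pow_succ] at h7
    have h8 : 2 ∣ j := (Dvd.intro_left _ rfl).trans h7
    obtain ⟨i, hi⟩ := hj
    omega
  have hm4 : 2 ^ m = 4 * 2 ^ (m - 2) := by
    have : (4 : ℕ) = 2 ^ 2 := by norm_num
    rw [this, ← pow_add]; congr 1; omega
  set M := 2 ^ (m - 2) with hM
  set G := 2 ^ M with hG
  have hFG : Nat.fermatNumber m = (G ^ 2) ^ 2 + 1 := by
    rw [hF, hm4, hG]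
    rw [← pow_mul, ← pow_mul]
    congr 2
    ring
  set T := 2 ^ n with hT
  have hT2 : 2 ≤ T := by
    rw [hT]
    calc 2 = 2 ^ 1 := by norm_num
      _ ≤ 2 ^ n := Nat.pow_le_pow_right (by norm_num) (by omega)
  obtain ⟨h, hh⟩ : ∃ h, G ^ 2 = T ^ 2 * h := by
    refine ⟨2 ^ (2 * M - 2 * n), ?_⟩
    rw [hG, hT, ← pow_mul, ← pow_mul, ← pow_add]
    congr 1
    omega
  -- the sum
  have hs : a + b = 2 + T ^ 2 * c := by
    rw [ha', hb']
    calc 1 + T * j + (1 + T * l) = 2 + T * (j + l) := by ring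
      _ = 2 + T * (c * T) := by rw [h4]
      _ = 2 + T ^ 2 * c := by ring
  obtain ⟨d, rfl⟩ := Nat.exists_eq_add_of_lt hlt
  have hsq : (2 + T ^ 2 * c) ^ 2 = (d + 1) ^ 2 + 4 * (T ^ 2 * h) ^ 2 + 4 := by
    rw [← hs]
    have : a * (a + d + 1) = (T ^ 2 * h) ^ 2 + 1 := by rw [hab, hFG, hh]
    calc (a + (a + d + 1)) ^ 2 = (d + 1) ^ 2 + 4 * (a * (a + d + 1)) := by ring
      _ = _ := by rw [this]; ring
  have h5 : 2 * h < c := by
    have h6 : 2 * (T ^ 2 * h) < 2 + T ^ 2 * c := by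
      by_contra hle
      push Not at hle
      have := Nat.pow_le_pow_left hle 2
      nlinarith
    have h7 : 2 * h ≤ c := by
      by_contra hle
      push Not at hle
      have h8 : T ^ 2 * (c + 1) ≤ T ^ 2 * (2 * h) := Nat.mul_le_mul_left _ hle
      nlinarith
    have h9 : c ≠ 2 * h := by
      obtain ⟨i, hi⟩ := hc
      omega
    omega
  have h6 : 2 * (T ^ 2 * h) + T ^ 2 + 2 ≤ 2 + T ^ 2 * c := by
    have : T ^ 2 * (2 * h + 1) ≤ T ^ 2 * c := Nat.mul_le_mul_left _ h5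
    nlinarith
  have h7 := Nat.pow_le_pow_left h6 2
  rw [hsq] at h7
  have h8 : (2 * G * T) ^ 2 ≤ (d + 1) ^ 2 := by
    have h9 : (2 * G * T) ^ 2 = 4 * (T ^ 2 * h) * T ^ 2 := by
      rw [← hh]; ring
    rw [h9]
    nlinarith [Nat.zero_le (T ^ 2 * h), Nat.zero_le (T ^ 2)]
  have h9 : 2 * G * T ≤ d + 1 := (Nat.pow_le_pow_iff_left (by norm_num)).mp h8
  have h10 : 2 ^ (M + m + 3) ≤ 2 * G * T := by
    rw [hG, hT]
    calc 2 ^ (M + m + 3) = 2 * 2 ^ M * 2 ^ (m + 2) := by ring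
      _ ≤ 2 * 2 ^ M * 2 ^ n := Nat.mul_le_mul_left _ (Nat.pow_le_pow_right (by norm_num) hn)
  omega

end Pool.Agent.R496
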