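import Pool.Agent.H379R2.W.Smooth
import Pool.Agent.Helper923.HMertens

/-! Lower bound for the number of `y`-smooth numbers up to `y ^ j`, uniform in `j`. -/

set_option autoImplicit false

namespace Pool.Agent.R496

open Finset Real

open Classical in
/-- the `y`-smooth numbers in `[1, N]` -/
noncomputable def ysm (y N : ℕ) : Finset ℕ :=
  (Icc 1 N).filter (fun m => ∀ p : ℕ, p.Prime → p ∣ m → p ≤ y)

open Classical in
lemma mem_ysm {y N m : ℕ} : m ∈ ysm y N ↔ (1 ≤ m ∧ m ≤ N) ∧ ∀ p : ℕ, p.Prime → p ∣ m → p ≤ y := by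
  rw [ysm, mem_filter, mem_Icc]

/-- primes in `(a, y]` -/
def prI (a y : ℕ) : Finset ℕ := (Ioc a y).filter Nat.Prime

lemma mem_prI {a y p : ℕ} : p ∈ prI a y ↔ (a < p ∧ p ≤ y) ∧ p.Prime := by
  rw [prI, mem_filter, mem_Ioc]

/-- At most `j` primes `p` with `p ^ (2 j) > y ^ (2 j - 1)` divide a positive integer `m ≤ y ^ j`. -/
lemma few_large (y a j m : ℕ) (hj : 1 ≤ j) (hy : 2 ≤ y) (ha : y ^ (2 * j - 1) < (a + 1) ^ (2 * j))
    (hm : 1 ≤ m) (hmy : m ≤ y ^ j) : ((prI a y).filter (fun p => p ∣ m)).card ≤ j := by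
  by_contra hcon
  push Not at hcon
  obtain ⟨S, hS, hSc⟩ := Finset.exists_subset_card_eq (show j + 1 ≤ _ from hcon)
  have hprime : ∀ p ∈ S, p.Prime := by
    intro p hp
    have := hS hp
    rw [mem_filter, mem_prI] at this
    exact this.1.2
  have h1 : (∏ p ∈ S, p) ∣ m := by
    apply Finset.prod_primes_dvd
    · intro p hp
      exact (hprime p hp).prime
    · intro p hp
      have := hS hp
      rw [mem_filter] at this
      exact this.2
  have h2 : (∏ p ∈ S, p) ≤ y ^ j := (Nat.le_of_dvd hm h1).trans hmy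
  have h3 : (a + 1) ^ (j + 1) ≤ ∏ p ∈ S, p := by
    rw [← hSc]
    apply Finset.pow_card_le_prod
    intro p hp
    have := hS hp
    rw [mem_filter, mem_prI] at this
    exact this.1.1.1
  have h4 : ((a + 1) ^ (2 * j)) ^ (j + 1) ≤ y ^ (2 * j * j) := by
    calc ((a + 1) ^ (2 * j)) ^ (j + 1) = ((a + 1) ^ (j + 1)) ^ (2 * j) := by
          rw [← pow_mul, ← pow_mul, mul_comm]
      _ ≤ (y ^ j) ^ (2 * j) := Nat.pow_le_pow_left (h3.trans h2) _
      _ = y ^ (2 * j * j) := by rw [← pow_mul]; congr 1; ring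
  have h5 : (y ^ (2 * j - 1)) ^ (j + 1) < ((a + 1) ^ (2 * j)) ^ (j + 1) :=
    Nat.pow_lt_pow_left ha (by omega)
  have h6 : y ^ (2 * j * j) ≤ (y ^ (2 * j - 1)) ^ (j + 1) := by
    rw [← pow_mul]
    apply Nat.pow_le_pow_right (by omega)
    obtain ⟨i, rfl⟩ : ∃ i, j = i + 1 := ⟨j - 1, by omega⟩
    have : 2 * (i + 1) - 1 = 2 * i + 1 := by omega
    rw [this]
    nlinarith
  omega

/-- The products of `j` primes from `(a, y]` and a small number. -/
lemma smooth_mid (y a j : ℕ) (hj : 1 ≤ j) (hy : 2 ≤ y) (ha : y ^ (2 * j - 1) < (a + 1) ^ (2 * j)) :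
    (y : ℝ) ^ j * (∑ p ∈ prI a y, 1 / (p : ℝ)) ^ j ≤ 2 * (j : ℝ) ^ j * (ysm y (y ^ j)).card := by
  classical
  set P := prI a y with hP
  have hPpos : ∀ p ∈ P, 0 < p := fun p hp => (mem_prI.mp hp).2.pos
  set T := Fintype.piFinset (fun _ : Fin j => P) with hT
  have hTprod : ∀ t ∈ T, 1 ≤ ∏ i, t i ∧ ∏ i, t i ≤ y ^ j := by
    intro t ht
    rw [hT, Fintype.mem_piFinset] at ht
    constructor
    · exact Finset.prod_pos fun i _ => hPpos _ (ht i)
    · calc ∏ i, t i ≤ ∏ _i : Fin j, y := Finset.prod_le_prod' fun i _ => (mem_prI.mp (ht i)).1.2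
        _ = y ^ j := by simp
  -- the domain
  set D := T.sigma (fun t => Icc 1 (y ^ j / ∏ i, t i)) with hD
  set g : (Σ _ : (Fin j → ℕ), ℕ) → ℕ := fun w => (∏ i, w.1 i) * w.2 with hg
  have himg : D.image g ⊆ ysm y (y ^ j) := by
    intro m hm
    rw [mem_image] at hm
    obtain ⟨⟨t, s⟩, hw, rfl⟩ := hm
    rw [hD, mem_sigma] at hw
    obtain ⟨ht, hs⟩ := hw
    rw [mem_Icc] at hs
    simp only at hs ht
    obtain ⟨h1, h2⟩ := hTprod t ht
    have h3 : (∏ i, t i) * s ≤ y ^ j := by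
      have := Nat.mul_le_mul_left (∏ i, t i) hs.2
      exact this.trans (Nat.mul_div_le _ _)
    rw [mem_ysm]
    refine ⟨⟨Nat.mul_pos h1 hs.1, h3⟩, ?_⟩
    -- s ≤ y
    have hsy : s ≤ y := by
      have h4 : (a + 1) ^ j ≤ ∏ i, t i := by
        rw [hT, Fintype.mem_piFinset] at ht
        calc (a + 1) ^ j = ∏ _i : Fin j, (a + 1) := by simp
          _ ≤ ∏ i, t i := Finset.prod_le_prod' fun i _ => (mem_prI.mp (ht i)).1.1
      have h5 : (y ^ (2 * j - 1)) ^ j * s ^ (2 * j) ≤ y ^ (2 * j * j) := by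
        calc (y ^ (2 * j - 1)) ^ j * s ^ (2 * j) ≤ ((a + 1) ^ (2 * j)) ^ j * s ^ (2 * j) :=
              Nat.mul_le_mul_right _ (Nat.pow_le_pow_left ha.le _)
          _ = ((a + 1) ^ j * s) ^ (2 * j) := by
              rw [mul_pow, ← pow_mul, ← pow_mul, mul_comm (2 * j) j]
          _ ≤ ((∏ i, t i) * s) ^ (2 * j) :=
              Nat.pow_le_pow_left (Nat.mul_le_mul_right _ h4) _
          _ ≤ (y ^ j) ^ (2 * j) := Nat.pow_le_pow_left h3 _
          _ = y ^ (2 * j * j) := by rw [← pow_mul]; congr 1; ring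
      have h6 : y ^ (2 * j * j) = (y ^ (2 * j - 1)) ^ j * y ^ j := by
        rw [← pow_mul, ← pow_add]
        congr 1
        obtain ⟨i, rfl⟩ : ∃ i, j = i + 1 := ⟨j - 1, by omega⟩
        have : 2 * (i + 1) - 1 = 2 * i + 1 := by omega
        rw [this]
        ring
      rw [h6] at h5
      have h7 := Nat.le_of_mul_le_mul_left h5 (by positivity)
      have h8 : (s ^ 2) ^ j ≤ y ^ j := by
        rw [← pow_mul]
        exact h7
      have h9 : s ^ 2 ≤ y := (Nat.pow_le_pow_iff_left (by omega)).mp h8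
      nlinarith [hs.1]
    intro p hp hpd
    rcases (Nat.Prime.dvd_mul hp).mp hpd with h | h
    · obtain ⟨i, _, hi⟩ := (Prime.dvd_finsetProd_iff hp.prime _).mp h
      rw [hT, Fintype.mem_piFinset] at ht
      have h4 := mem_prI.mp (ht i)
      rw [(Nat.prime_dvd_prime_iff_eq hp h4.2).mp hi]
      exact h4.1.2
    · exact (Nat.le_of_dvd hs.1 h).trans hsy
  -- the fibres
  have hfib : ∀ m ∈ D.image g, (D.filter (fun w => g w = m)).card ≤ j ^ j := by
    intro m hm
    have hm' := mem_ysm.mp (himg hm)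
    set L := P.filter (fun p => p ∣ m) with hL
    have hLc : L.card ≤ j := few_large y a j m hj hy ha hm'.1.1 hm'.1.2
    have hinj : ((D.filter (fun w => g w = m)).image (fun w => w.1)).card =
        (D.filter (fun w => g w = m)).card := by
      apply card_image_of_injOn
      intro w hw w' hw' hww
      rw [mem_coe, mem_filter] at hw hw'
      obtain ⟨t, s⟩ := w
      obtain ⟨t', s'⟩ := w'
      simp only at hww
      subst hww
      have h1 : (∏ i, t i) * s = (∏ i, t i) * s' := hw.2.trans hw'.2.symm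
      rw [hD, mem_sigma] at hw
      have h2 := (hTprod t hw.1.1).1
      have h3 := Nat.eq_of_mul_eq_mul_left h2 h1
      rw [h3]
    rw [← hinj]
    have hsub : (D.filter (fun w => g w = m)).image (fun w => w.1) ⊆
        Fintype.piFinset (fun _ : Fin j => L) := by
      intro t ht
      rw [mem_image] at ht
      obtain ⟨⟨t', s⟩, hw, rfl⟩ := ht
      rw [mem_filter, hD, mem_sigma] at hw
      rw [Fintype.mem_piFinset]
      intro i
      rw [hL, mem_filter]
      have h1 := hw.1.1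
      rw [hT, Fintype.mem_piFinset] at h1
      refine ⟨h1 i, ?_⟩
      rw [← hw.2]
      exact (Finset.dvd_prod_of_mem t' (mem_univ i)).mul_right s
    refine (card_le_card hsub).trans ?_
    rw [Fintype.card_piFinset]
    simp only [prod_const, card_univ, Fintype.card_fin]
    exact Nat.pow_le_pow_left hLc j
  have hcount := card_le_mul_card_image D (j ^ j) hfib
  have hcard : D.card ≤ j ^ j * (ysm y (y ^ j)).card :=
    hcount.trans (Nat.mul_le_mul_left _ (card_le_card himg))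
  have hDc : D.card = ∑ t ∈ T, y ^ j / ∏ i, t i := by
    rw [hD, card_sigma]
    apply sum_congr rfl
    intro t _
    simp
  have hlow : (y : ℝ) ^ j * (∑ p ∈ P, 1 / (p : ℝ)) ^ j ≤ 2 * (D.card : ℝ) := by
    have e1 : (∑ p ∈ P, 1 / (p : ℝ)) ^ j = ∑ t ∈ T, ∏ i, (1 / ((t i : ℕ) : ℝ)) := by
      have := Finset.prod_univ_sum (fun _ : Fin j => P) (fun _ p => 1 / (p : ℝ))
      rw [← hT] at this
      rw [← this]
      simp
    rw [e1, mul_sum, hDc]
    push_cast
    rw [mul_sum]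
    apply sum_le_sum
    intro t ht
    obtain ⟨h1, h2⟩ := hTprod t ht
    have h3 : y ^ j < (∏ i, t i) * (y ^ j / ∏ i, t i + 1) := Nat.lt_mul_div_succ _ h1
    have h4 : 1 ≤ y ^ j / ∏ i, t i := (Nat.one_le_div_iff h1).mpr h2
    have e2 : ∏ i, (1 / ((t i : ℕ) : ℝ)) = 1 / ((∏ i, t i : ℕ) : ℝ) := by
      push_cast
      rw [Finset.prod_div_distrib]
      simp
    rw [e2]
    have h5 : (0 : ℝ) < ((∏ i, t i : ℕ) : ℝ) := by exact_mod_cast h1
    rw [mul_one_div, div_le_iff₀ h5]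
    have h6 : ((y ^ j : ℕ) : ℝ) < ((∏ i, t i : ℕ) : ℝ) * (((y ^ j / ∏ i, t i : ℕ) : ℝ) + 1) := by
      exact_mod_cast h3
    have h7 : (1 : ℝ) ≤ ((y ^ j / ∏ i, t i : ℕ) : ℝ) := by exact_mod_cast h4
    push_cast at h6 h7 ⊢
    have h8 : (0 : ℝ) < ∏ i, ((t i : ℕ) : ℝ) := by exact_mod_cast h1
    nlinarith
  have hcard' : (D.card : ℝ) ≤ (j : ℝ) ^ j * (ysm y (y ^ j)).card := by exact_mod_cast hcard
  linarith

end Pool.Agent.R496
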