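import Pool.Agent.R496.Sm1

/-! Lower bound for the number of `y`-smooth numbers up to `y ^ j`, uniform in `j`. -/

set_option autoImplicit false

namespace Pool.Agent.R496

open Finset Real

open Pool.Agent.H379R2.W (pr prods card_prods prods_spec mem_pr card_pr primeCounting_low)

/-- products of `j` different primes -/
lemma smooth_prods (y j : ℕ) (hj : 1 ≤ j) (z : ℝ) (hz : 4 ≤ z) (hzy : z ^ 4 = y) (hjz : (j : ℝ) ≤ z) :
    (y : ℝ) ^ j ≤ (ysm y (y ^ j)).card * (4 * j * log y) ^ j := by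
  have hy256 : (256 : ℝ) ≤ y := by
    rw [← hzy]
    calc (256 : ℝ) = 4 ^ 4 := by norm_num
      _ ≤ z ^ 4 := by gcongr
  have hy0 : (0 : ℝ) < y := by linarith
  have hlog : log y ≤ 4 * z := by
    rw [← hzy, log_pow]
    push_cast
    have := log_le_self (show (0 : ℝ) ≤ z by linarith)
    linarith
  have hlog1 : 1 ≤ log (y : ℝ) := by
    rw [le_log_iff_exp_le hy0]
    linarith [exp_one_lt_d9]
  set N := Nat.primeCounting y with hN
  have h1 : (y : ℝ) / 2 ≤ N * log y := by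
    have h2 := primeCounting_low (y := y)
    rw [← hN] at h2
    have h3 : log ((y : ℝ) + 1) ≤ 4 * (z + 1) := by
      have h4 : (y : ℝ) + 1 ≤ (z + 1) ^ 4 := by
        rw [← hzy]
        have : 0 < z := by linarith
        nlinarith [pow_pos this 3, pow_pos this 2]
      have h5 := log_le_log (by positivity) h4
      rw [log_pow] at h5
      push_cast at h5
      have := log_le_self (show (0 : ℝ) ≤ z + 1 by linarith)
      linarith
    have h4 : (0.69 : ℝ) ≤ log 2 := by linarith [log_two_gt_d9]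
    have h5 : 0.19 * (y : ℝ) ≥ 4 * (z + 1) := by
      rw [← hzy]
      have hz2 : 64 * z ≤ z ^ 4 := by
        have : (4 : ℝ) ^ 3 ≤ z ^ 3 := by gcongr
        nlinarith
      linarith
    nlinarith
  have h2 : 2 * (j : ℝ) ≤ N := by
    have h3 : z ^ 4 / 2 ≤ N * (4 * z) := by
      rw [hzy]
      exact h1.trans (mul_le_mul_of_nonneg_left hlog (by positivity))
    have h4 : z ^ 3 ≤ 8 * N := by
      have hzp : 0 < z := by linarith
      by_contra hc
      push Not at hc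
      have : 8 * (N : ℝ) * z < z ^ 3 * z := mul_lt_mul_of_pos_right hc hzp
      nlinarith
    have h5 : 16 * z ≤ z ^ 3 := by
      have : (4 : ℝ) ^ 2 ≤ z ^ 2 := by gcongr
      nlinarith
    linarith
  have h2' : 2 * j ≤ N := by exact_mod_cast h2
  have hA : ∀ p ∈ pr y, p.Prime := fun p hp => (mem_pr.mp hp).1
  have hAy : ∀ p ∈ pr y, p ≤ y := fun p hp => (mem_pr.mp hp).2
  have hsub : prods (pr y) j ⊆ ysm y (y ^ j) := by
    intro s hs
    obtain ⟨a1, a2, a3, _, _⟩ := prods_spec hA hAy hs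
    rw [mem_ysm]
    refine ⟨⟨a1, a2⟩, fun p hp hps => ?_⟩
    exact hAy p (a3 (Nat.mem_primeFactors.mpr ⟨hp, hps, by omega⟩))
  have hcard := card_le_card hsub
  rw [card_prods hA, card_pr, ← hN] at hcard
  have hch := Nat.pow_le_choose j N (α := ℝ)
  have hfac : ((j.factorial : ℕ) : ℝ) ≤ (j : ℝ) ^ j := by exact_mod_cast Nat.factorial_le_pow j
  have hNj : (N : ℝ) / 2 ≤ ((N + 1 - j : ℕ) : ℝ) := by
    rw [Nat.cast_sub (by omega)]
    push_cast
    linarith
  have hj0 : (0 : ℝ) < j := by exact_mod_cast hj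
  have h3 : ((N : ℝ) / 2) ^ j ≤ (ysm y (y ^ j)).card * (j : ℝ) ^ j := by
    have hf0 : (0 : ℝ) < (j.factorial : ℕ) := by positivity
    rw [div_le_iff₀ hf0] at hch
    calc ((N : ℝ) / 2) ^ j ≤ ((N + 1 - j : ℕ) : ℝ) ^ j := by gcongr
      _ ≤ (N.choose j : ℝ) * (j.factorial : ℕ) := hch
      _ ≤ (ysm y (y ^ j)).card * (j : ℝ) ^ j := by
          apply mul_le_mul (by exact_mod_cast hcard) hfac (by positivity) (by positivity)
  calc (y : ℝ) ^ j ≤ (((N : ℝ) / 2) * (4 * log y)) ^ j := by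
        apply pow_le_pow_left₀ hy0.le
        linarith
    _ = ((N : ℝ) / 2) ^ j * (4 * log y) ^ j := mul_pow _ _ _
    _ ≤ ((ysm y (y ^ j)).card * (j : ℝ) ^ j) * (4 * log y) ^ j := by gcongr
    _ = (ysm y (y ^ j)).card * (4 * j * log y) ^ j := by
        rw [mul_assoc, ← mul_pow]
        congr 2
        ring

/-- few prime factors, from Mertens' theorem -/
lemma smooth_mert : ∃ C : ℝ, 1 ≤ C ∧ ∀ y j : ℕ, 1 ≤ j → 256 ≤ y → 16 * C * j ≤ log y →
    (y : ℝ) ^ j ≤ (ysm y (y ^ j)).card * (8 * (j : ℝ) ^ 2) ^ j := by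
  obtain ⟨C, hC0, hC⟩ := Pool.Agent.Helper923.HMertens.mertens_ratio
  refine ⟨C + 1, by linarith, fun y j hj hy hlog => ?_⟩
  have hy0 : (0 : ℝ) < y := by exact_mod_cast (by omega : 0 < y)
  have hy1 : (256 : ℝ) ≤ y := by exact_mod_cast hy
  have hj1 : (1 : ℝ) ≤ j := by exact_mod_cast hj
  have hj0 : (0 : ℝ) < j := by linarith
  set e : ℝ := 1 - 1 / (2 * j) with he
  have he1 : 1 / 2 ≤ e := by
    rw [he]
    have : 1 / (2 * (j : ℝ)) ≤ 1 / 2 := by
      apply one_div_le_one_div_of_le <;> linarith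
    linarith
  have he2 : e < 1 := by
    rw [he]
    have : 0 < 1 / (2 * (j : ℝ)) := by positivity
    linarith
  set a : ℕ := ⌊(y : ℝ) ^ e⌋₊ with ha
  have ha1 : (a : ℝ) ≤ (y : ℝ) ^ e := Nat.floor_le (by positivity)
  have ha2 : (y : ℝ) ^ e < a + 1 := Nat.lt_floor_add_one _
  have hpow : y ^ (2 * j - 1) < (a + 1) ^ (2 * j) := by
    have h1 : ((y : ℝ) ^ e) ^ (2 * j) < ((a : ℝ) + 1) ^ (2 * j) := by
      apply pow_lt_pow_left₀ ha2 (by positivity) (by omega)
    have h2 : ((y : ℝ) ^ e) ^ (2 * j) = (y : ℝ) ^ (2 * j - 1) := by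
      rw [← rpow_natCast, ← rpow_mul hy0.le, ← rpow_natCast (y : ℝ) (2 * j - 1)]
      congr 1
      rw [Nat.cast_sub (by omega), he]
      push_cast
      field_simp
    rw [h2] at h1
    exact_mod_cast h1
  have hmid := smooth_mid y a j hj (by omega) hpow
  have h16 : (16 : ℝ) ≤ (y : ℝ) ^ e := by
    calc (16 : ℝ) = (256 : ℝ) ^ (1 / 2 : ℝ) := by
          rw [← sqrt_eq_rpow]
          rw [show (256 : ℝ) = 16 ^ 2 by norm_num, sqrt_sq (by norm_num)]
      _ ≤ (y : ℝ) ^ (1 / 2 : ℝ) := rpow_le_rpow (by norm_num) hy1 (by norm_num)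
      _ ≤ (y : ℝ) ^ e := rpow_le_rpow_of_exponent_le (by linarith) he1
  have ha15 : (15 : ℝ) < a := by linarith
  have ha15' : 15 < a := by exact_mod_cast ha15
  have hay : a ≤ y := by
    have h1 : (a : ℝ) ≤ y := by
      refine ha1.trans ?_
      calc (y : ℝ) ^ e ≤ (y : ℝ) ^ (1 : ℝ) := rpow_le_rpow_of_exponent_le (by linarith) he2.le
        _ = y := rpow_one _
    exact_mod_cast h1
  have hlog0 : 0 < log (y : ℝ) := log_pos (by linarith)
  have hla : 0 < log (a : ℝ) := log_pos (by linarith)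
  have hla1 : log (a : ℝ) ≤ e * log y := by
    have := log_le_log (by linarith) ha1
    rwa [log_rpow hy0] at this
  have hla2 : log (y : ℝ) / 4 ≤ log a := by
    have h1 : (y : ℝ) ^ (1 / 4 : ℝ) ≤ a := by
      have h2 : (y : ℝ) ^ (1 / 2 : ℝ) < a + 1 :=
        (rpow_le_rpow_of_exponent_le (by linarith) he1).trans_lt ha2
      have h3 : (y : ℝ) ^ (1 / 2 : ℝ) = ((y : ℝ) ^ (1 / 4 : ℝ)) ^ 2 := by
        rw [← rpow_natCast, ← rpow_mul hy0.le]
        norm_num
      have h4 : (0 : ℝ) < (y : ℝ) ^ (1 / 4 : ℝ) := by positivity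
      rw [h3] at h2
      have h5 : (4 : ℝ) ≤ (y : ℝ) ^ (1 / 4 : ℝ) := by
        calc (4 : ℝ) = (256 : ℝ) ^ (1 / 4 : ℝ) := by
              rw [show (256 : ℝ) = 4 ^ (4 : ℝ) by norm_num, ← rpow_mul (by norm_num)]
              norm_num
          _ ≤ (y : ℝ) ^ (1 / 4 : ℝ) := rpow_le_rpow (by norm_num) hy1 (by norm_num)
      nlinarith
    have h2 := log_le_log (by positivity) h1
    rw [log_rpow hy0] at h2
    linarith
  have hM := (abs_le.mp (hC a y (by omega) hay)).1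
  have hratio : 1 / (2 * (j : ℝ)) ≤ log (log y / log a) := by
    have h1 := one_sub_inv_le_log_of_pos (div_pos hlog0 hla)
    rw [inv_div] at h1
    have h2 : log (a : ℝ) / log y ≤ e := by
      rw [div_le_iff₀ hlog0]; exact hla1
    rw [he] at h2
    linarith
  have hS : 1 / (4 * (j : ℝ)) ≤ ∑ p ∈ prI a y, 1 / (p : ℝ) := by
    have h1 : C / log (a : ℝ) ≤ 4 * C / log y := by
      rw [div_le_div_iff₀ hla hlog0]
      nlinarith
    have h2 : 4 * C / log y ≤ 1 / (4 * j) := by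
      rw [div_le_div_iff₀ hlog0 (by positivity)]
      nlinarith
    have h3 : 1 / (2 * (j : ℝ)) = 1 / (4 * j) + 1 / (4 * j) := by
      field_simp
      norm_num
    have h4 : ∑ p ∈ (Ioc a y).filter Nat.Prime, (1 : ℝ) / p = ∑ p ∈ prI a y, 1 / (p : ℝ) := rfl
    rw [h4] at hM
    linarith
  have h1 : (y : ℝ) ^ j * (1 / (4 * (j : ℝ))) ^ j ≤ 2 * (j : ℝ) ^ j * (ysm y (y ^ j)).card := by
    refine le_trans ?_ hmid
    gcongr
  have h2 : (y : ℝ) ^ j ≤ 2 * (4 * (j : ℝ) ^ 2) ^ j * (ysm y (y ^ j)).card := by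
    have h3 : (y : ℝ) ^ j = (y : ℝ) ^ j * (1 / (4 * (j : ℝ))) ^ j * (4 * j) ^ j := by
      rw [mul_assoc, ← mul_pow]
      have : 1 / (4 * (j : ℝ)) * (4 * j) = 1 := by field_simp
      rw [this, one_pow, mul_one]
    rw [h3]
    calc (y : ℝ) ^ j * (1 / (4 * (j : ℝ))) ^ j * (4 * j) ^ j ≤
        (2 * (j : ℝ) ^ j * (ysm y (y ^ j)).card) * (4 * j) ^ j := by gcongr
      _ = 2 * (4 * (j : ℝ) ^ 2) ^ j * (ysm y (y ^ j)).card := by
          have : (4 * (j : ℝ) ^ 2) ^ j = (j : ℝ) ^ j * (4 * j) ^ j := by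
            rw [← mul_pow]; congr 1; ring
          rw [this]; ring
  refine h2.trans ?_
  have h3 : (2 : ℝ) * (4 * (j : ℝ) ^ 2) ^ j ≤ (8 * (j : ℝ) ^ 2) ^ j := by
    have h4 : (8 * (j : ℝ) ^ 2) ^ j = 2 ^ j * (4 * (j : ℝ) ^ 2) ^ j := by
      rw [← mul_pow]; congr 1; ring
    rw [h4]
    have h5 : (2 : ℝ) ≤ 2 ^ j := by
      calc (2 : ℝ) = 2 ^ 1 := by norm_num
        _ ≤ 2 ^ j := pow_le_pow_right₀ (by norm_num) hj
    gcongr
  calc 2 * (4 * (j : ℝ) ^ 2) ^ j * (ysm y (y ^ j)).card ≤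
      (8 * (j : ℝ) ^ 2) ^ j * (ysm y (y ^ j)).card := by gcongr
    _ = _ := mul_comm _ _

/-- Lower bound for the number of `y`-smooth numbers up to `y ^ j`, uniform in `j`. -/
theorem smooth_low : ∃ K : ℝ, 8 ≤ K ∧ ∀ y j : ℕ, 1 ≤ j → 256 ≤ y → j ^ 4 ≤ y →
    (y : ℝ) ^ j ≤ (ysm y (y ^ j)).card * (K * (j : ℝ) ^ 2) ^ j := by
  obtain ⟨C, hC1, hC⟩ := smooth_mert
  refine ⟨8 + 64 * C, by linarith, fun y j hj hy hjy => ?_⟩
  have hj1 : (1 : ℝ) ≤ j := by exact_mod_cast hj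
  have hy1 : (256 : ℝ) ≤ y := by exact_mod_cast hy
  by_cases h : 16 * C * j ≤ log y
  · refine (hC y j hj hy h).trans ?_
    gcongr
    linarith
  · push Not at h
    set z : ℝ := (y : ℝ) ^ (1 / 4 : ℝ) with hz
    have hzy : z ^ 4 = y := by
      rw [hz, ← rpow_natCast, ← rpow_mul (by positivity)]
      norm_num
    have hz0 : 0 < z := by positivity
    have hz4 : 4 ≤ z := by
      by_contra hc
      push Not at hc
      have : z ^ 4 < 4 ^ 4 := pow_lt_pow_left₀ hc hz0.le (by norm_num)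
      rw [hzy] at this
      linarith
    have hjz : (j : ℝ) ≤ z := by
      by_contra hc
      push Not at hc
      have h1 : z ^ 4 < (j : ℝ) ^ 4 := pow_lt_pow_left₀ hc hz0.le (by norm_num)
      rw [hzy] at h1
      have h2 : ((j ^ 4 : ℕ) : ℝ) ≤ y := by exact_mod_cast hjy
      push_cast at h2
      linarith
    refine (smooth_prods y j hj z hz4 hzy hjz).trans ?_
    have hlog0 : 0 ≤ log (y : ℝ) := log_nonneg (by linarith)
    have h3 : 4 * (j : ℝ) * log y ≤ (8 + 64 * C) * (j : ℝ) ^ 2 := by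
      have h4 : 4 * (j : ℝ) * log y ≤ 4 * (j : ℝ) * (16 * C * j) :=
        mul_le_mul_of_nonneg_left h.le (by positivity)
      nlinarith [sq_nonneg (j : ℝ)]
    exact mul_le_mul_of_nonneg_left (pow_le_pow_left₀ (by positivity) h3 j) (by positivity)

end Pool.Agent.R496
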