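import Pool.Agent.R496.Cnt
import Pool.Agent.H379R2.W.Group

/-! Smooth numbers have a small witness. -/

set_option autoImplicit false

namespace Pool.Agent.R496

open Finset Real

open Pool.Agent.H379R2.W (Passes pow_of_passes_dvd pow_eq_one_of_primes liars liars_sq
  not_dvd_of_passes)

/-- An integer that passes the test for all small bases is not divisible by the square of a prime
which is not too large. -/
lemma no_square : ∃ K : ℝ, 8 ≤ K ∧ ∀ n y p : ℕ, 2 ≤ n → 256 ≤ y → p.Prime → p ^ 2 ∣ n →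
    (Nat.log y (p ^ 2)) ^ 4 ≤ y → (K * (Nat.log y (p ^ 2) : ℝ) ^ 2) ^ 8 ≤ y →
    (∀ b : ℕ, 1 < b → b ≤ y → Passes n b) → False := by
  obtain ⟨K, hK8, hK⟩ := smooth_low
  refine ⟨K, hK8, fun n y p hn hy hp hpn hj4 hjK hpass => ?_⟩
  have hpn1 : p ∣ n := (dvd_pow_self p two_ne_zero).trans hpn
  have hyp : y < p := by
    by_contra hc
    push Not at hc
    exact not_dvd_of_passes hn hp hpn1 (hpass p hp.one_lt hc) dvd_rfl
  set j := Nat.log y (p ^ 2) with hj
  have hp2 : p ^ 2 ≠ 0 := by have := hp.pos; positivity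
  have h1 : y ^ j ≤ p ^ 2 := Nat.pow_log_le_self y hp2
  have h2 : p ^ 2 < y ^ (j + 1) := Nat.lt_pow_succ_log_self (by omega) _
  have hj2 : 2 ≤ j := by
    rw [hj]
    apply Nat.le_log_of_pow_le (by omega)
    exact Nat.pow_le_pow_left hyp.le 2
  have hlow := hK y j (by omega) hy hj4
  have hNZ : NeZero (p ^ 2) := ⟨hp2⟩
  -- smooth numbers are solutions
  have hcard : (ysm y (y ^ j)).card ≤ liars n (p ^ 2) := by
    have hmem : ∀ s ∈ ysm y (y ^ j), (s : ZMod (p ^ 2)) ^ (n - 1) = 1 := by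
      intro s hs
      rw [mem_ysm] at hs
      refine pow_eq_one_of_primes s hs.1.1 fun q hq hqs => ?_
      exact pow_of_passes_dvd (hpass q hq.one_lt (hs.2 q hq hqs)) hpn
    unfold liars
    have hinj : Function.Injective (fun s : ysm y (y ^ j) => (⟨((s : ℕ) : ZMod (p ^ 2)), hmem s s.2⟩ :
        {z : ZMod (p ^ 2) // z ^ (n - 1) = 1})) := by
      intro s s' hss
      have h3 : ((s : ℕ) : ZMod (p ^ 2)) = ((s' : ℕ) : ZMod (p ^ 2)) := congrArg Subtype.val hss
      rw [ZMod.natCast_eq_natCast_iff] at h3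
      obtain ⟨⟨a1, a2⟩, _⟩ := mem_ysm.mp s.2
      obtain ⟨⟨b1, b2⟩, _⟩ := mem_ysm.mp s'.2
      apply Subtype.ext
      have h4 : ((s : ℕ) - 1) ≡ ((s' : ℕ) - 1) [MOD (p ^ 2)] := by
        have e1 : (s : ℕ) = ((s : ℕ) - 1) + 1 := by omega
        have e2 : (s' : ℕ) = ((s' : ℕ) - 1) + 1 := by omega
        rw [e1, e2] at h3
        exact Nat.ModEq.add_right_cancel' 1 h3
      have h5 := Nat.ModEq.eq_of_lt_of_lt h4 (by omega) (by omega)
      omega
    have h3 := Nat.card_le_card_of_injective _ hinj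
    rw [Nat.card_eq_fintype_card, Fintype.card_coe] at h3
    exact h3
  have hcard2 := hcard.trans (liars_sq hn hp hpn1)
  have hcard3 : ((ysm y (y ^ j)).card : ℝ) < p := by
    have : (ysm y (y ^ j)).card < p := by
      have := hp.pos
      omega
    exact_mod_cast this
  have hy0 : (0 : ℝ) < y := by exact_mod_cast (by omega : 0 < y)
  have hy1 : (1 : ℝ) ≤ y := by exact_mod_cast (by omega : 1 ≤ y)
  have hp0 : (0 : ℝ) < p := by exact_mod_cast hp.pos
  -- 16th powers
  have h3 : (y : ℝ) ^ j < p * (K * (j : ℝ) ^ 2) ^ j := by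
    refine hlow.trans_lt ?_
    have hj0 : (0 : ℝ) < j := by exact_mod_cast (by omega : 0 < j)
    have : 0 < (K * (j : ℝ) ^ 2) ^ j := by positivity
    exact mul_lt_mul_of_pos_right hcard3 this
  have h4 : ((y : ℝ) ^ j) ^ 8 < (p * (K * (j : ℝ) ^ 2) ^ j) ^ 8 :=
    pow_lt_pow_left₀ h3 (by positivity) (by norm_num)
  have h5 : (p * (K * (j : ℝ) ^ 2) ^ j) ^ 8 ≤ (y : ℝ) ^ (4 * (j + 1)) * (y : ℝ) ^ j := by
    rw [mul_pow]
    have e1 : (p : ℝ) ^ 8 ≤ (y : ℝ) ^ (4 * (j + 1)) := by
      have h6 : (p : ℝ) ^ 2 ≤ (y : ℝ) ^ (j + 1) := by exact_mod_cast h2.le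
      calc (p : ℝ) ^ 8 = ((p : ℝ) ^ 2) ^ 4 := by ring
        _ ≤ ((y : ℝ) ^ (j + 1)) ^ 4 := pow_le_pow_left₀ (by positivity) h6 4
        _ = (y : ℝ) ^ (4 * (j + 1)) := by rw [← pow_mul, mul_comm]
    have e2 : ((K * (j : ℝ) ^ 2) ^ j) ^ 8 ≤ (y : ℝ) ^ j := by
      calc ((K * (j : ℝ) ^ 2) ^ j) ^ 8 = ((K * (j : ℝ) ^ 2) ^ 8) ^ j := by
            rw [← pow_mul, ← pow_mul, mul_comm j 8]
        _ ≤ (y : ℝ) ^ j := pow_le_pow_left₀ (by positivity) hjK j
    exact mul_le_mul e1 e2 (by positivity) (by positivity)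
  have h6 : (y : ℝ) ^ (4 * (j + 1)) * (y : ℝ) ^ j ≤ ((y : ℝ) ^ j) ^ 8 := by
    rw [← pow_add, ← pow_mul]
    apply pow_le_pow_right₀ hy1
    omega
  linarith

/-- the bound for the prime factors -/
noncomputable def smb (c : ℝ) (n : ℕ) : ℝ :=
  exp (c * (log (log n)) ^ 2 / log (log (log n)))

theorem smooth_witness (A : ℝ) (hA : 0 < A) : ∃ c : ℝ, 0 < c ∧ ∃ n0 : ℕ, ∀ n : ℕ, n0 ≤ n →
    (∀ p : ℕ, p.Prime → p ∣ n → (p : ℝ) ≤ smb c n) →
      ∃ b : ℕ, 1 < b ∧ (b : ℝ) ≤ (log n) ^ A ∧ ¬ Passes n b := by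
  obtain ⟨C0, hC0, hU⟩ := uniform
  obtain ⟨K, hK8, hsq⟩ := no_square
  set C : ℝ := max C0 1 with hC
  have hC1 : 1 ≤ C := le_max_right _ _
  have hCC : C0 ≤ C := le_max_left _ _
  have hCpos : 0 < C := by linarith
  refine ⟨A / (8 * C), by positivity, ?_⟩
  -- eventual conditions in `L = log log n`
  have hev : ∀ᶠ L : ℝ in Filter.atTop, 8 ≤ L ∧ 256 + 1 ≤ exp (A * L / 2) ∧
      C * log L ≤ L / 4 ∧ A / (8 * C) * L ^ 2 < exp (L / 2) ∧ (K * L ^ 2) ^ 8 ≤ exp (A * L / 2) ∧
      L ^ 4 ≤ exp (A * L / 2) := by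
    have t0 : Filter.Tendsto (fun L : ℝ => A * L / 2) Filter.atTop Filter.atTop := by
      have : (fun L : ℝ => A * L / 2) = fun L => (A / 2) * L := by ext L; ring
      rw [this]
      exact Filter.tendsto_id.const_mul_atTop (by positivity)
    have t1 : Filter.Tendsto (fun L : ℝ => exp (A * L / 2)) Filter.atTop Filter.atTop :=
      tendsto_exp_atTop.comp t0
    have e1 : ∀ᶠ L : ℝ in Filter.atTop, ‖log L‖ ≤ 1 / (4 * C) * ‖id L‖ :=
      isLittleO_log_id_atTop.def (by positivity)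
    have e2 : ∀ᶠ L : ℝ in Filter.atTop, ‖L ^ 2‖ ≤ (4 * C / A) * ‖exp ((1 / 2) * L)‖ :=
      (isLittleO_pow_exp_pos_mul_atTop 2 (by norm_num : (0 : ℝ) < 1 / 2)).def (by positivity)
    have e3 : ∀ᶠ L : ℝ in Filter.atTop, ‖L ^ 16‖ ≤ (1 / K ^ 8) * ‖exp ((A / 2) * L)‖ :=
      (isLittleO_pow_exp_pos_mul_atTop 16 (by positivity : (0 : ℝ) < A / 2)).def (by positivity)
    have e4 : ∀ᶠ L : ℝ in Filter.atTop, ‖L ^ 4‖ ≤ 1 * ‖exp ((A / 2) * L)‖ :=
      (isLittleO_pow_exp_pos_mul_atTop 4 (by positivity : (0 : ℝ) < A / 2)).def (by positivity)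
    filter_upwards [Filter.eventually_ge_atTop 8, t1.eventually (Filter.eventually_ge_atTop 257), e1,
      e2, e3, e4] with L a1 a2 a3 a4 a5 a6
    have hL0 : 0 < L := by linarith
    refine ⟨a1, by linarith, ?_, ?_, ?_, ?_⟩
    · rw [norm_of_nonneg (log_nonneg (by linarith)), id, norm_of_nonneg hL0.le] at a3
      calc C * log L ≤ C * (1 / (4 * C) * L) := mul_le_mul_of_nonneg_left a3 hCpos.le
        _ = L / 4 := by field_simp
    · rw [norm_of_nonneg (by positivity), norm_of_nonneg (by positivity)] at a4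
      have e5 : (1 / 2 : ℝ) * L = L / 2 := by ring
      rw [e5] at a4
      have h3 : A / (8 * C) * L ^ 2 ≤ A / (8 * C) * (4 * C / A * exp (L / 2)) :=
        mul_le_mul_of_nonneg_left a4 (by positivity)
      have h4 : A / (8 * C) * (4 * C / A * exp (L / 2)) = exp (L / 2) / 2 := by
        field_simp
        norm_num
      have h5 : 0 < exp (L / 2) := exp_pos _
      linarith
    · rw [norm_of_nonneg (by positivity), norm_of_nonneg (by positivity)] at a5
      have e5 : (A / 2 : ℝ) * L = A * L / 2 := by ring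
      rw [e5] at a5
      have hK0 : 0 < K := by linarith
      calc (K * L ^ 2) ^ 8 = K ^ 8 * L ^ 16 := by ring
        _ ≤ K ^ 8 * (1 / K ^ 8 * exp (A * L / 2)) := by gcongr
        _ = exp (A * L / 2) := by field_simp
    · rw [norm_of_nonneg (by positivity), norm_of_nonneg (by positivity), one_mul] at a6
      have e5 : (A / 2 : ℝ) * L = A * L / 2 := by ring
      rwa [e5] at a6
  obtain ⟨L0, hL0⟩ := Filter.eventually_atTop.mp hev
  refine ⟨max 3 ⌈exp (exp L0)⌉₊, fun n hn hsm => ?_⟩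
  have hn3 : 3 ≤ n := (le_max_left _ _).trans hn
  have hnL : exp (exp L0) ≤ n := by
    have h1 : ⌈exp (exp L0)⌉₊ ≤ n := (le_max_right _ _).trans hn
    exact Nat.ceil_le.mp h1
  have hn0 : (0 : ℝ) < n := by exact_mod_cast (by omega : 0 < n)
  have hlogn : exp L0 ≤ log n := (le_log_iff_exp_le hn0).mpr hnL
  have hlogn0 : 0 < log (n : ℝ) := (exp_pos _).trans_le hlogn
  set L : ℝ := log (log n) with hL
  have hLL0 : L0 ≤ L := (le_log_iff_exp_le hlogn0).mpr hlogn
  obtain ⟨c1, c2, c3, c4, c5, c6⟩ := hL0 L hLL0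
  have hexpL : exp L = log n := exp_log hlogn0
  by_contra hno
  push Not at hno
  set y : ℕ := ⌊(log (n : ℝ)) ^ A⌋₊ with hy
  have hyA : (log (n : ℝ)) ^ A = exp (A * L) := by
    rw [← hexpL, ← exp_mul, mul_comm]
  have hyle : (y : ℝ) ≤ (log (n : ℝ)) ^ A := Nat.floor_le (by positivity)
  have hylt : (log (n : ℝ)) ^ A < y + 1 := Nat.lt_floor_add_one _
  have hpass : ∀ b : ℕ, 1 < b → b ≤ y → Passes n b := by
    intro b hb1 hb2
    exact hno b hb1 (le_trans (by exact_mod_cast hb2) hyle)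
  set E := exp (A * L / 2) with hE
  have hEE : exp (A * L) = E * E := by
    rw [hE, ← exp_add]
    congr 1
    ring
  have hyE : E ≤ y := by
    rw [hyA, hEE] at hylt
    nlinarith
  have hy256 : 256 ≤ y := by
    have : (256 : ℝ) ≤ y := by linarith
    exact_mod_cast this
  have hy0 : (0 : ℝ) < y := by linarith
  have hlogy : A * L / 2 ≤ log y := (le_log_iff_exp_le hy0).mpr hyE
  have hAL : 0 < A * L / 2 := by positivity
  -- log L
  have hLL1 : 1 ≤ log L := by
    rw [le_log_iff_exp_le (by linarith)]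
    linarith [exp_one_lt_d9]
  set c := A / (8 * C) with hc
  have hcpos : 0 < c := by rw [hc]; positivity
  set u : ℝ := 1 + L / (4 * C * log L) with hu
  have hupos : 0 ≤ L / (4 * C * log L) := by positivity
  have hu1 : 1 ≤ u := by linarith
  have hQu : smb c n ≤ (y : ℝ) ^ u := by
    rw [rpow_def_of_pos hy0]
    apply exp_le_exp.mpr
    have h1 : c * L ^ 2 / log L = A * L / 2 * (L / (4 * C * log L)) := by
      rw [hc]
      field_simp
      norm_num
    rw [h1]
    apply mul_le_mul hlogy _ hupos (by linarith)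
    linarith
  -- the number of prime factors
  have hcount := hU n y (by omega) (by omega) hpass u hu1
  have hall : pfac n ((y : ℝ) ^ u) = n.primeFactors := by
    ext p
    rw [mem_pfac]
    constructor
    · exact fun h => h.1
    · intro h
      exact ⟨h, (hsm p (Nat.prime_of_mem_primeFactors h) (Nat.dvd_of_mem_primeFactors h)).trans hQu⟩
  rw [hall] at hcount
  have hexp1 : C0 * (u * log (u + 1)) ≤ L / 2 := by
    have h1 : log (u + 1) ≤ log L := by
      apply log_le_log (by linarith)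
      have h2 : L / (4 * C * log L) ≤ L / 4 := by
        apply div_le_div_of_nonneg_left (by linarith) (by norm_num)
        nlinarith
      linarith
    have h0 : 0 ≤ log (u + 1) := log_nonneg (by linarith)
    have h2 : u * log (u + 1) ≤ u * log L := mul_le_mul_of_nonneg_left h1 (by linarith)
    have h3 : C0 * (u * log (u + 1)) ≤ C * (u * log L) := by
      apply mul_le_mul hCC h2 (by positivity) hCpos.le
    have h4 : C * (u * log L) = C * log L + L / 4 := by
      rw [hu]
      field_simp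
    linarith
  have hom : (n.primeFactors.card : ℝ) ≤ exp (L / 2) := hcount.trans (exp_le_exp.mpr hexp1)
  -- squarefree
  have hsqf : Squarefree n := by
    rw [Nat.squarefree_iff_prime_squarefree]
    intro p hp hpp
    have hpn : p ^ 2 ∣ n := by rw [sq]; exact hpp
    have hpn1 : p ∣ n := (dvd_mul_right p p).trans hpp
    have hpQ := hsm p hp hpn1
    have hp0 : (0 : ℝ) < p := by exact_mod_cast hp.pos
    set j := Nat.log y (p ^ 2) with hj
    have h1 : y ^ j ≤ p ^ 2 := Nat.pow_log_le_self y (by have := hp.pos; positivity)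
    have h2 : (j : ℝ) * log y ≤ 2 * log p := by
      have h3 : ((y : ℝ)) ^ j ≤ (p : ℝ) ^ 2 := by exact_mod_cast h1
      have h4 := log_le_log (by positivity) h3
      rw [log_pow, log_pow] at h4
      push_cast at h4
      exact h4
    have h3 : log (p : ℝ) ≤ A * L / 2 * (L / (4 * C * log L)) := by
      have h4 := log_le_log hp0 hpQ
      have h5 : log (smb c n) = A * L / 2 * (L / (4 * C * log L)) := by
        unfold smb
        rw [log_exp, ← hL, hc]
        field_simp
        norm_num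
      rwa [h5] at h4
    have h4 : (j : ℝ) ≤ L := by
      have h5 : L / (4 * C * log L) ≤ L / 4 := by
        apply div_le_div_of_nonneg_left (by linarith) (by norm_num)
        nlinarith
      have h6 : (j : ℝ) * (A * L / 2) ≤ 2 * (A * L / 2 * (L / 4)) := by
        calc (j : ℝ) * (A * L / 2) ≤ j * log y := mul_le_mul_of_nonneg_left hlogy (by positivity)
          _ ≤ 2 * log p := h2
          _ ≤ 2 * (A * L / 2 * (L / (4 * C * log L))) := by linarith
          _ ≤ 2 * (A * L / 2 * (L / 4)) := by gcongr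
      have h7 : (j : ℝ) * (A * L / 2) ≤ (L / 2) * (A * L / 2) := by linarith
      have h8 := le_of_mul_le_mul_right h7 hAL
      linarith
    refine hsq n y p (by omega) hy256 hp hpn ?_ ?_ hpass
    · have h5 : (j : ℝ) ^ 4 ≤ y := by
        calc (j : ℝ) ^ 4 ≤ L ^ 4 := by gcongr
          _ ≤ E := c6
          _ ≤ y := hyE
      exact_mod_cast h5
    · calc (K * (j : ℝ) ^ 2) ^ 8 ≤ (K * L ^ 2) ^ 8 := by gcongr
        _ ≤ E := c5
        _ ≤ y := hyE
  -- size of n
  have hprod := Nat.prod_primeFactors_of_squarefree hsqf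
  have hsize : log (n : ℝ) ≤ n.primeFactors.card * (c * L ^ 2 / log L) := by
    have h1 : (n : ℝ) = ∏ p ∈ n.primeFactors, (p : ℝ) := by
      rw [← Nat.cast_prod, hprod]
    have h2 : log (n : ℝ) = ∑ p ∈ n.primeFactors, log (p : ℝ) := by
      rw [h1, log_prod]
      intro p hp
      have := (Nat.prime_of_mem_primeFactors hp).pos
      positivity
    rw [h2, ← nsmul_eq_mul]
    apply sum_le_card_nsmul
    intro p hp
    have hpp := Nat.prime_of_mem_primeFactors hp
    have h3 := log_le_log (by exact_mod_cast hpp.pos) (hsm p hpp (Nat.dvd_of_mem_primeFactors hp))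
    unfold smb at h3
    rw [log_exp] at h3
    exact h3
  have h1 : c * L ^ 2 / log L ≤ c * L ^ 2 := div_le_self (by positivity) hLL1
  have h2 : log (n : ℝ) ≤ exp (L / 2) * (c * L ^ 2) := by
    refine hsize.trans ?_
    exact mul_le_mul hom h1 (by positivity) (by positivity)
  have h3 : exp (L / 2) * (c * L ^ 2) < exp (L / 2) * exp (L / 2) :=
    mul_lt_mul_of_pos_left c4 (exp_pos _)
  have h4 : exp (L / 2) * exp (L / 2) = log n := by
    rw [← exp_add, ← hexpL]
    congr 1
    ring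
  linarith

end Pool.Agent.R496
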