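import Pool.Agent.R496.Quarter3

/-! Binary weights of the factors of Fermat numbers. -/

set_option autoImplicit false

namespace Pool.Agent.R496

/-- the number of ones in the binary expansion of `n` -/
def wt (n : ℕ) : ℕ := (Nat.digits 2 n).sum

lemma wt_zero : wt 0 = 0 := by simp [wt]

lemma wt_two_mul (x : ℕ) : wt (2 * x) = wt x := by
  rcases Nat.eq_zero_or_pos x with h | h
  · subst h; rfl
  · unfold wt
    rw [Nat.digits_def' (by norm_num) (by omega)]
    simp

lemma wt_two_mul_add_one (x : ℕ) : wt (2 * x + 1) = wt x + 1 := by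
  unfold wt
  rw [Nat.digits_def' (by norm_num) (by omega)]
  have h1 : (2 * x + 1) % 2 = 1 := by omega
  have h2 : (2 * x + 1) / 2 = x := by omega
  rw [h1, h2, List.sum_cons, add_comm]

lemma wt_pow_mul (n x : ℕ) : wt (2 ^ n * x) = wt x := by
  induction n with
  | zero => simp
  | succ n ih => rw [pow_succ', mul_assoc, wt_two_mul, ih]

lemma wt_one_add (n x : ℕ) (hn : 1 ≤ n) : wt (1 + 2 ^ n * x) = wt x + 1 := by
  obtain ⟨k, rfl⟩ : ∃ k, n = k + 1 := ⟨n - 1, by omega⟩
  rw [pow_succ', mul_assoc, add_comm, wt_two_mul_add_one, wt_pow_mul]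

/-- A multiset of exponents for the binary expansion. -/
lemma exists_bits (x : ℕ) : ∃ J : Multiset ℕ, (J.map (fun i => 2 ^ i)).sum = x ∧ J.card = wt x ∧
    (Odd x → 0 ∈ J) := by
  induction x using Nat.strong_induction_on with
  | _ x ih =>
    rcases Nat.even_or_odd' x with ⟨y, hy | hy⟩
    · rcases Nat.eq_zero_or_pos y with h0 | h0
      · refine ⟨0, ?_, ?_, ?_⟩
        · simp [hy, h0]
        · rw [hy, h0]; simp [wt_zero]
        · intro h; rw [hy] at h; exact absurd h (by simp)
      · obtain ⟨J, h1, h2, _⟩ := ih y (by omega)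
        refine ⟨J.map (fun i => i + 1), ?_, ?_, ?_⟩
        · rw [Multiset.map_map, hy, ← h1, ← Multiset.sum_map_mul_left]
          congr 1
          apply Multiset.map_congr rfl
          intro i _
          simp [pow_succ']
        · rw [Multiset.card_map, h2, hy, wt_two_mul]
        · intro h; rw [hy] at h; exact absurd h (by simp)
    · obtain ⟨J, h1, h2, _⟩ := ih y (by omega)
      refine ⟨0 ::ₘ J.map (fun i => i + 1), ?_, ?_, fun _ => by simp⟩
      · have h3 : (Multiset.map ((fun i => 2 ^ i) ∘ fun i => i + 1) J).sum = 2 * y := by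
          rw [← h1, ← Multiset.sum_map_mul_left]
          congr 1
          apply Multiset.map_congr rfl
          intro i _
          simp [pow_succ']
        rw [Multiset.map_cons, Multiset.sum_cons, Multiset.map_map, h3, hy]
        ring
      · rw [Multiset.card_cons, Multiset.card_map, h2, hy, wt_two_mul_add_one]

/-- If powers `2 ^ e` with least exponent `t` add up to `2 ^ N`, there are at least `N - t + 1`
of them. -/
lemma card_ge : ∀ (s : ℕ) (M : Multiset ℕ), M.card = s → ∀ t N : ℕ, t ∈ M → (∀ e ∈ M, t ≤ e) →
    (M.map (fun i => 2 ^ i)).sum = 2 ^ N → N + 1 ≤ M.card + t := by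
  intro s
  induction s using Nat.strong_induction_on with
  | _ s ih =>
    intro M hM t N ht hmin hsum
    obtain ⟨M', rfl⟩ := Multiset.exists_cons_of_mem ht
    rw [Multiset.map_cons, Multiset.sum_cons] at hsum
    by_cases h0 : M' = 0
    · subst h0
      have h1 : (2 : ℕ) ^ t = 2 ^ N := by simpa using hsum
      have h2 := Nat.pow_right_injective (le_refl 2) h1
      simp only [Multiset.card_cons, Multiset.card_zero]
      omega
    · -- t occurs twice
      have hpos : 0 < (M'.map (fun i => 2 ^ i)).sum := by
        obtain ⟨e, he⟩ := Multiset.exists_mem_of_ne_zero h0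
        have h1 : 2 ^ e ≤ (M'.map (fun i => 2 ^ i)).sum :=
          Multiset.single_le_sum (fun x _ => Nat.zero_le x) _ (Multiset.mem_map_of_mem _ he)
        have : 0 < 2 ^ e := by positivity
        omega
      have htN : t < N := by
        by_contra hc
        push Not at hc
        have : 2 ^ N ≤ 2 ^ t := Nat.pow_le_pow_right (by norm_num) hc
        omega
      have ht2 : t ∈ M' := by
        by_contra hc
        have h1 : 2 ^ (t + 1) ∣ (M'.map (fun i => 2 ^ i)).sum := by
          apply Multiset.dvd_sum
          intro x hx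
          obtain ⟨e, he, rfl⟩ := Multiset.mem_map.mp hx
          apply pow_dvd_pow
          have h2 := hmin e (by simp [he])
          rcases Nat.lt_or_ge t e with h3 | h3
          · exact h3
          · exfalso
            have : e = t := by omega
            exact hc (this ▸ he)
        have h2 : 2 ^ (t + 1) ∣ 2 ^ N := pow_dvd_pow 2 htN
        rw [← hsum] at h2
        have h3 := (Nat.dvd_add_left h1).mp h2
        have h4 := Nat.le_of_dvd (by positivity) h3
        rw [pow_succ] at h4
        have : 0 < 2 ^ t := by positivity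
        omega
      obtain ⟨M'', rfl⟩ := Multiset.exists_cons_of_mem ht2
      have hsum' : (((t + 1) ::ₘ M'').map (fun i => 2 ^ i)).sum = 2 ^ N := by
        rw [Multiset.map_cons, Multiset.sum_cons] at hsum ⊢
        rw [pow_succ]
        omega
      have hcard : ((t + 1) ::ₘ M'').card < s := by
        rw [← hM]
        simp
      by_cases ht3 : t ∈ M''
      · have := ih _ hcard ((t + 1) ::ₘ M'') rfl t N (by simp [ht3]) (by
          intro e he
          rcases Multiset.mem_cons.mp he with h | h
          · omega
          · exact hmin e (by simp [h])) hsum'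
        simp only [Multiset.card_cons] at this ⊢
        omega
      · have := ih _ hcard ((t + 1) ::ₘ M'') rfl (t + 1) N (by simp) (by
          intro e he
          rcases Multiset.mem_cons.mp he with h | h
          · omega
          · have h5 := hmin e (by simp [h])
            rcases Nat.lt_or_ge t e with h3 | h3
            · exact h3
            · exfalso
              have : e = t := by omega
              exact ht3 (this ▸ h)) hsum'
        simp only [Multiset.card_cons] at this ⊢
        omega

lemma wt_add_le (x y : ℕ) : wt (x + y) ≤ wt x + wt y := by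
  have : Fact (Nat.Prime 2) := ⟨Nat.prime_two⟩
  have h1 := sub_one_mul_padicValNat_factorial (p := 2) x
  have h2 := sub_one_mul_padicValNat_factorial (p := 2) y
  have h3 := sub_one_mul_padicValNat_factorial (p := 2) (x + y)
  have h4 : padicValNat 2 x.factorial + padicValNat 2 y.factorial ≤
      padicValNat 2 (x + y).factorial := by
    rw [← padicValNat.mul (Nat.factorial_ne_zero _) (Nat.factorial_ne_zero _)]
    exact (padicValNat_dvd_iff_le (Nat.factorial_ne_zero _)).mp
      (pow_padicValNat_dvd.trans (Nat.factorial_mul_factorial_dvd_factorial_add x y))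
  have h5 : (Nat.digits 2 x).sum ≤ x := Nat.digit_sum_le 2 x
  have h6 : (Nat.digits 2 y).sum ≤ y := Nat.digit_sum_le 2 y
  have h7 : (Nat.digits 2 (x + y)).sum ≤ x + y := Nat.digit_sum_le 2 (x + y)
  unfold wt
  omega

lemma wt_sum_mul_le (J : Multiset ℕ) (y : ℕ) :
    wt ((J.map (fun i => 2 ^ i)).sum * y) ≤ J.card * wt y := by
  induction J using Multiset.induction with
  | empty => simp [wt_zero]
  | cons i J ih =>
    rw [Multiset.map_cons, Multiset.sum_cons, add_mul, Multiset.card_cons, add_mul, one_mul]
    have h1 := wt_add_le (2 ^ i * y) ((J.map (fun i => 2 ^ i)).sum * y)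
    rw [wt_pow_mul] at h1
    omega

lemma wt_mul_le (x y : ℕ) : wt (x * y) ≤ wt x * wt y := by
  obtain ⟨J, h1, h2, _⟩ := exists_bits x
  have := wt_sum_mul_le J y
  rwa [h2, h1] at this

lemma wt_prod_le (L : List ℕ) : wt L.prod ≤ (L.map wt).prod := by
  induction L with
  | nil => simp [wt]
  | cons a L ih =>
    rw [List.prod_cons, List.map_cons, List.prod_cons]
    exact (wt_mul_le a L.prod).trans (Nat.mul_le_mul_left _ ih)

/-- The product of the weights of two factors. -/
lemma wt_two (m a b : ℕ) (hm : 2 ≤ m) (hab : a * b = Nat.fermatNumber m) (ha : 1 < a) (hb : 1 < b) :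
    3 * 2 ^ (m - 2) + 3 ≤ wt a * wt b := by
  obtain ⟨n, j, l, c, hj, hl, _, hj3, hl3, hn1, h2n, ha', hb', h3, h4⟩ := split m a b hab ha hb
  have hq := quarter m n j l c hm hj hl hj3 hl3 h2n h3 h4
  have hm4 : 2 ^ m = 4 * 2 ^ (m - 2) := by
    have : (4 : ℕ) = 2 ^ 2 := by norm_num
    rw [this, ← pow_add]; congr 1; omega
  obtain ⟨J, hJ1, hJ2, hJ3⟩ := exists_bits j
  obtain ⟨L, hL1, hL2, _⟩ := exists_bits l
  have hF := fermat_eq m
  set M : Multiset ℕ := J.map (fun i => i + n) + L.map (fun i => i + n) +
    J.bind (fun i => L.map (fun i' => i + n + (i' + n))) with hM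
  have hcard : M.card = wt j + wt l + wt j * wt l := by
    rw [hM, Multiset.card_add, Multiset.card_add, Multiset.card_map, Multiset.card_map,
      Multiset.card_bind, hJ2, hL2]
    congr 1
    have : (Multiset.map (Multiset.card ∘ fun i => Multiset.map (fun i' => i + n + (i' + n)) L) J) =
        Multiset.map (fun _ => wt l) J := by
      apply Multiset.map_congr rfl
      intro i _
      simp [hL2]
    rw [this, Multiset.map_const', Multiset.sum_replicate, smul_eq_mul, hJ2]
  have hmap : ∀ (X : Multiset ℕ), (Multiset.map (fun i => 2 ^ i) (X.map (fun i => i + n))).sum =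
      2 ^ n * (X.map (fun i => 2 ^ i)).sum := by
    intro X
    rw [Multiset.map_map, ← Multiset.sum_map_mul_left]
    congr 1
    apply Multiset.map_congr rfl
    intro i _
    simp [pow_add, mul_comm]
  have hsum : (M.map (fun i => 2 ^ i)).sum = 2 ^ 2 ^ m := by
    have h5 : (Multiset.map (fun i => 2 ^ i)
        (J.bind (fun i => L.map (fun i' => i + n + (i' + n))))).sum = 2 ^ n * j * (2 ^ n * l) := by
      rw [Multiset.map_bind, Multiset.sum_bind]
      have h6 : (Multiset.map (fun i => (Multiset.map (fun i => 2 ^ i)
          (L.map (fun i' => i + n + (i' + n)))).sum) J) =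
          Multiset.map (fun i => 2 ^ i * (2 ^ n * (2 ^ n * l))) J := by
        apply Multiset.map_congr rfl
        intro i _
        rw [Multiset.map_map, ← hL1]
        have h7 : (Multiset.map ((fun i => 2 ^ i) ∘ fun i' => i + n + (i' + n)) L) =
            Multiset.map (fun i' => 2 ^ i * 2 ^ n * 2 ^ n * 2 ^ i') L := by
          apply Multiset.map_congr rfl
          intro i' _
          simp only [Function.comp_apply]
          rw [pow_add, pow_add, pow_add]
          ring
        rw [h7, Multiset.sum_map_mul_left]
        ring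
      rw [h6, Multiset.sum_map_mul_right, hJ1]
      ring
    rw [hM, Multiset.map_add, Multiset.sum_add, Multiset.map_add, Multiset.sum_add, hmap, hmap,
      hJ1, hL1, h5]
    have : a * b = 1 + (2 ^ n * j + 2 ^ n * l + 2 ^ n * j * (2 ^ n * l)) := by
      rw [ha', hb']; ring
    rw [hab, hF] at this
    omega
  have hmem : n ∈ M := by
    rw [hM]
    have : n ∈ J.map (fun i => i + n) := Multiset.mem_map.mpr ⟨0, hJ3 hj, by simp⟩
    simp only [Multiset.mem_add]
    left; left; exact this
  have hmin : ∀ e ∈ M, n ≤ e := by
    intro e he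
    rw [hM, Multiset.mem_add, Multiset.mem_add, Multiset.mem_bind] at he
    rcases he with (h | h) | ⟨i, _, h⟩
    · obtain ⟨x, _, hx⟩ := Multiset.mem_map.mp h; omega
    · obtain ⟨x, _, hx⟩ := Multiset.mem_map.mp h; omega
    · obtain ⟨x, _, hx⟩ := Multiset.mem_map.mp h; omega
  have h5 := card_ge _ M rfl n (2 ^ m) hmem hmin hsum
  rw [hcard] at h5
  have h6 : wt a * wt b = wt j + wt l + wt j * wt l + 1 := by
    rw [ha', hb', wt_one_add n j hn1, wt_one_add n l hn1]; ring
  rw [h6]
  omega

end Pool.Agent.R496
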